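import Pool.Agent.Lib.MP_f11a48_ag.CF.Spec
import Pool.Agent.Lib.MP_f11a48_ag.GF.Qua
import Pool.Agent.Lib.MP_f11a48_ag.GF.Sym
import Pool.Agent.Lib.MP_f11a48_ag.GF.Eval

/-!
# Module MONO: homogeneous polynomial relations between the values of the entries of a solution
matrix come from relations between the functions
-/

set_option autoImplicit false

namespace Pool.Agent.Lib.MPf11a48.CF.MonoM

open Polynomial Matrix
open scoped PowerSeries
open Pool.Agent.Lib.MPf11a48.GF Pool.Agent.Lib.MPf11a48.GF.EstM Pool.Agent.Lib.MPf11a48.GF.QuaM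

section Blk

variable {κ μ : Type} [Fintype κ] [DecidableEq κ] [Fintype μ]

/-- several copies of a system -/
noncomputable def BB (κ : Type) [DecidableEq κ] (B : Matrix μ μ ℤ[X]) :
    Matrix (κ × μ) (κ × μ) ℤ[X] :=
  fun x y => if x.1 = y.1 then B x.2 y.2 else 0

omit [DecidableEq κ] in
theorem sum_BB {S : Type*} [AddCommMonoid S] (f : κ × μ → S) (s : κ)
    (hf : ∀ x, x.1 ≠ s → f x = 0) : ∑ x, f x = ∑ J, f (s, J) := by
  rw [Fintype.sum_prod_type, Finset.sum_eq_single s]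
  · intro b _ hb
    exact Finset.sum_eq_zero fun J _ => hf _ hb
  · simp

theorem dd_BB (T : ℚ[X]) (B : Matrix μ μ ℤ[X]) (P : κ × μ → ℚ[X]) (k : ℕ) (s : κ) (J : μ) :
    dd T ((BB κ B).map zq) P k (s, J) = dd T (B.map zq) (fun J => P (s, J)) k J := by
  induction k generalizing J with
  | zero => rfl
  | succ k ih =>
    simp only [dd]
    rw [ih J]
    congr 2
    rw [del, del]
    have e : (dd T ((BB κ B).map zq) P k (s, J)) = dd T (B.map zq) (fun J => P (s, J)) k J := ih J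
    rw [e, sum_BB _ s]
    · congr 1
      refine Finset.sum_congr rfl fun K _ => ?_
      rw [ih K]
      simp [BB]
    · intro x hx
      simp [BB, hx]

theorem sol_BB (T : ℚ[X]) (B : Matrix μ μ ℤ[X]) (y : κ × μ → ℚ⟦X⟧)
    (h : ∀ s, IsSol T (B.map zq) fun J => y (s, J)) : IsSol T ((BB κ B).map zq) y := by
  rintro ⟨s, J⟩
  rw [h s J, sum_BB _ s]
  · refine Finset.sum_congr rfl fun K _ => ?_
    simp [BB]
  · intro x hx
    simp [BB, Ne.symm hx]

theorem dd_zero (T : ℚ[X]) (B : Matrix μ μ ℚ[X]) (k : ℕ) : dd T B (0 : μ → ℚ[X]) k = 0 := by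
  induction k with
  | zero => rfl
  | succ k ih =>
    rw [dd, ih]
    funext j
    simp [del]

theorem gal_BB [DecidableEq μ] (T : ℤ[X]) (B : Matrix μ μ ℤ[X]) (h : IsGal T B) :
    IsGal T (BB κ B) := by
  obtain ⟨C, hC⟩ := h
  refine ⟨C, fun n => ?_⟩
  obtain ⟨q, hq, hqC, hk⟩ := hC n
  refine ⟨q, hq, hqC, ?_⟩
  rintro k hkn ⟨s, i⟩ ⟨s', j⟩
  rw [dd_BB]
  by_cases hs : s' = s
  · subst hs
    obtain ⟨z, hz⟩ := hk k hkn i j
    refine ⟨z, ?_⟩
    rw [← hz]
    congr 2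
    funext L
    by_cases hL : L = i
    · subst hL; simp
    · have : ((s', L) : κ × μ) ≠ (s', i) := by simp [hL]
      rw [Pi.single_eq_of_ne this, Pi.single_eq_of_ne hL]
  · refine ⟨0, ?_⟩
    have e : (fun L : μ => (Pi.single (s, i) 1 : κ × μ → ℚ[X]) (s', L)) = 0 := by
      funext L
      have : ((s', L) : κ × μ) ≠ (s, i) := by simp [hs]
      rw [Pi.single_eq_of_ne this]
      rfl
    rw [e, dd_zero]
    simp

omit [Fintype μ] in
/-- finitely many families of G-functions -/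
theorem isG_fin (u : κ → μ → ℚ⟦X⟧) (hu : ∀ s, IsG (u s)) : IsG fun x : κ × μ => u x.1 x.2 := by
  choose C hC using hu
  have h1 : ∀ s, 1 ≤ C s := by
    intro s
    obtain ⟨q, hq, hq', _⟩ := hC s 0
    simp at hq'
    omega
  refine ⟨∏ s, C s, fun n => ?_⟩
  choose q hq hqC hqi hqs using fun s => hC s n
  refine ⟨∏ s, q s, Finset.prod_pos fun s _ => hq s, ?_, ?_, ?_⟩
  · rw [← Finset.prod_pow]
    exact Finset.prod_le_prod' fun s _ => hqC s
  · rintro ⟨s, x⟩ k hk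
    obtain ⟨z, hz⟩ := hqi s x k hk
    refine ⟨(∏ t ∈ Finset.univ.erase s, (q t : ℤ)) * z, ?_⟩
    push_cast
    rw [← hz, ← mul_assoc]
    congr 1
    rw [← Finset.mul_prod_erase Finset.univ (fun t => (q t : ℚ)) (Finset.mem_univ s), mul_comm]
  · rintro ⟨s, x⟩
    refine (hqs s x).trans (pow_le_pow_left₀ (by positivity) ?_ _)
    have h2 : C s ≤ ∏ s, C s :=
      Finset.single_le_prod' (fun t _ => h1 t) (Finset.mem_univ s)
    exact_mod_cast h2

end Blk

/-- the bounds for `a / b` -/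
theorem small {C D : ℕ} (hD : 2 * D ≤ C) (hC : 1 ≤ C) {a b : ℤ} (ha : a ≠ 0)
    (hb : (C : ℤ) * |a| ^ C ≤ b) : 2 * (D : ℝ) * ‖((a : ℂ) / b)‖ ≤ 1 := by
  have ha1 : (1 : ℤ) ≤ |a| := Int.one_le_abs ha
  have hpow : |a| ≤ |a| ^ C := by
    calc |a| = |a| ^ 1 := (pow_one _).symm
      _ ≤ |a| ^ C := pow_le_pow_right₀ ha1 hC
  have h1 : (2 * D : ℤ) * |a| ≤ b := by
    refine le_trans ?_ hb
    have h2 : (2 * D : ℤ) ≤ C := by exact_mod_cast hD
    exact mul_le_mul h2 hpow (by positivity) (by positivity)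
  have hb0 : (0 : ℤ) < b := by
    refine lt_of_lt_of_le ?_ hb
    have : (0 : ℤ) < C := by exact_mod_cast hC
    positivity
  have hb0' : (0 : ℝ) < (b : ℝ) := by exact_mod_cast hb0
  rw [norm_div, Complex.norm_intCast, Complex.norm_intCast, abs_of_pos hb0', ← mul_div_assoc,
    div_le_one hb0']
  have h3 : (((2 * D : ℤ) * |a| : ℤ) : ℝ) ≤ (b : ℝ) := by exact_mod_cast h1
  push_cast at h3
  linarith

theorem mono {C D : ℕ} (hD : D ≤ C) {a b : ℤ} (ha : a ≠ 0) (hb : (C : ℤ) * |a| ^ C ≤ b) :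
    (D : ℤ) * |a| ^ D ≤ b := by
  have ha1 : (1 : ℤ) ≤ |a| := Int.one_le_abs ha
  refine le_trans ?_ hb
  have h1 : |a| ^ D ≤ |a| ^ C := pow_le_pow_right₀ ha1 hD
  have h2 : (D : ℤ) ≤ C := by exact_mod_cast hD
  exact mul_le_mul h2 h1 (by positivity) (by positivity)

/-- absolute convergence at `a / b` -/
theorem sm_of {μ : Type} {u : μ → ℚ⟦X⟧} (hu : IsG u) :
    ∃ C : ℕ, ∀ a b : ℤ, a ≠ 0 → (C : ℤ) * |a| ^ C ≤ b → ∀ i, Sm (u i) ((a : ℂ) / b) := by
  obtain ⟨C, hC⟩ := hu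
  refine ⟨2 * C + 1, fun a b ha hb i => specEval.1 _ C _ (fun n => ?_) ?_⟩
  · obtain ⟨q, -, -, -, hq⟩ := hC n
    exact hq i
  · exact small (by omega) (by omega) ha hb

/-- from linear relations between the monomials to polynomial relations -/
theorem toG {μ : Type} [Fintype μ] (n : ℕ) [Fintype {J : μ →₀ ℕ // J.degree = n}]
    (v : μ → ℚ⟦X⟧) (F : MvPolynomial μ ℚ) (hF : F.IsHomogeneous n) (ξ : ℚ)
    (P : Fin 2 × {J : μ →₀ ℕ // J.degree = n} → ℚ[X])
    (hP0 : ∑ x, (P x : ℚ⟦X⟧) * ∏ i, v i ^ x.2.1 i = 0)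
    (h1 : ∀ K, (P (0, K)).eval ξ = MvPolynomial.coeff K.1 F) (h2 : ∀ K, (P (1, K)).eval ξ = 0) :
    ∃ G : MvPolynomial μ ℚ[X], peval v G = 0 ∧ G.map (Polynomial.evalRingHom ξ) = F := by
  refine ⟨∑ K : {J : μ →₀ ℕ // J.degree = n}, MvPolynomial.monomial K.1 (P (0, K) + P (1, K)),
    ?_, ?_⟩
  · have : peval v (∑ K : {J : μ →₀ ℕ // J.degree = n},
        MvPolynomial.monomial K.1 (P (0, K) + P (1, K))) =
        ∑ K : {J : μ →₀ ℕ // J.degree = n},
          peval v (MvPolynomial.monomial K.1 (P (0, K) + P (1, K))) := by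
      unfold peval
      exact MvPolynomial.eval₂_sum _ _ _ _
    rw [this, ← hP0, Fintype.sum_prod_type, Fin.sum_univ_two, ← Finset.sum_add_distrib]
    refine Finset.sum_congr rfl fun K _ => ?_
    rw [peval_monomial, Polynomial.coe_add, add_mul]
  · rw [map_sum]
    conv_rhs => rw [hom_eq n F hF]
    refine Finset.sum_congr rfl fun K _ => ?_
    rw [MvPolynomial.map_monomial, map_add, Polynomial.coe_evalRingHom, h1 K, h2 K, add_zero]

/-- the values of a polynomial -/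
theorem value {μ : Type} [Fintype μ] (n : ℕ) [Fintype {J : μ →₀ ℕ // J.degree = n}]
    (v : μ → ℚ⟦X⟧) (F : MvPolynomial μ ℚ) (hF : F.IsHomogeneous n) (z : ℂ)
    (hv : ∀ i, Sm (v i) z) (h0 : MvPolynomial.aeval (fun i => pval (v i) z) F = 0) :
    ∑ x : Fin 2 × {J : μ →₀ ℕ // J.degree = n},
      ((if x.1 = 0 then MvPolynomial.coeff x.2.1 F else 0 : ℚ) : ℂ) * pval (∏ i, v i ^ x.2.1 i) z
      = 0 := by
  obtain ⟨FF, hF0, hF1⟩ : ∃ FF : Fin 2 → MvPolynomial μ ℚ, FF 0 = F ∧ FF 1 = 0 :=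
    ⟨![F, 0], rfl, rfl⟩
  have hFF : ∀ k, (FF k).IsHomogeneous n := by
    intro k
    fin_cases k
    · change (FF 0).IsHomogeneous n
      rw [hF0]; exact hF
    · change (FF 1).IsHomogeneous n
      rw [hF1]; exact MvPolynomial.isHomogeneous_zero _ _ _
  have hval := values specEval n (fun _ => v) z (fun _ => hv) FF hFF
  rw [Fin.sum_univ_two, hF0, hF1, map_zero, add_zero, h0] at hval
  rw [hval]
  refine Finset.sum_congr rfl fun x _ => ?_
  obtain ⟨k, K⟩ := x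
  fin_cases k
  · change ((if (0 : Fin 2) = 0 then MvPolynomial.coeff K.1 F else 0 : ℚ) : ℂ) * _ =
      ((MvPolynomial.coeff K.1 (FF 0) : ℚ) : ℂ) * _
    rw [hF0, if_pos rfl]
  · change ((if (1 : Fin 2) = 0 then MvPolynomial.coeff K.1 F else 0 : ℚ) : ℂ) * _ =
      ((MvPolynomial.coeff K.1 (FF 1) : ℚ) : ℂ) * _
    rw [hF1, if_neg (by decide), MvPolynomial.coeff_zero]

end Pool.Agent.Lib.MPf11a48.CF.MonoM

namespace Pool.Agent.Lib.MPf11a48.CF

open Polynomial Matrix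
open scoped PowerSeries
open Pool.Agent.Lib.MPf11a48.GF Pool.Agent.Lib.MPf11a48.GF.EstM Pool.Agent.Lib.MPf11a48.GF.QuaM

open MonoM in
theorem specMono (hL : SpecLift) : SpecMono := by
  intro ι _ _ T B Y hT hgal hsol hg n
  classical
  have hfin : Finite {J : ι × ι →₀ ℕ // J.degree = n} :=
    Set.Finite.subset (Finsupp.finite_of_degree_le (σ := ι × ι) n) fun J hJ => le_of_eq hJ
  let _ : Fintype {J : ι × ι →₀ ℕ // J.degree = n} := Fintype.ofFinite _
  have hgY : IsG fun p : ι × ι => Y p.1 p.2 := isG_fin Y hg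
  obtain ⟨⟨B', hG, hS⟩, hu⟩ := specSym (ι × ι) T (BB ι B) (fun _ p => Y p.1 p.2) n inferInstance
    (gal_BB T B hgal) (fun _ => sol_BB _ B _ fun s => hsol s) (fun _ => hgY)
  obtain ⟨C1, hC1⟩ := hL _ T B' _ hT hG hS hu
  obtain ⟨C2, hC2⟩ := sm_of hgY
  refine ⟨C1 + C2, fun a b ha hb F hF h0 => ?_⟩
  have hv := hC2 a b ha (mono (by omega) ha hb)
  have hval := value n (fun p : ι × ι => Y p.1 p.2) F hF _ hv h0
  obtain ⟨P, hP0, hP1⟩ := hC1 a b ha (mono (by omega) ha hb) _ hval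
  refine toG n (fun p : ι × ι => Y p.1 p.2) F hF ((a : ℚ) / b) P hP0 (fun K => ?_) fun K => ?_
  · rw [hP1 (0, K)]
    exact if_pos rfl
  · rw [hP1 (1, K)]
    exact if_neg (show ¬ (1 : Fin 2) = 0 by decide)

end Pool.Agent.Lib.MPf11a48.CF
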