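import Pool.Agent.Lib.MP_f11a48_ag.CF.Spec
import Pool.Agent.Lib.MP_f11a48_ag.GF.Est

/-!
# Module LIFT: linear relations between the values come from relations between the functions
-/

set_option autoImplicit false
set_option linter.unusedSectionVars false

namespace Pool.Agent.Lib.MPf11a48.CF.LiftM

open Polynomial Matrix
open scoped PowerSeries
open Pool.Agent.Lib.MPf11a48.GF

/-- clearing denominators -/
theorem clear1 (p : ℚ[X]) : ∃ N : ℕ, 0 < N ∧ ∃ z : ℤ[X], (N : ℚ[X]) * p = zq z := by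
  refine ⟨∏ i ∈ p.support, (p.coeff i).den, Finset.prod_pos fun i _ => (p.coeff i).den_pos, ?_⟩
  refine ⟨∑ i ∈ p.support, C ((∏ j ∈ p.support.erase i, ((p.coeff j).den : ℤ)) * (p.coeff i).num) *
    X ^ i, ?_⟩
  have h0 : p = ∑ i ∈ p.support, C (p.coeff i) * X ^ i := p.as_sum_support_C_mul_X_pow
  have h1 : ((∏ j ∈ p.support, (p.coeff j).den : ℕ) : ℚ[X]) =
      C (((∏ j ∈ p.support, (p.coeff j).den : ℕ)) : ℚ) := by simp
  rw [h1]
  calc C (((∏ j ∈ p.support, (p.coeff j).den : ℕ)) : ℚ) * p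
      = C (((∏ j ∈ p.support, (p.coeff j).den : ℕ)) : ℚ) *
          ∑ i ∈ p.support, C (p.coeff i) * X ^ i := by rw [← h0]
    _ = _ := by
      rw [zq, Polynomial.map_sum, Finset.mul_sum]
      refine Finset.sum_congr rfl fun i hi => ?_
      rw [Polynomial.map_mul, Polynomial.map_C, Polynomial.map_pow, Polynomial.map_X, ← mul_assoc,
        ← C_mul]
      congr 2
      rw [← Finset.mul_prod_erase _ _ hi]
      push_cast
      have h2 : ((p.coeff i).den : ℚ) * p.coeff i = (p.coeff i).num := Rat.den_mul_eq_num _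
      rw [mul_right_comm, h2]
      simp only [eq_intCast, Int.cast_mul, Int.cast_prod, Int.cast_natCast]
      ring

theorem clear {μ : Type} [Fintype μ] (P : μ → ℚ[X]) :
    ∃ N : ℕ, 0 < N ∧ ∃ z : μ → ℤ[X], ∀ c, (N : ℚ[X]) * P c = zq (z c) := by
  classical
  choose N hN z hz using fun c => clear1 (P c)
  refine ⟨∏ c, N c, Finset.prod_pos fun c _ => hN c,
    fun c => ((∏ d ∈ Finset.univ.erase c, N d : ℕ) : ℤ[X]) * z c, fun c => ?_⟩
  rw [← Finset.mul_prod_erase _ _ (Finset.mem_univ c), Nat.cast_mul, mul_right_comm, hz c]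
  simp only [zq, Polynomial.map_mul, Polynomial.map_natCast]
  ring

theorem zq_ne {p : ℤ[X]} (h : p ≠ 0) : zq p ≠ 0 := by
  intro h0
  apply h
  refine Polynomial.map_injective (Int.castRingHom ℚ) Int.cast_injective ?_
  rw [Polynomial.map_zero]
  exact h0

theorem zq_mul (p q : ℤ[X]) : zq (p * q) = zq p * zq q := Polynomial.map_mul _

theorem zq_sum {κ : Type} (s : Finset κ) (p : κ → ℤ[X]) : zq (∑ c ∈ s, p c) = ∑ c ∈ s, zq (p c) :=
  Polynomial.map_sum _ _ _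

theorem zq_pow (p : ℤ[X]) (k : ℕ) : zq (p ^ k) = zq p ^ k := Polynomial.map_pow _ _

/-- a maximal independent subfamily -/
theorem exists_basis {μ : Type} [Fintype μ] [DecidableEq μ] (u : μ → ℚ⟦X⟧) :
    ∃ (s : Finset μ) (t : ℤ[X]) (p : μ → {c // c ∈ s} → ℤ[X]), t ≠ 0 ∧
      (∀ P : {c // c ∈ s} → ℚ[X], ∑ c, (P c : ℚ⟦X⟧) * u c.1 = 0 → P = 0) ∧
      ∀ c, ((zq t : ℚ[X]) : ℚ⟦X⟧) * u c = ∑ c', ((zq (p c c') : ℚ[X]) : ℚ⟦X⟧) * u c'.1 := by
  classical
  let Ind : Finset μ → Prop := fun s =>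
    ∀ P : μ → ℚ[X], (∀ c, c ∉ s → P c = 0) → ∑ c, (P c : ℚ⟦X⟧) * u c = 0 → P = 0
  have h0 : Ind ∅ := fun P hP _ => funext fun c => hP c (Finset.notMem_empty c)
  obtain ⟨s, hs, hmax⟩ := Finset.exists_max_image (Finset.univ.filter Ind) Finset.card
    ⟨∅, by simp [h0]⟩
  rw [Finset.mem_filter] at hs
  have hs := hs.2
  have hsum : ∀ P : μ → ℚ[X], (∀ c, c ∉ s → P c = 0) →
      ∑ c, (P c : ℚ⟦X⟧) * u c = ∑ c : {c // c ∈ s}, (P c.1 : ℚ⟦X⟧) * u c.1 := by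
    intro P hP
    rw [Finset.sum_coe_sort s fun c => (P c : ℚ⟦X⟧) * u c]
    refine (Finset.sum_subset (Finset.subset_univ s) fun c _ hc => ?_).symm
    rw [hP c hc, Polynomial.coe_zero, zero_mul]
  -- every `u c` is a combination
  have key : ∀ c, ∃ (t : ℤ[X]) (p : {c // c ∈ s} → ℤ[X]), t ≠ 0 ∧
      ((zq t : ℚ[X]) : ℚ⟦X⟧) * u c = ∑ c', ((zq (p c') : ℚ[X]) : ℚ⟦X⟧) * u c'.1 := by
    intro c
    by_cases hc : c ∈ s
    · refine ⟨1, Pi.single ⟨c, hc⟩ 1, one_ne_zero, ?_⟩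
      rw [Finset.sum_eq_single ⟨c, hc⟩]
      · rw [Pi.single_eq_same]
      · intro d _ hd
        rw [Pi.single_eq_of_ne hd]
        simp [zq]
      · intro h
        exact absurd (Finset.mem_univ _) h
    · have hn : ¬ Ind (insert c s) := by
        intro h
        have := hmax (insert c s) (by simp [h])
        rw [Finset.card_insert_of_notMem hc] at this
        omega
      simp only [Ind] at hn
      push Not at hn
      obtain ⟨P, hP, hPu, hP0⟩ := hn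
      have hPc : P c ≠ 0 := by
        intro h
        apply hP0
        refine hs P (fun d hd => ?_) hPu
        by_cases hdc : d = c
        · rw [hdc]; exact h
        · exact hP d (by simp [hdc, hd])
      obtain ⟨N, hN, z, hz⟩ := clear P
      refine ⟨z c, fun d => -z d.1, ?_, ?_⟩
      · intro h
        have h1 := hz c
        rw [h] at h1
        simp only [zq, Polynomial.map_zero, mul_eq_zero] at h1
        rcases h1 with h1 | h1
        · have : (N : ℚ[X]) ≠ 0 := by exact_mod_cast hN.ne'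
          exact this h1
        · exact hPc h1
      · have h1 : ∑ d, ((zq (z d) : ℚ[X]) : ℚ⟦X⟧) * u d = 0 := by
          have : ∀ d, ((zq (z d) : ℚ[X]) : ℚ⟦X⟧) * u d =
              ((N : ℚ[X]) : ℚ⟦X⟧) * ((P d : ℚ⟦X⟧) * u d) := by
            intro d
            rw [← hz d, Polynomial.coe_mul, mul_assoc]
          simp only [this]
          rw [← Finset.mul_sum, hPu, mul_zero]
        rw [← Finset.add_sum_erase _ _ (Finset.mem_univ c)] at h1
        have h2 : ∑ d ∈ Finset.univ.erase c, ((zq (z d) : ℚ[X]) : ℚ⟦X⟧) * u d =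
            ∑ d : {c // c ∈ s}, ((zq (z d.1) : ℚ[X]) : ℚ⟦X⟧) * u d.1 := by
          rw [Finset.sum_coe_sort s fun d => ((zq (z d) : ℚ[X]) : ℚ⟦X⟧) * u d]
          refine (Finset.sum_subset (fun d hd => ?_) fun d hd hds => ?_).symm
          · rw [Finset.mem_erase]
            exact ⟨fun h => hc (h ▸ hd), Finset.mem_univ _⟩
          · have hd0 : P d = 0 := by
              refine hP d ?_
              rw [Finset.mem_insert, not_or]
              exact ⟨(Finset.mem_erase.1 hd).1, hds⟩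
            rw [← hz d, hd0, mul_zero, Polynomial.coe_zero, zero_mul]
        rw [h2] at h1
        rw [eq_neg_of_add_eq_zero_left h1, ← Finset.sum_neg_distrib]
        refine Finset.sum_congr rfl fun d _ => ?_
        simp only [zq, Polynomial.map_neg, Polynomial.coe_neg, neg_mul]
  choose t p ht hp using key
  refine ⟨s, ∏ c, t c, fun c c' => (∏ d ∈ Finset.univ.erase c, t d) * p c c',
    Finset.prod_ne_zero_iff.2 fun c _ => ht c, ?_, ?_⟩
  · intro P hP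
    have h1 := hs (fun c => if h : c ∈ s then P ⟨c, h⟩ else 0) (fun c hc => by simp [hc]) (by
      rw [hsum _ fun c hc => by simp [hc]]
      rw [← hP]
      refine Finset.sum_congr rfl fun c _ => ?_
      simp [c.2])
    funext c
    have h2 := congrFun h1 c.1
    simp only [c.2, dite_true, Subtype.coe_eta] at h2
    exact h2
  · intro c
    rw [← Finset.mul_prod_erase _ _ (Finset.mem_univ c)]
    simp only [zq_mul, Polynomial.coe_mul]
    rw [mul_right_comm, hp c, Finset.sum_mul]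
    exact Finset.sum_congr rfl fun d _ => by ring


section sys

variable {μ : Type} [Fintype μ] [DecidableEq μ]

theorem sol_sub (T t : ℤ[X]) (B : Matrix μ μ ℤ[X]) (u : μ → ℚ⟦X⟧) (s : Finset μ)
    (p : μ → {c // c ∈ s} → ℤ[X]) (hs : IsSol (zq T) (B.map zq) u)
    (hp : ∀ c, ((zq t : ℚ[X]) : ℚ⟦X⟧) * u c = ∑ c', ((zq (p c c') : ℚ[X]) : ℚ⟦X⟧) * u c'.1) :
    IsSol (zq (T * t))
      ((Matrix.of fun (c c' : {c // c ∈ s}) => ∑ j, B c.1 j * p j c').map zq)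
      (fun c : {c // c ∈ s} => u c.1) := by
  intro i
  have h1 := hs i.1
  rw [zq_mul, Polynomial.coe_mul, mul_comm ((zq T : ℚ[X]) : ℚ⟦X⟧), mul_assoc, h1, Finset.mul_sum]
  have h2 : ∀ j, ((zq t : ℚ[X]) : ℚ⟦X⟧) * (((B.map zq) i.1 j : ℚ⟦X⟧) * u j) =
      ∑ c', ((zq (B i.1 j * p j c') : ℚ[X]) : ℚ⟦X⟧) * u c'.1 := by
    intro j
    rw [mul_left_comm, hp j, Finset.mul_sum]
    refine Finset.sum_congr rfl fun c' _ => ?_
    rw [zq_mul, Polynomial.coe_mul, mul_assoc]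
    rfl
  simp only [h2]
  rw [Finset.sum_comm]
  refine Finset.sum_congr rfl fun c' _ => ?_
  rw [← Finset.sum_mul]
  congr 1
  simp only [Matrix.map_apply, Matrix.of_apply]
  rw [zq_sum]
  exact (map_sum (Polynomial.coeToPowerSeries.ringHom (R := ℚ)) _ _).symm

theorem dd_sub (hSolv : SpecSolv) (T t : ℤ[X]) (B : Matrix μ μ ℤ[X]) (u : μ → ℚ⟦X⟧) (s : Finset μ)
    (p : μ → {c // c ∈ s} → ℤ[X]) (hs : IsSol (zq T) (B.map zq) u)
    (hind : ∀ P : {c // c ∈ s} → ℚ[X], ∑ c, (P c : ℚ⟦X⟧) * u c.1 = 0 → P = 0)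
    (hp : ∀ c, ((zq t : ℚ[X]) : ℚ⟦X⟧) * u c = ∑ c', ((zq (p c c') : ℚ[X]) : ℚ⟦X⟧) * u c'.1)
    (i : {c // c ∈ s}) (k : ℕ) (j : {c // c ∈ s}) :
    dd (zq (T * t)) ((Matrix.of fun (c c' : {c // c ∈ s}) => ∑ j, B c.1 j * p j c').map zq)
      (Pi.single i 1) (k + 1) j =
    zq t ^ k * ∑ c, dd (zq T) (B.map zq) (Pi.single i.1 1) (k + 1) c * zq (p c j) := by
  have hs1 := sol_sub T t B u s p hs hp
  set B1 := (Matrix.of fun (c c' : {c // c ∈ s}) => ∑ j, B c.1 j * p j c').map zq with hB1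
  have h1 := hSolv _ (zq (T * t)) B1 _ hs1 (Pi.single i 1) (k + 1)
  have h2 := hSolv μ (zq T) (B.map zq) u hs (Pi.single i.1 1) (k + 1)
  have e1 : ∑ j : {c // c ∈ s}, ((Pi.single i 1 : {c // c ∈ s} → ℚ[X]) j : ℚ⟦X⟧) * u j.1 =
      u i.1 := by
    rw [Finset.sum_eq_single i]
    · rw [Pi.single_eq_same, Polynomial.coe_one, one_mul]
    · intro d _ hd
      rw [Pi.single_eq_of_ne hd, Polynomial.coe_zero, zero_mul]
    · intro h
      exact absurd (Finset.mem_univ _) h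
  have e2 : ∑ j : μ, ((Pi.single i.1 1 : μ → ℚ[X]) j : ℚ⟦X⟧) * u j = u i.1 := by
    rw [Finset.sum_eq_single i.1]
    · rw [Pi.single_eq_same, Polynomial.coe_one, one_mul]
    · intro d _ hd
      rw [Pi.single_eq_of_ne hd, Polynomial.coe_zero, zero_mul]
    · intro h
      exact absurd (Finset.mem_univ _) h
  rw [e1] at h1
  rw [e2] at h2
  have h3 := hind (fun j => dd (zq (T * t)) B1 (Pi.single i 1) (k + 1) j -
    zq t ^ k * ∑ c, dd (zq T) (B.map zq) (Pi.single i.1 1) (k + 1) c * zq (p c j)) (by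
    simp only [Polynomial.coe_sub, sub_mul, Finset.sum_sub_distrib]
    rw [h1, sub_eq_zero]
    have h4 : ∀ j : {c // c ∈ s}, ((zq t ^ k * ∑ c, dd (zq T) (B.map zq) (Pi.single i.1 1) (k + 1) c *
        zq (p c j) : ℚ[X]) : ℚ⟦X⟧) * u j.1 = ∑ c, ((zq t : ℚ[X]) : ℚ⟦X⟧) ^ k *
        ((dd (zq T) (B.map zq) (Pi.single i.1 1) (k + 1) c : ℚ⟦X⟧) *
          (((zq (p c j) : ℚ[X]) : ℚ⟦X⟧) * u j.1)) := by
      intro j
      rw [Polynomial.coe_mul, Polynomial.coe_pow]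
      have : ((∑ c, dd (zq T) (B.map zq) (Pi.single i.1 1) (k + 1) c * zq (p c j) : ℚ[X]) :
          ℚ⟦X⟧) = ∑ c, (dd (zq T) (B.map zq) (Pi.single i.1 1) (k + 1) c : ℚ⟦X⟧) *
            ((zq (p c j) : ℚ[X]) : ℚ⟦X⟧) := by
        rw [← Polynomial.coeToPowerSeries.ringHom_apply, map_sum]
        simp only [map_mul, Polynomial.coeToPowerSeries.ringHom_apply]
      rw [this, mul_assoc, Finset.sum_mul, Finset.mul_sum]
      refine Finset.sum_congr rfl fun c _ => ?_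
      ring
    simp only [h4]
    rw [Finset.sum_comm]
    have h5 : ∀ c, ∑ j : {c // c ∈ s}, ((zq t : ℚ[X]) : ℚ⟦X⟧) ^ k *
        ((dd (zq T) (B.map zq) (Pi.single i.1 1) (k + 1) c : ℚ⟦X⟧) *
          (((zq (p c j) : ℚ[X]) : ℚ⟦X⟧) * u j.1)) =
        ((zq t : ℚ[X]) : ℚ⟦X⟧) ^ (k + 1) *
          ((dd (zq T) (B.map zq) (Pi.single i.1 1) (k + 1) c : ℚ⟦X⟧) * u c) := by
      intro c
      rw [← Finset.mul_sum, ← Finset.mul_sum, ← hp c, pow_succ]
      ring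
    simp only [h5]
    rw [← Finset.mul_sum, h2, zq_mul, Polynomial.coe_mul, mul_pow]
    ring)
  have h6 := congrFun h3 j
  exact sub_eq_zero.1 h6

end sys

theorem isGal_sub {μ : Type} [Fintype μ] [DecidableEq μ] (hSolv : SpecSolv) (T t : ℤ[X])
    (B : Matrix μ μ ℤ[X]) (u : μ → ℚ⟦X⟧) (s : Finset μ)
    (p : μ → {c // c ∈ s} → ℤ[X]) (hs : IsSol (zq T) (B.map zq) u)
    (hind : ∀ P : {c // c ∈ s} → ℚ[X], ∑ c, (P c : ℚ⟦X⟧) * u c.1 = 0 → P = 0)
    (hp : ∀ c, ((zq t : ℚ[X]) : ℚ⟦X⟧) * u c = ∑ c', ((zq (p c c') : ℚ[X]) : ℚ⟦X⟧) * u c'.1)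
    (hG : IsGal T B) :
    IsGal (T * t) (Matrix.of fun (c c' : {c // c ∈ s}) => ∑ j, B c.1 j * p j c') := by
  obtain ⟨C, hC⟩ := hG
  refine ⟨C, fun n => ?_⟩
  obtain ⟨q, hq, hqC, h⟩ := hC n
  refine ⟨q, hq, hqC, fun k hk i j => ?_⟩
  cases k with
  | zero =>
    refine ⟨(q : ℤ[X]) * (Pi.single i 1 : {c // c ∈ s} → ℤ[X]) j, ?_⟩
    have h1 : zq ((Pi.single i 1 : {c // c ∈ s} → ℤ[X]) j) =
        (Pi.single i 1 : {c // c ∈ s} → ℚ[X]) j := by
      by_cases hij : j = i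
      · rw [hij, Pi.single_eq_same, Pi.single_eq_same]
        simp [zq]
      · rw [Pi.single_eq_of_ne hij, Pi.single_eq_of_ne hij]
        simp [zq]
    have h2 : zq ((q : ℤ[X])) = (q : ℚ[X]) := by simp [zq]
    have h3 : zq ((q : ℤ[X]) * (Pi.single i 1 : {c // c ∈ s} → ℤ[X]) j) =
        (q : ℚ[X]) * (Pi.single i 1 : {c // c ∈ s} → ℚ[X]) j := by
      rw [zq_mul, h1, h2]
    exact h3.symm
  | succ k =>
    choose z hz using fun c => h (k + 1) hk i.1 c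
    refine ⟨t ^ k * ∑ c, z c * p c j, ?_⟩
    rw [dd_sub hSolv T t B u s p hs hind hp i k j, zq_mul, zq_pow, zq_sum, mul_left_comm,
      Finset.mul_sum]
    congr 1
    refine Finset.sum_congr rfl fun c _ => ?_
    rw [zq_mul, ← hz c]
    ring

theorem mono_C {C0 C : ℕ} {a b : ℤ} (hC : C0 ≤ C) (ha : a ≠ 0) (h : (C : ℤ) * |a| ^ C ≤ b) :
    (C0 : ℤ) * |a| ^ C0 ≤ b := by
  have h1 : (1 : ℤ) ≤ |a| := Int.one_le_abs ha
  refine le_trans (mul_le_mul (by exact_mod_cast hC) (pow_le_pow_right₀ h1 hC) (by positivity)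
    (by positivity)) h

theorem mono_lin {C0 C : ℕ} {a b : ℤ} (hC : C0 ≤ C) (hC1 : 1 ≤ C) (ha : a ≠ 0)
    (h : (C : ℤ) * |a| ^ C ≤ b) : (C0 : ℤ) * |a| ≤ b := by
  have h1 : (1 : ℤ) ≤ |a| := Int.one_le_abs ha
  refine le_trans (mul_le_mul (by exact_mod_cast hC) ?_ (by positivity) (by positivity)) h
  calc |a| = |a| ^ 1 := (pow_one _).symm
    _ ≤ |a| ^ C := pow_le_pow_right₀ h1 hC1

end Pool.Agent.Lib.MPf11a48.CF.LiftM

namespace Pool.Agent.Lib.MPf11a48.CF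

open Polynomial Matrix LiftM
open scoped PowerSeries
open Pool.Agent.Lib.MPf11a48.GF

theorem specLift (hEst : SpecEst) (hSolv : SpecSolv) (hEval : SpecEval) : SpecLift := by
  classical
  intro μ _ _ T B u hT hgal hsol hG
  obtain ⟨s, t, p, ht, hind, hp⟩ := exists_basis u
  rcases isEmpty_or_nonempty {c // c ∈ s} with he | hne
  · -- all functions are zero
    have hu : ∀ c, u c = 0 := by
      intro c
      have h1 := hp c
      rw [Finset.sum_of_isEmpty] at h1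
      rcases mul_eq_zero.1 h1 with h | h
      · exact absurd (Polynomial.coe_eq_zero_iff.1 h) (zq_ne ht)
      · exact h
    refine ⟨0, fun a b _ _ h _ => ⟨fun c => C (h c), ?_, fun c => by simp⟩⟩
    refine Finset.sum_eq_zero fun c _ => ?_
    rw [hu c, mul_zero]
  have hsol1 := sol_sub T t B u s p hsol hp
  have hgal1 := isGal_sub hSolv T t B u s p hsol hind hp hgal
  obtain ⟨CG, hCG⟩ := hG
  have hG1 : IsG fun c : {c // c ∈ s} => u c.1 := by
    refine ⟨CG, fun n => ?_⟩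
    obtain ⟨q, hq, hqC, h1, h2⟩ := hCG n
    exact ⟨q, hq, hqC, fun i k hk => h1 i.1 k hk, fun i => h2 i.1⟩
  obtain ⟨CE, hCE⟩ := hEst {c // c ∈ s} (T * t) _ _ (mul_ne_zero hT ht) hgal1 hsol1 hG1 hind
  obtain ⟨Nt, hNt⟩ := EstM.eval_ne_zero (zq t) (zq_ne ht)
  refine ⟨CE + Nt + 2 * CG + 1, fun a b ha hab h hrel => ?_⟩
  have hC1 : 1 ≤ CE + Nt + 2 * CG + 1 := by omega
  have hb1 : ((1 : ℕ) : ℤ) * |a| ≤ b := mono_lin (C := CE + Nt + 2 * CG + 1) (by omega) hC1 ha hab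
  have hapos : (0 : ℤ) < |a| := abs_pos.2 ha
  have hb : 0 < b := by
    have : ((1 : ℕ) : ℤ) * |a| = |a| := by simp
    omega
  set ξ : ℚ := (a : ℚ) / b with hξ
  have hξ0 : ξ ≠ 0 := div_ne_zero (by exact_mod_cast ha) (by exact_mod_cast hb.ne')
  have hξc : ((ξ : ℚ) : ℂ) = (a : ℂ) / b := by rw [hξ]; push_cast; rfl
  have habs : |ξ| = |(a : ℚ)| / b := by
    rw [hξ, abs_div, abs_of_pos (show (0 : ℚ) < b by exact_mod_cast hb)]
  have ht0 : (zq t).eval ξ ≠ 0 := by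
    refine hNt ξ hξ0 ?_
    rw [habs, ← mul_div_assoc, div_le_one (by exact_mod_cast hb)]
    have := mono_lin (C0 := Nt) (C := CE + Nt + 2 * CG + 1) (by omega) hC1 ha hab
    exact_mod_cast this
  have hgrow : ∀ c n, |PowerSeries.coeff n (u c)| ≤ (CG : ℚ) ^ (n + 1) := by
    intro c n
    obtain ⟨_, _, _, _, h2⟩ := hCG n
    exact h2 c
  have hnorm : 2 * CG * ‖(ξ : ℂ)‖ ≤ 1 := by
    have h1 : ‖(ξ : ℂ)‖ = ((|ξ| : ℚ) : ℝ) := by
      have h2 : ((ξ : ℚ) : ℂ) = (((ξ : ℚ) : ℝ) : ℂ) := by push_cast; rfl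
      rw [h2, Complex.norm_real, Real.norm_eq_abs, Rat.cast_abs]
    have h3 : (2 * CG : ℚ) * |ξ| ≤ 1 := by
      rw [habs, ← mul_div_assoc, div_le_one (by exact_mod_cast hb)]
      have := mono_lin (C0 := 2 * CG) (C := CE + Nt + 2 * CG + 1) (by omega) hC1 ha hab
      exact_mod_cast this
    rw [h1]
    exact_mod_cast h3
  have hSm : ∀ c, EstM.Sm (u c) (ξ : ℂ) := fun c => hEval.1 (u c) CG _ (hgrow c) hnorm
  have hSp : ∀ f : ℚ[X], EstM.Sm (f : ℚ⟦X⟧) (ξ : ℂ) := fun f => (hEval.2.2.1 f _).1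
  have hmulv : ∀ (f : ℚ[X]) (c : μ), EstM.Sm ((f : ℚ⟦X⟧) * u c) (ξ : ℂ) ∧
      pval ((f : ℚ⟦X⟧) * u c) (ξ : ℂ) = ((f.eval ξ : ℚ) : ℂ) * pval (u c) (ξ : ℂ) := by
    intro f c
    obtain ⟨_, h2, h3⟩ := hEval.2.1 (f : ℚ⟦X⟧) (u c) _ (hSp f) (hSm c)
    refine ⟨h3, ?_⟩
    rw [h2, (hEval.2.2.1 f _).2, EstM.aeval_rat]
  have hval : ∀ c, (((zq t).eval ξ : ℚ) : ℂ) * pval (u c) (ξ : ℂ) =
      ∑ c' : {c // c ∈ s}, (((zq (p c c')).eval ξ : ℚ) : ℂ) * pval (u c'.1) (ξ : ℂ) := by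
    intro c
    rw [← (hmulv (zq t) c).2, hp c, EstM.pval_sum hEval]
    · exact Finset.sum_congr rfl fun c' _ => (hmulv _ _).2
    · exact fun c' _ => (hmulv _ _).1
  have hzero : ∀ c' : {c // c ∈ s}, ∑ c, h c * (zq (p c c')).eval ξ = 0 := by
    have h1 := hCE a b ha (mono_C (by omega) ha hab)
      (fun c' => ∑ c, h c * (zq (p c c')).eval ξ) (by
      rw [← hξc]
      have e1 : ∀ c' : {c // c ∈ s}, ((∑ c, h c * (zq (p c c')).eval ξ : ℚ) : ℂ) *
          pval (u c'.1) (ξ : ℂ) = ∑ c, (h c : ℂ) * ((((zq (p c c')).eval ξ : ℚ) : ℂ) *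
            pval (u c'.1) (ξ : ℂ)) := by
        intro c'
        rw [Rat.cast_sum, Finset.sum_mul]
        refine Finset.sum_congr rfl fun c _ => ?_
        push_cast
        ring
      simp only [e1]
      rw [Finset.sum_comm]
      have e2 : ∀ c, ∑ c' : {c // c ∈ s}, (h c : ℂ) * ((((zq (p c c')).eval ξ : ℚ) : ℂ) *
            pval (u c'.1) (ξ : ℂ)) = (((zq t).eval ξ : ℚ) : ℂ) * ((h c : ℂ) * pval (u c) (ξ : ℂ)) := by
        intro c
        rw [← Finset.mul_sum, ← hval c]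
        ring
      simp only [e2]
      rw [← Finset.mul_sum, hξc, hrel, mul_zero])
    intro c'
    exact congrFun h1 c'
  -- the relation
  refine ⟨fun c => C ((zq t).eval ξ)⁻¹ * (C (h c) * zq t -
    if hc : c ∈ s then ∑ d, C (h d) * zq (p d ⟨c, hc⟩) else 0), ?_, ?_⟩
  · have e1 : ∑ c, ((C ((zq t).eval ξ)⁻¹ * (C (h c) * zq t -
        if hc : c ∈ s then ∑ d, C (h d) * zq (p d ⟨c, hc⟩) else 0) : ℚ[X]) : ℚ⟦X⟧) * u c =
        ((C ((zq t).eval ξ)⁻¹ : ℚ[X]) : ℚ⟦X⟧) * (∑ c, ((C (h c) : ℚ[X]) : ℚ⟦X⟧) *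
          (((zq t : ℚ[X]) : ℚ⟦X⟧) * u c) -
          ∑ c, (((if hc : c ∈ s then ∑ d, C (h d) * zq (p d ⟨c, hc⟩) else 0 : ℚ[X])) : ℚ⟦X⟧) *
            u c) := by
      rw [← Finset.sum_sub_distrib, Finset.mul_sum]
      refine Finset.sum_congr rfl fun c _ => ?_
      rw [Polynomial.coe_mul, Polynomial.coe_sub, Polynomial.coe_mul]
      ring
    rw [e1]
    have e2 : ∑ c, (((if hc : c ∈ s then ∑ d, C (h d) * zq (p d ⟨c, hc⟩) else 0 : ℚ[X])) : ℚ⟦X⟧) *
            u c = ∑ c : {c // c ∈ s}, ((∑ d, C (h d) * zq (p d c) : ℚ[X]) : ℚ⟦X⟧) * u c.1 := by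
      have e3 : ∑ c : {c // c ∈ s}, ((∑ d, C (h d) * zq (p d c) : ℚ[X]) : ℚ⟦X⟧) * u c.1 =
          ∑ c : {c // c ∈ s}, (((if hc : c.1 ∈ s then ∑ d, C (h d) * zq (p d ⟨c.1, hc⟩)
            else 0 : ℚ[X])) : ℚ⟦X⟧) * u c.1 := by
        refine Finset.sum_congr rfl fun c _ => ?_
        rw [dif_pos c.2]
      rw [e3, Finset.sum_coe_sort s fun c => (((if hc : c ∈ s then ∑ d, C (h d) * zq (p d ⟨c, hc⟩)
            else 0 : ℚ[X])) : ℚ⟦X⟧) * u c]
      refine (Finset.sum_subset (Finset.subset_univ s) fun c _ hc => ?_).symm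
      rw [dif_neg hc, Polynomial.coe_zero, zero_mul]
    rw [e2]
    have e4 : ∀ c : {c // c ∈ s}, ((∑ d, C (h d) * zq (p d c) : ℚ[X]) : ℚ⟦X⟧) * u c.1 =
        ∑ d, ((C (h d) : ℚ[X]) : ℚ⟦X⟧) * (((zq (p d c) : ℚ[X]) : ℚ⟦X⟧) * u c.1) := by
      intro c
      have : ((∑ d, C (h d) * zq (p d c) : ℚ[X]) : ℚ⟦X⟧) =
          ∑ d, ((C (h d) : ℚ[X]) : ℚ⟦X⟧) * ((zq (p d c) : ℚ[X]) : ℚ⟦X⟧) := by
        rw [← Polynomial.coeToPowerSeries.ringHom_apply, map_sum]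
        simp only [map_mul, Polynomial.coeToPowerSeries.ringHom_apply]
      rw [this, Finset.sum_mul]
      exact Finset.sum_congr rfl fun d _ => by ring
    simp only [e4]
    rw [Finset.sum_comm]
    have e5 : ∑ d, ∑ c : {c // c ∈ s}, ((C (h d) : ℚ[X]) : ℚ⟦X⟧) *
        (((zq (p d c) : ℚ[X]) : ℚ⟦X⟧) * u c.1) =
        ∑ d, ((C (h d) : ℚ[X]) : ℚ⟦X⟧) * (((zq t : ℚ[X]) : ℚ⟦X⟧) * u d) := by
      refine Finset.sum_congr rfl fun d _ => ?_
      rw [← Finset.mul_sum, ← hp d]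
    rw [e5, sub_self, mul_zero]
  · intro c
    rw [eval_mul, eval_C, eval_sub, eval_mul, eval_C]
    have e6 : (if hc : c ∈ s then ∑ d, C (h d) * zq (p d ⟨c, hc⟩) else 0 : ℚ[X]).eval ξ = 0 := by
      split_ifs with hc
      · rw [eval_finsetSum, ← hzero ⟨c, hc⟩]
        refine Finset.sum_congr rfl fun d _ => ?_
        rw [eval_mul, eval_C]
      · exact eval_zero
    rw [e6, sub_zero]
    field_simp

end Pool.Agent.Lib.MPf11a48.CF
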