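import Pool.Agent.Lib.MP_f11a48_ag.CF.Spec
import Pool.Agent.Lib.MP_f11a48_ag.GF.Grp

/-!
# Module LIE: the Lie algebra consists of scalars or contains all infinitesimal isometries
-/

set_option autoImplicit false
set_option linter.unusedSectionVars false

namespace Pool.Agent.Lib.MPf11a48.CF.LieM

open Matrix MvPolynomial
open Pool.Agent.Lib.MPf11a48.Tors
open Pool.Agent.Lib.MPf11a48.CM hiding OmegaM
open Pool.Agent.Lib.MPf11a48.GL2T Pool.Agent.Lib.MPf11a48.GF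
open Pool.Agent.Lib.MPf11a48.GL2
open Pool.Agent.Lib.MPf11a48.K3 (cx)

variable {ι : Type} [Fintype ι] [DecidableEq ι]

/-- evaluation and ring homomorphisms -/
theorem eval_tw {V : Type} (σ : ℂ →+* ℂ) (p : MvPolynomial V ℂ) (x : V → ℂ) :
    eval (fun v => σ (x v)) (map σ p) = σ (eval x p) := by
  induction p using MvPolynomial.induction_on with
  | C a => rw [map_C, eval_C, eval_C]
  | add p q hp hq => rw [map_add, map_add, map_add, hp, hq, map_add]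
  | mul_X p v hp => rw [map_mul, map_mul, map_mul, hp, map_X, eval_X, eval_X, map_mul]

theorem tang_tw (σ : ℂ →+* ℂ) (p : MvPolynomial (ι × ι) ℂ) (x z : Matrix ι ι ℂ) :
    tang (map σ p) (x.map σ) (z.map σ) = σ (tang p x z) := by
  rw [tang, tang, map_sum]
  refine Finset.sum_congr rfl fun v _ => ?_
  rw [pderiv_map, map_mul, ← eval_tw]
  rfl

/-- `T` is stable under the automorphisms of `ℂ` which fix `K`, so is its Lie algebra -/
theorem lie_tw {K : IntermediateField ℚ ℂ} {T : Set (GL ι ℂ)} (hT : ClosedOver K T)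
    {τ : ℂ ≃+* ℂ} (hτ : FixesField K τ) {M : Matrix ι ι ℂ} (hM : M ∈ lie T) :
    M.map (τ : ℂ →+* ℂ) ∈ lie T := by
  intro f hf p hp
  set q : MvPolynomial (ι × ι) ℂ := map (τ.symm : ℂ →+* ℂ) p with hq
  have hpq : p = map (τ : ℂ →+* ℂ) q := by
    rw [hq, MvPolynomial.map_map]
    have : (τ : ℂ →+* ℂ).comp (τ.symm : ℂ →+* ℂ) = RingHom.id ℂ := by
      ext x
      exact τ.apply_symm_apply x
    rw [this, MvPolynomial.map_id]
  have hqT : q ∈ van T := by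
    intro g hg
    have h1 := hp _ (hT.tw_mem hτ hg)
    have h2 := eval_tw (τ.symm : ℂ →+* ℂ) p (en (tw τ g).1)
    rw [h1, map_zero] at h2
    have h3 : (fun v => (τ.symm : ℂ →+* ℂ) (en (tw τ g).1 v)) = en g.1 := by
      funext v
      exact τ.symm_apply_apply _
    rw [h3] at h2
    exact h2
  have h1 := hM _ (hT.tw_mem hτ.symm hf) q hqT
  have h2 := tang_tw (τ : ℂ →+* ℂ) q (tw τ.symm f).1 (M * (tw τ.symm f).1)
  rw [h1, map_zero, ← hpq, Matrix.map_mul] at h2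
  have h3 : (tw τ.symm f).1.map (τ : ℂ →+* ℂ) = f.1 := by
    have := tw_tw_symm τ f
    exact congrArg Units.val this
  rw [h3] at h2
  exact h2

theorem map_skew (σ : ℂ →+* ℂ) (ψ : Matrix ι ι ℚ) : (cx ψ).map σ = cx ψ := by
  refine Matrix.ext fun i j => ?_
  change σ ((ψ i j : ℚ) : ℂ) = ((ψ i j : ℚ) : ℂ)
  exact map_ratCast σ _

/-- the tensor of a matrix -/
noncomputable def wm (ψ : Matrix ι ι ℂ) : Matrix ι ι ℂ →ₗ[ℂ] ((Fin 2 → ι) → ℂ) where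
  toFun Y := fun J => (Y * ψ⁻¹) (J 0) (J 1)
  map_add' X Y := by
    funext J
    rw [Matrix.add_mul]
    rfl
  map_smul' t X := by
    funext J
    rw [Matrix.smul_mul]
    rfl

theorem wm_apply (ψ Y : Matrix ι ι ℂ) (J : Fin 2 → ι) : wm ψ Y J = (Y * ψ⁻¹) (J 0) (J 1) := rfl

theorem wm_inj (ψ : Matrix ι ι ℂ) (hd : ψ.det ≠ 0) {X Y : Matrix ι ι ℂ} (h : wm ψ X = wm ψ Y) :
    X = Y := by
  have h1 : X * ψ⁻¹ = Y * ψ⁻¹ := by
    refine Matrix.ext fun i j => ?_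
    have := congrFun h ![i, j]
    exact this
  have hu := isUnit_iff_ne_zero.2 hd
  calc X = X * ψ⁻¹ * ψ := by rw [Matrix.mul_assoc, Matrix.nonsing_inv_mul _ hu, Matrix.mul_one]
    _ = Y * ψ⁻¹ * ψ := by rw [h1]
    _ = Y := by rw [Matrix.mul_assoc, Matrix.nonsing_inv_mul _ hu, Matrix.mul_one]

/-- the action on a tensor of degree 2 -/
theorem ta_two (g N : Matrix ι ι ℂ) :
    ta g (fun J : Fin 2 → ι => N (J 0) (J 1)) = fun J => (g * N * gᵀ) (J 0) (J 1) := by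
  funext J
  change ∑ J' : Fin 2 → ι, (∏ k, g (J k) (J' k)) * N (J' 0) (J' 1) = _
  rw [Fintype.sum_equiv (finTwoArrowEquiv ι) _ (fun x : ι × ι =>
    g (J 0) x.1 * g (J 1) x.2 * N x.1 x.2) (fun J' => by
      rw [Fin.prod_univ_two]
      rfl), Fintype.sum_prod_type]
  simp only [Matrix.mul_apply, Matrix.transpose_apply, Finset.sum_mul]
  rw [Finset.sum_comm]
  exact Finset.sum_congr rfl fun a _ => Finset.sum_congr rfl fun b _ => by ring

theorem ta_wm (ψ : Matrix ι ι ℂ) (hd : ψ.det ≠ 0) (g : GL ι ℂ) (μ : ℂ)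
    (hg : g.1ᵀ * ψ * g.1 = μ • ψ) (Y : Matrix ι ι ℂ) :
    ta g.1 (wm ψ Y) = μ • wm ψ (g.1 * Y * g⁻¹.1) := by
  have hu := isUnit_iff_ne_zero.2 hd
  have h1 : ψ⁻¹ * g.1ᵀ = μ • (g⁻¹.1 * ψ⁻¹) := by
    have e1 : g.1ᵀ = μ • (ψ * g⁻¹.1 * ψ⁻¹) := by
      calc g.1ᵀ = g.1ᵀ * ψ * g.1 * g⁻¹.1 * ψ⁻¹ := by
            rw [Matrix.mul_assoc _ g.1, glinv, Matrix.mul_one, Matrix.mul_assoc,
              Matrix.mul_nonsing_inv _ hu, Matrix.mul_one]
        _ = _ := by rw [hg, Matrix.smul_mul, Matrix.smul_mul]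
    rw [e1, Matrix.mul_smul, ← Matrix.mul_assoc, ← Matrix.mul_assoc, Matrix.nonsing_inv_mul _ hu,
      Matrix.one_mul]
  have h2 : wm ψ Y = fun J : Fin 2 → ι => (Y * ψ⁻¹) (J 0) (J 1) := rfl
  rw [h2, ta_two]
  funext J
  rw [Pi.smul_apply, wm_apply]
  have h3 : g.1 * (Y * ψ⁻¹) * g.1ᵀ = μ • (g.1 * Y * g⁻¹.1 * ψ⁻¹) := by
    rw [Matrix.mul_assoc g.1, Matrix.mul_assoc Y, h1, Matrix.mul_smul, Matrix.mul_smul]
    simp only [Matrix.mul_assoc]
  rw [h3]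
  rfl

/-- elements of the group of a torsor of similitudes are similitudes -/
theorem grp_simil [Nonempty ι] {T : Set (GL ι ℂ)} {c : GL ι ℂ} (ψ : Matrix ι ι ℂ)
    (hψ : ψ.det ≠ 0)
    (hT : ∀ f ∈ T, ∃ z : ℂ, f.1ᵀ * ψ * f.1 = z • (c.1ᵀ * ψ * c.1)) {g : GL ι ℂ} (hg : g ∈ grp T) :
    ∃ μ : ℂ, μ ≠ 0 ∧ g.1ᵀ * ψ * g.1 = μ • ψ := by
  obtain ⟨a, ha, b, hb, rfl⟩ := hg
  obtain ⟨za, hza⟩ := hT a ha
  obtain ⟨zb, hzb⟩ := hT b hb
  have hdet : ∀ f : GL ι ℂ, f.1.det ≠ 0 := by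
    intro f h0
    have h3 := congrArg Matrix.det (glinv f)
    rw [det_mul, h0, zero_mul, det_one] at h3
    exact zero_ne_one h3
  have hne : ∀ (f : GL ι ℂ) (z : ℂ), f.1ᵀ * ψ * f.1 = z • (c.1ᵀ * ψ * c.1) → z ≠ 0 := by
    rintro f z hz rfl
    have h1 := congrArg Matrix.det hz
    rw [zero_smul, det_zero, det_mul, det_mul, det_transpose] at h1
    exact mul_ne_zero (mul_ne_zero (hdet f) hψ) (hdet f) h1
  have hb0 := hne b zb hzb
  have ha0 := hne a za hza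
  refine ⟨za / zb, div_ne_zero ha0 hb0, ?_⟩
  have h4 : b⁻¹.1ᵀ * b.1ᵀ = 1 := by
    rw [← Matrix.transpose_mul, glinv, Matrix.transpose_one]
  calc (a * b⁻¹).1ᵀ * ψ * (a * b⁻¹).1 = b⁻¹.1ᵀ * (a.1ᵀ * ψ * a.1) * b⁻¹.1 := by
        rw [glmul, Matrix.transpose_mul]
        simp only [Matrix.mul_assoc]
    _ = b⁻¹.1ᵀ * ((za / zb) • (b.1ᵀ * ψ * b.1)) * b⁻¹.1 := by
        rw [hza, hzb, smul_smul, div_mul_cancel₀ _ hb0]
    _ = (za / zb) • ((b⁻¹.1ᵀ * b.1ᵀ) * ψ * (b.1 * b⁻¹.1)) := by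
        rw [Matrix.mul_smul, Matrix.smul_mul]
        simp only [Matrix.mul_assoc]
    _ = (za / zb) • ψ := by rw [h4, glinv, Matrix.one_mul, Matrix.mul_one]

/-- conjugation by similitudes preserves the infinitesimal isometries -/
theorem sp_conj (ψ : Matrix ι ι ℂ) (g : GL ι ℂ) (μ : ℂ) (hg : g.1ᵀ * ψ * g.1 = μ • ψ)
    {Y : Matrix ι ι ℂ} (hY : Yᵀ * ψ + ψ * Y = 0) :
    (g.1 * Y * g⁻¹.1)ᵀ * ψ + ψ * (g.1 * Y * g⁻¹.1) = 0 := by
  have h4 : g⁻¹.1ᵀ * g.1ᵀ = 1 := by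
    rw [← Matrix.transpose_mul, glinv, Matrix.transpose_one]
  have h1 : g.1ᵀ * ψ = μ • (ψ * g⁻¹.1) := by
    calc g.1ᵀ * ψ = g.1ᵀ * ψ * g.1 * g⁻¹.1 := by
          rw [Matrix.mul_assoc _ g.1, glinv, Matrix.mul_one]
      _ = _ := by rw [hg, Matrix.smul_mul]
  have h2 : ψ * g.1 = μ • (g⁻¹.1ᵀ * ψ) := by
    calc ψ * g.1 = g⁻¹.1ᵀ * g.1ᵀ * ψ * g.1 := by rw [h4, Matrix.one_mul]
      _ = g⁻¹.1ᵀ * (g.1ᵀ * ψ * g.1) := by simp only [Matrix.mul_assoc]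
      _ = _ := by rw [hg, Matrix.mul_smul]
  calc (g.1 * Y * g⁻¹.1)ᵀ * ψ + ψ * (g.1 * Y * g⁻¹.1)
      = g⁻¹.1ᵀ * Yᵀ * (g.1ᵀ * ψ) + (ψ * g.1) * Y * g⁻¹.1 := by
        rw [Matrix.transpose_mul, Matrix.transpose_mul]
        simp only [Matrix.mul_assoc]
    _ = μ • (g⁻¹.1ᵀ * (Yᵀ * ψ + ψ * Y) * g⁻¹.1) := by
        rw [h1, h2, Matrix.mul_add, Matrix.add_mul, smul_add, Matrix.mul_smul, Matrix.smul_mul,
          Matrix.smul_mul]
        simp only [Matrix.mul_assoc]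
    _ = 0 := by rw [hY, Matrix.mul_zero, Matrix.zero_mul, smul_zero]

/-- `spl T ψ` as a submodule -/
noncomputable def hsub (T : Set (GL ι ℂ)) (ψ : Matrix ι ι ℚ) : Submodule ℂ (Matrix ι ι ℂ) where
  carrier := spl T ψ
  add_mem' := by
    rintro X Y ⟨hX, s, hs⟩ ⟨hY, t, ht⟩
    refine ⟨?_, s + t, ?_⟩
    · rw [Matrix.transpose_add, Matrix.add_mul, Matrix.mul_add]
      have : Xᵀ * cx ψ + Yᵀ * cx ψ + (cx ψ * X + cx ψ * Y) =
          (Xᵀ * cx ψ + cx ψ * X) + (Yᵀ * cx ψ + cx ψ * Y) := by abel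
      rw [this, hX, hY, add_zero]
    · have := (lie T).add_mem hs ht
      have e : X + Y + (s + t) • (1 : Matrix ι ι ℂ) = X + s • 1 + (Y + t • 1) := by
        rw [add_smul]
        abel
      rw [e]
      exact this
  zero_mem' := by
    refine ⟨by rw [Matrix.transpose_zero, Matrix.zero_mul, Matrix.mul_zero, add_zero], 0, ?_⟩
    rw [zero_smul, add_zero]
    exact (lie T).zero_mem
  smul_mem' := by
    rintro t X ⟨hX, s, hs⟩
    refine ⟨?_, t * s, ?_⟩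
    · rw [Matrix.transpose_smul, Matrix.smul_mul, Matrix.mul_smul, ← smul_add, hX, smul_zero]
    · have := (lie T).smul_mem t hs
      rw [smul_add, smul_smul] at this
      exact this

theorem mem_hsub {T : Set (GL ι ℂ)} {ψ : Matrix ι ι ℚ} {X : Matrix ι ι ℂ} :
    X ∈ hsub T ψ ↔ X ∈ spl T ψ := Iff.rfl

theorem det_cx {ψ : Matrix ι ι ℚ} (h : ψ.det ≠ 0) : (cx ψ).det ≠ 0 := by
  rw [cx_det]
  exact_mod_cast h

end Pool.Agent.Lib.MPf11a48.CF.LieM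

namespace Pool.Agent.Lib.MPf11a48.CF

open Matrix MvPolynomial
open Pool.Agent.Lib.MPf11a48.Tors
open Pool.Agent.Lib.MPf11a48.CM hiding OmegaM
open Pool.Agent.Lib.MPf11a48.GL2T Pool.Agent.Lib.MPf11a48.GF
open Pool.Agent.Lib.MPf11a48.GL2
open Pool.Agent.Lib.MPf11a48.K3 (cx)

open LieM in
theorem specLie (hAd : SpecAd) : SpecLie := by
  intro ι _ _ ψ K T c hskew hdet hK hT hc hsim hst
  rcases isEmpty_or_nonempty ι with hι | hι
  · refine Or.inr fun X _ => ⟨0, Matrix.ext fun i => (hι.false i).elim⟩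
  have hψd := det_cx hdet
  have hψ := cx_skew hskew
  have hG : Geo T := geo_of_torsor ⟨closedOver_mono hK hT.closed, hT.nonempty, hT.heap⟩
  set h := hsub T ψ with hh
  have hgrp : ∀ g ∈ grp T, ∀ w ∈ h.map (wm (cx ψ)), ta g.1 w ∈ h.map (wm (cx ψ)) := by
    rintro g hg _ ⟨Y, ⟨hY, s, hs⟩, rfl⟩
    obtain ⟨μ, _, hμ⟩ := grp_simil (cx ψ) hψd hsim hg
    rw [ta_wm (cx ψ) hψd g μ hμ]
    refine Submodule.smul_mem _ _ ⟨_, ⟨sp_conj (cx ψ) g μ hμ hY, s, ?_⟩, rfl⟩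
    have h1 := SubM.ad_mem hG hg hs
    have e : g.1 * (Y + s • (1 : Matrix ι ι ℂ)) * g⁻¹.1 =
        g.1 * Y * g⁻¹.1 + s • (1 : Matrix ι ι ℂ) := by
      rw [Matrix.mul_add, Matrix.add_mul, Matrix.mul_smul, Matrix.smul_mul, Matrix.mul_one, glinv]
    rw [e] at h1
    exact h1
  have htau : ∀ τ : ℂ ≃+* ℂ, FixesField K τ → ∀ w ∈ h.map (wm (cx ψ)),
      (fun J => τ (w J)) ∈ h.map (wm (cx ψ)) := by
    rintro τ hτ _ ⟨Y, ⟨hY, s, hs⟩, rfl⟩
    refine ⟨Y.map (τ : ℂ →+* ℂ), ⟨?_, τ s, ?_⟩, ?_⟩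
    · have h1 := congrArg (fun M : Matrix ι ι ℂ => M.map (τ : ℂ →+* ℂ)) hY
      simp only [Matrix.map_add _ (map_add _), Matrix.map_mul, map_skew] at h1
      rw [← Matrix.transpose_map]
      refine h1.trans (Matrix.ext fun i j => ?_)
      exact map_zero (τ : ℂ →+* ℂ)
    · have h1 := lie_tw hT.closed hτ hs
      have e : (Y + s • (1 : Matrix ι ι ℂ)).map (τ : ℂ →+* ℂ) =
          Y.map (τ : ℂ →+* ℂ) + τ s • (1 : Matrix ι ι ℂ) := by
        refine Matrix.ext fun i j => ?_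
        change τ (Y i j + s * (1 : Matrix ι ι ℂ) i j) = τ (Y i j) + τ s * (1 : Matrix ι ι ℂ) i j
        rw [map_add, map_mul]
        congr 2
        rw [Matrix.one_apply]
        split_ifs
        · exact map_one _
        · exact map_zero _
      rw [e] at h1
      exact h1
    · have hu := isUnit_iff_ne_zero.2 hψd
      have h1 : (Y * (cx ψ)⁻¹).map (τ : ℂ →+* ℂ) = Y.map (τ : ℂ →+* ℂ) * (cx ψ)⁻¹ := by
        have e1 : (Y * (cx ψ)⁻¹ * cx ψ).map (τ : ℂ →+* ℂ) = Y.map (τ : ℂ →+* ℂ) := by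
          rw [Matrix.mul_assoc, Matrix.nonsing_inv_mul _ hu, Matrix.mul_one]
        rw [Matrix.map_mul, map_skew] at e1
        rw [← e1, Matrix.mul_assoc, Matrix.mul_nonsing_inv _ hu, Matrix.mul_one]
      funext J
      have h2 := congrFun (congrFun h1 (J 0)) (J 1)
      rw [wm_apply, ← h2]
      rfl
  have hstab : ∀ g ∈ spG (cx ψ), ∀ X ∈ h, g.1 * X * g⁻¹.1 ∈ h := by
    intro g hg X hX
    have hg' : g.1ᵀ * cx ψ * g.1 = (1 : ℂ) • cx ψ := by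
      rw [one_smul]
      exact hg
    have h1 := hst _ hgrp htau g hg _ ⟨X, hX, rfl⟩
    rw [ta_wm (cx ψ) hψd g 1 hg', one_smul] at h1
    obtain ⟨Y, hY, hYX⟩ := h1
    rw [← wm_inj (cx ψ) hψd hYX]
    exact hY
  rcases hAd ι (cx ψ) hψ hψd h (fun X hX => hX.1) hstab with h0 | h1
  · right
    intro X hX
    obtain ⟨m, hm⟩ := SubM.simil hc (cx ψ) hψd hsim hX
    refine ⟨m / 2, ?_⟩
    have h2 : X - (m / 2) • (1 : Matrix ι ι ℂ) ∈ h := by
      refine ⟨?_, m / 2, ?_⟩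
      · rw [Matrix.transpose_sub, Matrix.transpose_smul, Matrix.transpose_one, Matrix.sub_mul,
          Matrix.mul_sub, Matrix.smul_mul, Matrix.mul_smul, Matrix.one_mul, Matrix.mul_one]
        have : Xᵀ * cx ψ - (m / 2) • cx ψ + (cx ψ * X - (m / 2) • cx ψ) =
            (Xᵀ * cx ψ + cx ψ * X) - ((m / 2) • cx ψ + (m / 2) • cx ψ) := by abel
        rw [this, hm, ← add_smul, add_halves, sub_self]
      · rw [sub_add_cancel]
        exact hX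
    rw [h0, Submodule.mem_bot] at h2
    exact sub_eq_zero.1 h2
  · left
    exact fun Y hY => h1 Y hY

end Pool.Agent.Lib.MPf11a48.CF
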