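import Pool.Agent.Lib.MP_f11a48_ag.CF.Spec

/-!
# CORE: commutators of block diagonal isometries act trivially
-/

set_option autoImplicit false

namespace Pool.Agent.Lib.MPf11a48.CF

open Matrix

namespace CorM

variable {ι κ : Type} [Fintype ι] [Fintype κ] [DecidableEq κ]

theorem ta_apply {R : Type} [CommRing R] (g : Matrix ι ι R) (w : (κ → ι) → R) (J : κ → ι) :
    ta g w J = ∑ J', (∏ k, g (J k) (J' k)) * w J' := rfl

theorem ta_mul {R : Type} [CommRing R] (A B : Matrix ι ι R) (w : (κ → ι) → R) :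
    ta (A * B) w = ta A (ta B w) := by
  classical
  funext J
  rw [ta_apply, ta_apply]
  simp only [ta_apply, Finset.mul_sum]
  rw [Finset.sum_comm]
  refine Finset.sum_congr rfl fun J'' _ => ?_
  have h1 : ∏ k, (A * B) (J k) (J'' k) = ∑ J' : κ → ι, ∏ k, A (J k) (J' k) * B (J' k) (J'' k) := by
    simp only [Matrix.mul_apply]
    rw [Finset.prod_univ_sum, Fintype.piFinset_univ]
  rw [h1, Finset.sum_mul]
  refine Finset.sum_congr rfl fun J' _ => ?_
  rw [Finset.prod_mul_distrib]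
  ring

theorem ta_one [DecidableEq ι] {R : Type} [CommRing R] (w : (κ → ι) → R) :
    ta (1 : Matrix ι ι R) w = w := by
  classical
  funext J
  rw [ta_apply, Finset.sum_eq_single J]
  · simp
  · intro J' _ hJ
    have : ∃ k, J k ≠ J' k := by
      by_contra hcon
      push Not at hcon
      exact hJ (funext hcon).symm
    obtain ⟨k, hk⟩ := this
    have h0 : (1 : Matrix ι ι R) (J k) (J' k) = 0 := Matrix.one_apply_ne hk
    have h1 : ∏ k, (1 : Matrix ι ι R) (J k) (J' k) = 0 :=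
      Finset.prod_eq_zero (Finset.mem_univ k) h0
    rw [h1, zero_mul]
  · intro h
    exact absurd (Finset.mem_univ J) h

end CorM

open Pool.Agent.Lib.MPf11a48.CF.CorM in
theorem specCore : SpecCore := by
  classical
  intro ι κ _ _ _ _ K y Q ψ s α hrel hQ hs hb l₁ hl₁ l₂ hl₂ hd₁ hd₂ g hg
  set β : (κ → ι) → ℂ := fun I => (α I : ℂ) with hβ
  -- the polynomials
  let F : (κ → ι) → MvPolynomial (ι × ι) K := fun J =>
    ∑ J' : κ → ι, MvPolynomial.C (α J') *
      ∏ k, ∑ m, MvPolynomial.C (⟨Q.1 (J k) m, hQ _ _⟩ : K) * MvPolynomial.X (m, J' k)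
  have hFhom : ∀ J, (F J).IsHomogeneous (Fintype.card κ) := by
    intro J
    refine MvPolynomial.IsHomogeneous.sum _ _ _ fun J' _ => ?_
    have h1 : (∏ k, ∑ m, MvPolynomial.C (⟨Q.1 (J k) m, hQ _ _⟩ : K) *
        MvPolynomial.X (m, J' k) : MvPolynomial (ι × ι) K).IsHomogeneous
          (∑ _k : κ, 1) := by
      refine MvPolynomial.IsHomogeneous.prod _ _ _ fun k _ => ?_
      refine MvPolynomial.IsHomogeneous.sum _ _ _ fun m _ => ?_
      have h2 := (MvPolynomial.isHomogeneous_C (ι × ι) (⟨Q.1 (J k) m, hQ _ _⟩ : K)).mul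
        (MvPolynomial.isHomogeneous_X K (m, J' k))
      rwa [zero_add] at h2
    have h3 := (MvPolynomial.isHomogeneous_C (ι × ι) (α J')).mul h1
    rw [zero_add] at h3
    simpa using h3
  have hFeval : ∀ (J : κ → ι) (x : Matrix ι ι ℂ),
      MvPolynomial.aeval (fun p : ι × ι => x p.1 p.2) (F J) = ta (Q.1 * x) β J := by
    intro J x
    simp only [F, map_sum, map_mul, map_prod, MvPolynomial.aeval_C, MvPolynomial.aeval_X, ta_apply,
      Matrix.mul_apply, hβ]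
    refine Finset.sum_congr rfl fun J' _ => ?_
    rw [mul_comm]
    rfl
  set z : GL ι ℂ → (κ → ι) → ℂ := fun h => ta (Q.1 * (h.1 * y.1)) β with hz
  set b : (κ → ι) → ℂ := ta (Q.1 * y.1) β with hbdef
  have hA : ∀ J, b J = 0 → ∀ h ∈ spG ψ, z h J = 0 := by
    intro J hJ h hh
    have h1 := hrel (F J) (hFhom J) (by rw [hFeval]; exact hJ) h hh
    rw [hFeval] at h1
    exact h1
  have hB : ∀ J J', (∀ k, s (J k) / s (J' k) ∈ K) → b J' ≠ 0 → ∀ h ∈ spG ψ,
      z h J = b J / b J' * z h J' := by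
    intro J J' hJJ hJ' h hh
    have hρ : b J / b J' ∈ K := hb J J' hJJ hJ'
    have h1 := hrel (F J - MvPolynomial.C (⟨b J / b J', hρ⟩ : K) * F J')
      (by
        refine (hFhom J).sub ?_
        have h2 := (MvPolynomial.isHomogeneous_C (ι × ι) (⟨b J / b J', hρ⟩ : K)).mul (hFhom J')
        rwa [zero_add] at h2)
      (by
        rw [map_sub, map_mul, MvPolynomial.aeval_C, hFeval, hFeval]
        change b J - b J / b J' * b J' = 0
        rw [div_mul_cancel₀ _ hJ', sub_self]) h hh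
    rw [map_sub, map_mul, MvPolynomial.aeval_C, hFeval, hFeval] at h1
    exact sub_eq_zero.mp h1
  -- the equivalence relation
  have hsymm : ∀ J J' : κ → ι, (∀ k, s (J k) / s (J' k) ∈ K) → ∀ k, s (J' k) / s (J k) ∈ K := by
    intro J J' h k
    rw [← inv_div]
    exact K.inv_mem (h k)
  have htrans : ∀ J J' J'' : κ → ι, (∀ k, s (J k) / s (J' k) ∈ K) →
      (∀ k, s (J' k) / s (J'' k) ∈ K) → ∀ k, s (J k) / s (J'' k) ∈ K := by
    intro J J' J'' h h' k
    have h1 := K.mul_mem (h k) (h' k)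
    have h2 := hs (J' k)
    rwa [div_mul_div_cancel₀ h2] at h1
  have hrefl : ∀ J : κ → ι, ∀ k, s (J k) / s (J k) ∈ K := by
    intro J k
    rw [div_self (hs _)]
    exact K.one_mem
  -- the factor
  have hφ : ∀ h ∈ spG ψ, ∀ J : κ → ι, ∃ c : ℂ, ∀ J', (∀ k, s (J k) / s (J' k) ∈ K) →
      z h J' = c * b J' := by
    intro h hh J
    by_cases hex : ∃ J₀, (∀ k, s (J k) / s (J₀ k) ∈ K) ∧ b J₀ ≠ 0
    · obtain ⟨J₀, h1, h2⟩ := hex
      refine ⟨z h J₀ / b J₀, ?_⟩
      intro J' hJ'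
      by_cases h3 : b J' = 0
      · rw [hA J' h3 h hh, h3, mul_zero]
      · rw [hB J' J₀ (htrans J' J J₀ (hsymm J J' hJ') h1) h2 h hh]
        ring
    · push Not at hex
      refine ⟨0, ?_⟩
      intro J' hJ'
      rw [hA J' (hex J' hJ') h hh, zero_mul]
  -- block diagonal isometries
  have hl : ∀ l ∈ spG ψ, (∀ i j, (Q * l * Q⁻¹).1 i j ≠ 0 → s i / s j ∈ K) → ∀ J : κ → ι,
      ∃ c : ℂ, ∀ h ∈ spG ψ, z (l * h) J = c * z h J := by
    intro l hlψ hld J
    have hzl : ∀ h : GL ι ℂ, z (l * h) = ta (Q * l * Q⁻¹).1 (z h) := by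
      intro h
      rw [hz]
      simp only
      rw [← ta_mul]
      have hQi : (Q⁻¹).1 * Q.1 = 1 := Q.inv_mul
      have heq : Q.1 * ((l.1 * h.1) * y.1) = (Q.1 * l.1 * (Q⁻¹).1) * (Q.1 * (h.1 * y.1)) := by
        have h5 : (Q.1 * l.1 * (Q⁻¹).1) * (Q.1 * (h.1 * y.1)) =
            Q.1 * l.1 * (((Q⁻¹).1 * Q.1) * (h.1 * y.1)) := by
          simp only [Matrix.mul_assoc]
        rw [h5, hQi, Matrix.one_mul]
        simp only [Matrix.mul_assoc]
      exact congrArg (fun X => ta X β) heq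
    have hzb : z l = ta (Q * l * Q⁻¹).1 b := by
      have h1 := hzl 1
      rw [mul_one] at h1
      rw [h1]
      congr 1
      rw [hz, hbdef]
      simp only [Units.val_one, Matrix.one_mul]
    obtain ⟨c, hc⟩ := hφ l hlψ J
    refine ⟨c, ?_⟩
    intro h hh
    obtain ⟨e, he⟩ := hφ h hh J
    have h1 : z (l * h) J = e * z l J := by
      rw [hzl h, hzb, ta_apply, ta_apply, Finset.mul_sum]
      refine Finset.sum_congr rfl fun J' _ => ?_
      by_cases h2 : ∀ k, s (J k) / s (J' k) ∈ K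
      · rw [he J' h2]
        ring
      · push Not at h2
        obtain ⟨k, hk⟩ := h2
        have h3 : (Q * l * Q⁻¹).1 (J k) (J' k) = 0 := by
          by_contra h4
          exact hk (hld _ _ h4)
        rw [Finset.prod_eq_zero (Finset.mem_univ k) h3, zero_mul, zero_mul, mul_zero]
    rw [h1, hc J (hrefl J), he J (hrefl J)]
    ring
  -- commutation
  have hcomm : ∀ h ∈ spG ψ, z (l₁ * (l₂ * h)) = z (l₂ * (l₁ * h)) := by
    intro h hh
    funext J
    obtain ⟨c₁, hc₁⟩ := hl l₁ hl₁ hd₁ J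
    obtain ⟨c₂, hc₂⟩ := hl l₂ hl₂ hd₂ J
    rw [hc₁ _ ((spG ψ).mul_mem hl₂ hh), hc₂ _ hh, hc₂ _ ((spG ψ).mul_mem hl₁ hh), hc₁ _ hh]
    ring
  have h1 := hcomm (l₁⁻¹ * (l₂⁻¹ * g)) ((spG ψ).mul_mem ((spG ψ).inv_mem hl₁)
    ((spG ψ).mul_mem ((spG ψ).inv_mem hl₂) hg))
  have h2 : l₂ * (l₁ * (l₁⁻¹ * (l₂⁻¹ * g))) = g := by group
  have h3 : l₁ * (l₂ * (l₁⁻¹ * (l₂⁻¹ * g))) = l₁ * l₂ * l₁⁻¹ * l₂⁻¹ * g := by group
  rw [h2, h3] at h1
  -- cancel `Q`
  have h4 : ∀ h : GL ι ℂ, ta (h * y).1 β = ta (Q⁻¹).1 (z h) := by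
    intro h
    rw [hz]
    simp only
    rw [← ta_mul]
    have hQi : (Q⁻¹).1 * Q.1 = 1 := Q.inv_mul
    have heq : h.1 * y.1 = (Q⁻¹).1 * (Q.1 * (h.1 * y.1)) := by
      rw [← Matrix.mul_assoc, hQi, Matrix.one_mul]
    exact congrArg (fun X => ta X β) heq
  rw [h4, h4, h1]

end Pool.Agent.Lib.MPf11a48.CF
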