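import Pool.Agent.Lib.MP_f11a48_ag.CF.Spec

/-!
# Module END: subspaces of `End V` and invariant tensors of degree four (Maschke)
-/

set_option autoImplicit false

namespace Pool.Agent.Lib.MPf11a48.CF

open Matrix
open scoped Kronecker

namespace EndM

variable {ι : Type} [Fintype ι] [DecidableEq ι]

/-- the action on matrices, written on vectors -/
def kr (g : Matrix ι ι ℂ) : Matrix (ι × ι) (ι × ι) ℂ := g ⊗ₖ g

omit [DecidableEq ι] in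
theorem kr_mul (a b : Matrix ι ι ℂ) : kr (a * b) = kr a * kr b :=
  Matrix.mul_kronecker_mul a b a b

omit [Fintype ι] in
theorem kr_one : kr (1 : Matrix ι ι ℂ) = 1 := Matrix.one_kronecker_one

omit [DecidableEq ι] [Fintype ι] in
theorem kr_transpose (a : Matrix ι ι ℂ) : (kr a)ᵀ = kr aᵀ :=
  (Matrix.kroneckerMap_transpose _ _ _).symm

omit [DecidableEq ι] in
theorem kr_vec (g X : Matrix ι ι ℂ) : kr g *ᵥ vec X = vec (g * X * gᵀ) :=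
  Matrix.kronecker_mulVec_vec g X g

/-- tensors of degree four as matrices -/
def tm (w : (Fin 4 → ι) → ℂ) : Matrix (ι × ι) (ι × ι) ℂ :=
  Matrix.of fun p q => w ![p.1, p.2, q.1, q.2]

/-- matrices as tensors of degree four -/
def mt (W : Matrix (ι × ι) (ι × ι) ℂ) : (Fin 4 → ι) → ℂ := fun J => W (J 0, J 1) (J 2, J 3)

/-- the index sets -/
def eqv : (Fin 4 → ι) ≃ (ι × ι) × (ι × ι) where
  toFun J := ((J 0, J 1), (J 2, J 3))
  invFun p := ![p.1.1, p.1.2, p.2.1, p.2.2]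
  left_inv J := by
    funext k
    fin_cases k <;> rfl
  right_inv p := rfl

omit [DecidableEq ι] in
theorem ta_mt (g : Matrix ι ι ℂ) (W : Matrix (ι × ι) (ι × ι) ℂ) :
    ta g (mt W) = mt (kr g * W * (kr g)ᵀ) := by
  funext J
  change ∑ J', (∏ k, g (J k) (J' k)) * mt W J' = (kr g * W * (kr g)ᵀ) (J 0, J 1) (J 2, J 3)
  rw [Matrix.mul_apply, ← Equiv.sum_comp (eqv (ι := ι)).symm, Fintype.sum_prod_type_right]
  refine Finset.sum_congr rfl fun q _ => ?_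
  rw [Matrix.mul_apply, Finset.sum_mul]
  refine Finset.sum_congr rfl fun p _ => ?_
  rw [Fin.prod_univ_four]
  change g (J 0) p.1 * g (J 1) p.2 * g (J 2) q.1 * g (J 3) q.2 * W p q =
    (g (J 0) p.1 * g (J 1) p.2) * W p q * (g (J 2) q.1 * g (J 3) q.2)
  ring

omit [Fintype ι] [DecidableEq ι] in
theorem mt_inj {W W' : Matrix (ι × ι) (ι × ι) ℂ} (h : mt W = mt W') : W = W' := by
  ext p q
  exact congrFun h ![p.1, p.2, q.1, q.2]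

/-- projection onto a stable subspace which commutes with a finite group -/
theorem maschke (G : Subgroup (GL ι ℂ)) (hG : (G : Set (GL ι ℂ)).Finite)
    (A : Submodule ℂ (ι × ι → ℂ)) (hA : ∀ g ∈ G, ∀ x ∈ A, kr g.1 *ᵥ x ∈ A) :
    ∃ Q : Matrix (ι × ι) (ι × ι) ℂ, (∀ x, Q *ᵥ x ∈ A) ∧ (∀ x ∈ A, Q *ᵥ x = x) ∧
      ∀ g ∈ G, kr g.1 * Q = Q * kr g.1 := by
  classical
  have : Fintype G := hG.fintype
  obtain ⟨f, hf⟩ := A.subtype.exists_leftInverse_of_injective (Submodule.ker_subtype A)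
  set P : Matrix (ι × ι) (ι × ι) ℂ := LinearMap.toMatrix' (A.subtype ∘ₗ f) with hP
  have hP1 : ∀ x, P *ᵥ x ∈ A := by
    intro x
    rw [hP, LinearMap.toMatrix'_mulVec]
    exact (f x).2
  have hP2 : ∀ x ∈ A, P *ᵥ x = x := by
    intro x hx
    rw [hP, LinearMap.toMatrix'_mulVec]
    have := LinearMap.congr_fun hf ⟨x, hx⟩
    exact congrArg Subtype.val this
  have hcard : (Fintype.card G : ℂ) ≠ 0 := Nat.cast_ne_zero.2 Fintype.card_ne_zero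
  refine ⟨(Fintype.card G : ℂ)⁻¹ • ∑ g : G, kr g.1.1 * P * kr g.1⁻¹.1, ?_, ?_, ?_⟩
  · intro x
    rw [Matrix.smul_mulVec, Matrix.sum_mulVec]
    refine A.smul_mem _ (A.sum_mem fun g _ => ?_)
    rw [Matrix.mul_assoc, ← Matrix.mulVec_mulVec, ← Matrix.mulVec_mulVec]
    exact hA _ g.2 _ (hP1 _)
  · intro x hx
    rw [Matrix.smul_mulVec, Matrix.sum_mulVec]
    have h1 : ∀ g ∈ (Finset.univ : Finset G), (kr g.1.1 * P * kr g.1⁻¹.1) *ᵥ x = x := by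
      intro g _
      rw [Matrix.mul_assoc, ← Matrix.mulVec_mulVec, ← Matrix.mulVec_mulVec,
        hP2 _ (hA _ (G.inv_mem g.2) x hx), Matrix.mulVec_mulVec, ← kr_mul]
      have h2 : g.1.1 * g.1⁻¹.1 = 1 := g.1.mul_inv
      rw [h2, kr_one, Matrix.one_mulVec]
    rw [Finset.sum_congr rfl h1, Finset.sum_const, Finset.card_univ, ← Nat.cast_smul_eq_nsmul ℂ,
      smul_smul, inv_mul_cancel₀ hcard, one_smul]
  · intro h hh
    rw [Matrix.mul_smul, Matrix.smul_mul, Finset.mul_sum, Finset.sum_mul]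
    congr 1
    rw [← Equiv.sum_comp (Equiv.mulLeft (⟨h, hh⟩ : G)) fun g : G =>
      kr g.1.1 * P * kr g.1⁻¹.1 * kr h.1]
    refine Finset.sum_congr rfl fun g _ => ?_
    have h1 : ((Equiv.mulLeft (⟨h, hh⟩ : G)) g).1 = h * g.1 := rfl
    have h2 : (h * g.1).1 = h.1 * g.1.1 := rfl
    have h3 : (h * g.1)⁻¹.1 = g.1⁻¹.1 * h⁻¹.1 := by rw [_root_.mul_inv_rev]; rfl
    have h4 : h⁻¹.1 * h.1 = 1 := h.inv_mul
    rw [h1, h2, h3, kr_mul, kr_mul]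
    calc kr h.1 * (kr g.1.1 * P * kr g.1⁻¹.1) = kr h.1 * kr g.1.1 * P * kr g.1⁻¹.1 := by
          simp only [Matrix.mul_assoc]
      _ = kr h.1 * kr g.1.1 * P * (kr g.1⁻¹.1 * (kr (h⁻¹.1 * h.1))) := by
          rw [h4, kr_one, Matrix.mul_one]
      _ = _ := by rw [kr_mul]; simp only [Matrix.mul_assoc]

end EndM

open EndM in
theorem specEnd : SpecEnd := by
  intro ι _ _ ψ hψ hd G hfin hG hw A hA g hg X hX
  have hu := isUnit_iff_ne_zero.2 hd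
  -- conjugation by isometries
  have hconj : ∀ g ∈ spG ψ, ∀ X : Matrix ι ι ℂ,
      vec (g.1 * X * g⁻¹.1 * ψ⁻¹) = kr g.1 *ᵥ vec (X * ψ⁻¹) := by
    intro g hg X
    have h1 : g.1ᵀ * ψ * g.1 = ψ := hg
    have h3 : g.1 * g⁻¹.1 = 1 := g.mul_inv
    have h2 : g⁻¹.1 * ψ⁻¹ = ψ⁻¹ * g.1ᵀ := by
      have h4 : ψ * g⁻¹.1 = g.1ᵀ * ψ := by
        calc ψ * g⁻¹.1 = g.1ᵀ * ψ * g.1 * g⁻¹.1 := by rw [h1]
          _ = g.1ᵀ * ψ * (g.1 * g⁻¹.1) := by rw [Matrix.mul_assoc]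
          _ = _ := by rw [h3, Matrix.mul_one]
      calc g⁻¹.1 * ψ⁻¹ = ψ⁻¹ * ψ * g⁻¹.1 * ψ⁻¹ := by
            rw [Matrix.nonsing_inv_mul _ hu, Matrix.one_mul]
        _ = ψ⁻¹ * (ψ * g⁻¹.1) * ψ⁻¹ := by simp only [Matrix.mul_assoc]
        _ = ψ⁻¹ * g.1ᵀ * (ψ * ψ⁻¹) := by rw [h4]; simp only [Matrix.mul_assoc]
        _ = _ := by rw [Matrix.mul_nonsing_inv _ hu, Matrix.mul_one]
    rw [kr_vec]
    congr 1
    rw [Matrix.mul_assoc, h2]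
    simp only [Matrix.mul_assoc]
  -- the subspace, written on vectors
  set A' : Submodule ℂ (ι × ι → ℂ) :=
    { carrier := {x | ∃ X ∈ A, vec (X * ψ⁻¹) = x}
      add_mem' := by
        rintro _ _ ⟨X, hX, rfl⟩ ⟨Y, hY, rfl⟩
        exact ⟨X + Y, A.add_mem hX hY, by rw [Matrix.add_mul, Matrix.vec_add]⟩
      zero_mem' := ⟨0, A.zero_mem, by rw [Matrix.zero_mul, Matrix.vec_zero]⟩
      smul_mem' := by
        rintro t _ ⟨X, hX, rfl⟩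
        exact ⟨t • X, A.smul_mem t hX, by rw [Matrix.smul_mul, Matrix.vec_smul]⟩ } with hA'
  have hmem : ∀ X, vec (X * ψ⁻¹) ∈ A' ↔ X ∈ A := by
    intro X
    constructor
    · rintro ⟨Y, hY, h⟩
      have h1 : Y * ψ⁻¹ = X * ψ⁻¹ := Matrix.vec_inj.1 h
      have h2 : Y = X := by
        calc Y = Y * ψ⁻¹ * ψ := by rw [Matrix.mul_assoc, Matrix.nonsing_inv_mul _ hu, Matrix.mul_one]
          _ = X * ψ⁻¹ * ψ := by rw [h1]
          _ = X := by rw [Matrix.mul_assoc, Matrix.nonsing_inv_mul _ hu, Matrix.mul_one]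
      rwa [← h2]
    · exact fun h => ⟨X, h, rfl⟩
  obtain ⟨Q, hQ1, hQ2, hQ3⟩ := maschke G hfin A' (by
    rintro g hg _ ⟨X, hX, rfl⟩
    rw [← hconj g (hG hg), hmem]
    exact hA g hg X hX)
  -- the matrix `N`
  have hN : ∀ g ∈ spG ψ, kr g.1 * kr ψ⁻¹ * (kr g.1)ᵀ = kr ψ⁻¹ := by
    intro g hg
    have h1 : g.1ᵀ * ψ * g.1 = ψ := hg
    rw [kr_transpose, ← kr_mul, ← kr_mul]
    congr 1
    have h2 : g.1 * ψ⁻¹ * g.1ᵀ * ψ * g.1 = g.1 := by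
      calc g.1 * ψ⁻¹ * g.1ᵀ * ψ * g.1 = g.1 * ψ⁻¹ * (g.1ᵀ * ψ * g.1) := by
            simp only [Matrix.mul_assoc]
        _ = _ := by rw [h1, Matrix.mul_assoc, Matrix.nonsing_inv_mul _ hu, Matrix.mul_one]
    have h3 : g.1 * g⁻¹.1 = 1 := g.mul_inv
    have h4 : g.1 * ψ⁻¹ * g.1ᵀ * ψ = 1 := by
      calc g.1 * ψ⁻¹ * g.1ᵀ * ψ = g.1 * ψ⁻¹ * g.1ᵀ * ψ * (g.1 * g⁻¹.1) := by
            rw [h3, Matrix.mul_one]
        _ = g.1 * ψ⁻¹ * g.1ᵀ * ψ * g.1 * g⁻¹.1 := by simp only [Matrix.mul_assoc]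
        _ = 1 := by rw [h2, h3]
    calc g.1 * ψ⁻¹ * g.1ᵀ = g.1 * ψ⁻¹ * g.1ᵀ * ψ * ψ⁻¹ := by
          rw [Matrix.mul_assoc _ ψ, Matrix.mul_nonsing_inv _ hu, Matrix.mul_one]
      _ = ψ⁻¹ := by rw [h4, Matrix.one_mul]
  have hcomm : ∀ g ∈ spG ψ, (kr g.1 * Q = Q * kr g.1 ↔ ta g.1 (mt (Q * kr ψ⁻¹)) =
      mt (Q * kr ψ⁻¹)) := by
    intro g hg
    rw [ta_mt]
    constructor
    · intro h
      congr 1
      calc kr g.1 * (Q * kr ψ⁻¹) * (kr g.1)ᵀ = kr g.1 * Q * kr ψ⁻¹ * (kr g.1)ᵀ := by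
            simp only [Matrix.mul_assoc]
        _ = Q * (kr g.1 * kr ψ⁻¹ * (kr g.1)ᵀ) := by rw [h]; simp only [Matrix.mul_assoc]
        _ = _ := by rw [hN g hg]
    · intro h
      have h1 := mt_inj h
      have h2 : kr g.1 * Q * (kr ψ⁻¹ * (kr g.1)ᵀ) = Q * kr g.1 * (kr ψ⁻¹ * (kr g.1)ᵀ) := by
        calc kr g.1 * Q * (kr ψ⁻¹ * (kr g.1)ᵀ) = kr g.1 * (Q * kr ψ⁻¹) * (kr g.1)ᵀ := by
              simp only [Matrix.mul_assoc]
          _ = Q * kr ψ⁻¹ := h1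
          _ = Q * (kr g.1 * kr ψ⁻¹ * (kr g.1)ᵀ) := by rw [hN g hg]
          _ = _ := by simp only [Matrix.mul_assoc]
      have h3 : kr ψ⁻¹ * (kr g.1)ᵀ * (kr (g⁻¹.1)ᵀ * kr ψ) = 1 := by
        have e1 : g.1ᵀ * (g⁻¹.1)ᵀ = 1 := by
          rw [← Matrix.transpose_mul]
          have : g⁻¹.1 * g.1 = 1 := g.inv_mul
          rw [this, Matrix.transpose_one]
        rw [kr_transpose, ← kr_mul, ← kr_mul, ← kr_mul]
        have e2 : ψ⁻¹ * g.1ᵀ * ((g⁻¹.1)ᵀ * ψ) = 1 := by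
          calc ψ⁻¹ * g.1ᵀ * ((g⁻¹.1)ᵀ * ψ) = ψ⁻¹ * (g.1ᵀ * (g⁻¹.1)ᵀ) * ψ := by
                simp only [Matrix.mul_assoc]
            _ = 1 := by rw [e1, Matrix.mul_one, Matrix.nonsing_inv_mul _ hu]
        rw [e2, kr_one]
      calc kr g.1 * Q = kr g.1 * Q * (kr ψ⁻¹ * (kr g.1)ᵀ * (kr (g⁻¹.1)ᵀ * kr ψ)) := by
            rw [h3, Matrix.mul_one]
        _ = kr g.1 * Q * (kr ψ⁻¹ * (kr g.1)ᵀ) * (kr (g⁻¹.1)ᵀ * kr ψ) := by
            simp only [Matrix.mul_assoc]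
        _ = Q * kr g.1 * (kr ψ⁻¹ * (kr g.1)ᵀ) * (kr (g⁻¹.1)ᵀ * kr ψ) := by rw [h2]
        _ = Q * kr g.1 * (kr ψ⁻¹ * (kr g.1)ᵀ * (kr (g⁻¹.1)ᵀ * kr ψ)) := by
            simp only [Matrix.mul_assoc]
        _ = _ := by rw [h3, Matrix.mul_one]
  have hall := hw (mt (Q * kr ψ⁻¹)) fun g hgG => (hcomm g (hG hgG)).1 (hQ3 g hgG)
  have hc := (hcomm g hg).2 (hall g hg)
  rw [← hmem, hconj g hg]
  have h5 : Q *ᵥ vec (X * ψ⁻¹) = vec (X * ψ⁻¹) := hQ2 _ ((hmem X).2 hX)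
  rw [← h5, Matrix.mulVec_mulVec, hc, ← Matrix.mulVec_mulVec]
  exact hQ1 _

end Pool.Agent.Lib.MPf11a48.CF
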