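import Pool.Agent.Lib.MP_f11a48_ag.CF.Mono

/-!
# Module REL: relations between the values of a matrix of G-functions
-/

set_option autoImplicit false

namespace Pool.Agent.Lib.MPf11a48.CF.RelM

open Polynomial Matrix
open scoped PowerSeries
open Pool.Agent.Lib.MPf11a48.GF Pool.Agent.Lib.MPf11a48.GF.EstM Pool.Agent.Lib.MPf11a48.GF.QuaM
open Pool.Agent.Lib.MPf11a48.K3 (cx)

/-- the value at a rational number of a polynomial in power series -/
theorem pval_peval {μ : Type} (v : μ → ℚ⟦X⟧) (ξ : ℚ) (z : ℂ) (hz : z = ξ)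
    (hv : ∀ i, Sm (v i) z) (G : MvPolynomial μ ℚ[X]) :
    Sm (peval v G) z ∧ pval (peval v G) z =
      MvPolynomial.aeval (fun i => pval (v i) z) (G.map (Polynomial.evalRingHom ξ)) := by
  induction G using MvPolynomial.induction_on with
  | C p =>
    have h := specEval.2.2.1 p z
    have e : peval v (MvPolynomial.C p) = (p : ℚ⟦X⟧) := by
      unfold peval
      rw [MvPolynomial.eval₂_C]
      rfl
    rw [e]
    refine ⟨h.1, ?_⟩
    rw [h.2, MvPolynomial.map_C, MvPolynomial.aeval_C, hz]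
    exact Polynomial.aeval_algebraMap_apply_eq_algebraMap_eval ξ p
  | add p q hp hq =>
    have e : peval v (p + q) = peval v p + peval v q := by
      unfold peval
      exact MvPolynomial.eval₂_add _ _
    rw [e]
    refine ⟨Sm.add hp.1 hq.1, ?_⟩
    rw [(specEval.2.1 _ _ _ hp.1 hq.1).1, hp.2, hq.2, map_add, map_add]
  | mul_X p i hp =>
    have e : peval v (p * MvPolynomial.X i) = peval v p * v i := by
      unfold peval
      rw [MvPolynomial.eval₂_mul, MvPolynomial.eval₂_X]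
    rw [e]
    have h := specEval.2.1 _ _ _ hp.1 (hv i)
    refine ⟨h.2.2, ?_⟩
    rw [h.2.1, hp.2, map_mul, map_mul, MvPolynomial.map_X, MvPolynomial.aeval_X]

/-- the values of a sum -/
theorem pval_sum {κ : Type} (s : Finset κ) {f : κ → ℚ⟦X⟧} {z : ℂ} (h : ∀ i ∈ s, Sm (f i) z) :
    pval (∑ i ∈ s, f i) z = ∑ i ∈ s, pval (f i) z := by
  classical
  induction s using Finset.induction_on with
  | empty =>
    rw [Finset.sum_empty, Finset.sum_empty]
    unfold pval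
    simp
  | insert a s ha ih =>
    have h1 : ∀ i ∈ s, Sm (f i) z := fun i hi => h i (Finset.mem_insert_of_mem hi)
    rw [Finset.sum_insert ha, Finset.sum_insert ha,
      (specEval.2.1 _ _ _ (h a (Finset.mem_insert_self _ _)) (Sm.sum s h1)).1, ih h1]

/-- the values of a rational multiple -/
theorem pval_C_mul {f : ℚ⟦X⟧} {z : ℂ} (h : Sm f z) (q : ℚ) :
    Sm ((PowerSeries.C q : ℚ⟦X⟧) * f) z ∧ pval ((PowerSeries.C q : ℚ⟦X⟧) * f) z = q * pval f z := by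
  have h1 := specEval.2.2.1 (Polynomial.C q) z
  rw [Polynomial.coe_C] at h1
  have h2 := specEval.2.1 _ _ _ h1.1 h
  refine ⟨h2.2.2, ?_⟩
  rw [h2.2.1, h1.2, Polynomial.aeval_C]
  rfl

variable {ι : Type} [Fintype ι]

/-- the values of `g Y` -/
theorem vm_mul {Y : Matrix ι ι ℚ⟦X⟧} {z : ℂ} (hY : ∀ p : ι × ι, Sm (Y p.1 p.2) z)
    (g : Matrix ι ι ℚ) (p : ι × ι) :
    Sm ((g.map (PowerSeries.C : ℚ →+* ℚ⟦X⟧) * Y) p.1 p.2) z ∧
      pval ((g.map (PowerSeries.C : ℚ →+* ℚ⟦X⟧) * Y) p.1 p.2) z = (cx g * vm Y z) p.1 p.2 := by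
  have h1 : ∀ k, Sm ((g.map (PowerSeries.C : ℚ →+* ℚ⟦X⟧)) p.1 k * Y k p.2) z ∧
      pval ((g.map (PowerSeries.C : ℚ →+* ℚ⟦X⟧)) p.1 k * Y k p.2) z =
        g p.1 k * pval (Y k p.2) z := fun k => pval_C_mul (hY (k, p.2)) (g p.1 k)
  rw [Matrix.mul_apply, Matrix.mul_apply]
  refine ⟨Sm.sum _ fun k _ => (h1 k).1, ?_⟩
  rw [pval_sum _ fun k _ => (h1 k).1]
  exact Finset.sum_congr rfl fun k _ => (h1 k).2

/-- the polynomial `g ↦ F (g y)` -/
noncomputable def rt (y : Matrix ι ι ℂ) (F : MvPolynomial (ι × ι) ℚ) :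
    MvPolynomial (ι × ι) ℂ :=
  MvPolynomial.aeval (fun p : ι × ι => ∑ k, MvPolynomial.X (p.1, k) * MvPolynomial.C (y k p.2)) F

theorem eval_rt (y g : Matrix ι ι ℂ) (F : MvPolynomial (ι × ι) ℚ) :
    MvPolynomial.eval (fun p => g p.1 p.2) (rt y F) =
      MvPolynomial.aeval (fun p => (g * y) p.1 p.2) F := by
  unfold rt
  rw [MvPolynomial.map_aeval, MvPolynomial.aeval_def]
  have e : (MvPolynomial.eval fun p : ι × ι => g p.1 p.2).comp
      (algebraMap ℚ (MvPolynomial (ι × ι) ℂ)) = algebraMap ℚ ℂ := Subsingleton.elim _ _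
  rw [e, MvPolynomial.coe_eval₂Hom]
  congr 1
  funext p
  rw [map_sum, Matrix.mul_apply]
  refine Finset.sum_congr rfl fun k _ => ?_
  rw [map_mul, MvPolynomial.eval_X, MvPolynomial.eval_C]

theorem rel [DecidableEq ι] (hD : SpecDens) {Y : Matrix ι ι ℚ⟦X⟧} {ψ : Matrix ι ι ℚ}
    (hψ : ψᵀ = -ψ) (hdet : ψ.det ≠ 0) {ξ : ℚ} {z : ℂ} (hz : z = ξ)
    (hv : ∀ p : ι × ι, Sm (Y p.1 p.2) z) {F : MvPolynomial (ι × ι) ℚ}
    {G : MvPolynomial (ι × ι) ℚ[X]} (hG1 : G.map (Polynomial.evalRingHom ξ) = F)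
    (hm : ∀ g : Matrix ι ι ℚ, gᵀ * ψ * g = ψ →
      peval (fun p => (g.map (PowerSeries.C : ℚ →+* ℚ⟦X⟧) * Y) p.1 p.2) G = 0)
    (g : GL ι ℂ) (hg : g ∈ spG (cx ψ)) :
    MvPolynomial.aeval (fun p => (g.1 * vm Y z) p.1 p.2) F = 0 := by
  rw [← eval_rt]
  refine hD ι ψ hψ hdet _ (fun g' hg' => ?_) g hg
  have h2 := (pval_peval (fun p : ι × ι => (g'.map (PowerSeries.C : ℚ →+* ℚ⟦X⟧) * Y) p.1 p.2)
    ξ z hz (fun p => (vm_mul hv g' p).1) G).2
  rw [hm g' hg', hG1] at h2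
  have h3 : pval 0 z = 0 := by
    unfold pval
    simp
  have h4 := eval_rt (vm Y z) (cx g') F
  have h5 : (fun p : ι × ι => pval ((g'.map (PowerSeries.C : ℚ →+* ℚ⟦X⟧) * Y) p.1 p.2) z) =
      fun p => (cx g' * vm Y z) p.1 p.2 := funext fun p => (vm_mul hv g' p).2
  rw [h3, h5] at h2
  exact h4.trans h2.symm

end Pool.Agent.Lib.MPf11a48.CF.RelM

namespace Pool.Agent.Lib.MPf11a48.CF

open Polynomial Matrix
open scoped PowerSeries
open Pool.Agent.Lib.MPf11a48.GF Pool.Agent.Lib.MPf11a48.GF.EstM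
open Pool.Agent.Lib.MPf11a48.K3 (cx)

open MonoM RelM in
theorem specRel (hM : SpecMono) (hD : SpecDens) : SpecRel := by
  intro ι _ _ T B Y ψ hψ hdet h n
  obtain ⟨C1, hC1⟩ := hM ι T B Y h.ne h.gal h.sol h.g n
  obtain ⟨C2, hC2⟩ := sm_of (isG_fin Y h.g)
  refine ⟨C1 + C2, fun a b ha hb F hF h0 g hg => ?_⟩
  obtain ⟨G, hG0, hG1⟩ := hC1 a b ha (mono (Nat.le_add_right _ _) ha hb) F hF h0
  exact rel hD hψ hdet (Rat.cast_div _ _).symm
    (hC2 a b ha (mono (Nat.le_add_left _ _) ha hb)) hG1 (fun g' hg' => h.mon G hG0 g' hg') g hg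

end Pool.Agent.Lib.MPf11a48.CF
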