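import Pool.Agent.Lib.MP_f11a48_ag.CF.Pol
import Pool.Agent.Lib.MP_f11a48_ag.U.Sim
import Pool.Agent.Lib.MP_f11a48_ag.helper92.Exact
import Pool.Agent.Lib.MP_f11a48_ag.helper16.Classes
import Pool.Agent.Lib.MP_f11a48_ag.helper92.Bridge2
import Pool.Agent.Lib.MP_f11a48_ag.helper16.Data

/-!
# The theorem, from the Specs
-/

set_option autoImplicit false
set_option linter.unusedSectionVars false

namespace Pool.Agent.Lib.MPf11a48.CF.MainM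

open Polynomial Matrix
open scoped PowerSeries
open Pool.Agent.Lib.MPf11a48.Tors
open Pool.Agent.Lib.MPf11a48.CM hiding OmegaM
open Pool.Agent.Lib.MPf11a48.GL2 (lie Geo glmul glinv glinv' closedOver_mono geo_of_torsor)
open Pool.Agent.Lib.MPf11a48.GL2T
open Pool.Agent.Lib.MPf11a48.GF
open Pool.Agent.Lib.MPf11a48.K3 (cx)

variable {ι : Type} [Fintype ι] [DecidableEq ι]

/-- The multiplier of a logarithmic derivative of the period matrix. -/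
theorem log_deriv (c : GL ι ℂ) (ψ : Matrix ι ι ℚ) (ψdR : Matrix ι ι ℂ) (hψ : IsAlg ψdR) (ϖ : ℂ)
    (hne : ϖ ≠ 0) (hleg : c.1ᵀ * cx ψ * c.1 = ϖ • ψdR) (δ : Derivation Qbar ℂ ℂ) :
    (c.1.map δ * c⁻¹.1)ᵀ * cx ψ + cx ψ * (c.1.map δ * c⁻¹.1) = (δ ϖ / ϖ) • cx ψ := by
  have h0 : (cx ψ).map δ = 0 := by
    ext i j
    exact U.DerM.d_rat δ (ψ i j)
  have h1 : (c.1ᵀ * cx ψ * c.1).map δ = (c.1.map δ)ᵀ * cx ψ * c.1 + c.1ᵀ * cx ψ * c.1.map δ := by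
    rw [U.DerM.map_mul, U.DerM.map_mul, h0, Matrix.mul_zero, add_zero]
    rfl
  have h2 : (ϖ • ψdR).map δ = δ ϖ • ψdR := by
    ext i j
    simp only [Matrix.map_apply, Matrix.smul_apply, smul_eq_mul, Derivation.leibniz,
      U.DerM.d_zero_of_mem δ (hψ i j)]
    ring
  rw [hleg, h2] at h1
  have h3 : c⁻¹.1ᵀ * c.1ᵀ = 1 := by
    rw [← Matrix.transpose_mul, glinv, Matrix.transpose_one]
  have h4 : ψdR = ϖ⁻¹ • (c.1ᵀ * cx ψ * c.1) := by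
    rw [hleg, smul_smul, inv_mul_cancel₀ hne, one_smul]
  have h5 : c⁻¹.1ᵀ * (δ ϖ • ψdR) * c⁻¹.1 = (δ ϖ / ϖ) • cx ψ := by
    rw [h4, smul_smul, Matrix.mul_smul, Matrix.smul_mul, div_eq_mul_inv]
    congr 1
    calc c⁻¹.1ᵀ * (c.1ᵀ * cx ψ * c.1) * c⁻¹.1 = (c⁻¹.1ᵀ * c.1ᵀ) * cx ψ * (c.1 * c⁻¹.1) := by
          simp only [Matrix.mul_assoc]
      _ = cx ψ := by rw [h3, glinv, Matrix.one_mul, Matrix.mul_one]
  rw [← h5, h1, Matrix.mul_add, Matrix.add_mul, Matrix.transpose_mul]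
  congr 1
  · calc c⁻¹.1ᵀ * (c.1.map δ)ᵀ * cx ψ = c⁻¹.1ᵀ * (c.1.map δ)ᵀ * cx ψ * (c.1 * c⁻¹.1) := by
          rw [glinv, Matrix.mul_one]
      _ = c⁻¹.1ᵀ * ((c.1.map δ)ᵀ * cx ψ * c.1) * c⁻¹.1 := by simp only [Matrix.mul_assoc]
  · calc cx ψ * (c.1.map δ * c⁻¹.1) = (c⁻¹.1ᵀ * c.1ᵀ) * (cx ψ * (c.1.map δ * c⁻¹.1)) := by
          rw [h3, Matrix.one_mul]
      _ = c⁻¹.1ᵀ * (c.1ᵀ * cx ψ * c.1.map δ) * c⁻¹.1 := by simp only [Matrix.mul_assoc]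

/-- a number field in `ℂ` consists of algebraic numbers -/
theorem le_Qbar (K : IntermediateField ℚ ℂ) [FiniteDimensional ℚ K] : K ≤ Qbar := by
  intro x hx
  have h : IsAlgebraic ℚ (⟨x, hx⟩ : K) := Algebra.IsAlgebraic.isAlgebraic _
  have h2 : IsAlgebraic ℚ x := h.algebraMap (A := ℂ)
  exact (mem_algebraicClosure_iff).2 h2

theorem cx_det (ψ : Matrix ι ι ℚ) : (cx ψ).det = ((ψ.det : ℚ) : ℂ) := by
  have : cx ψ = (Rat.castHom ℂ).mapMatrix ψ := rfl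
  rw [this, ← RingHom.map_det]
  rfl

theorem det_unit (c : GL ι ℂ) : c.1.det ≠ 0 := by
  intro h0
  have h3 := congrArg Matrix.det (glinv c)
  rw [det_mul, h0, zero_mul, det_one] at h3
  exact zero_ne_one h3

theorem cx_mulVec_neg {ψ : Matrix ι ι ℚ} (h : ψᵀ = -ψ) : (cx ψ)ᵀ = -cx ψ := by
  refine Matrix.ext fun i j => ?_
  have h1 := congrFun (congrFun h i) j
  have h2 : ψ j i = -ψ i j := h1
  change ((ψ j i : ℚ) : ℂ) = -((ψ i j : ℚ) : ℂ)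
  rw [h2, Rat.cast_neg]

theorem neg_of_cx {ψ : Matrix ι ι ℚ} (h : (cx ψ)ᵀ = -cx ψ) : ψᵀ = -ψ := by
  refine Matrix.ext fun i j => ?_
  have h1 : ((ψ j i : ℚ) : ℂ) = -((ψ i j : ℚ) : ℂ) := congrFun (congrFun h i) j
  change ψ j i = -ψ i j
  exact_mod_cast h1

end Pool.Agent.Lib.MPf11a48.CF.MainM

namespace Pool.Agent.Lib.MPf11a48.CF

open Polynomial Matrix
open scoped PowerSeries
open Pool.Agent.Lib.MPf11a48.Tors
open Pool.Agent.Lib.MPf11a48.CM hiding OmegaM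
open Pool.Agent.Lib.MPf11a48.GL2 (lie Geo glmul glinv glinv' closedOver_mono geo_of_torsor)
open Pool.Agent.Lib.MPf11a48.GL2T
open Pool.Agent.Lib.MPf11a48.GF
open Pool.Agent.Lib.MPf11a48.K3 (cx)
open MainM PolM

/-- all similitudes are in every `K`-torsor containing `c` -/
theorem main_sim (hSt : SpecSt) (hGt : SpecGt) (hNorm : SpecNorm)
    (ι : Type) [Fintype ι] [DecidableEq ι] [Nonempty ι] (ψ₀ ψ : Matrix ι ι ℚ) (C₀ : GL ι ℂ)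
    (P Q : Matrix ι ι ℂ) (s : ι → ℂ) (ϖ : ℂ) (δ : ℕ) (h0 : ψ₀ᵀ = -ψ₀) (h1 : ψᵀ = -ψ)
    (h2 : ψ₀.det ≠ 0) (h3 : ψ.det ≠ 0) (hϖ : ϖ ≠ 0)
    (hC₀ : C₀.1ᵀ * cx ψ * C₀.1 = ϖ • cx ψ₀) (hPQ : C₀.1 = P * diagonal s * Q) (hP : IsAlg P)
    (hQ : IsAlg Q) (hs : ∃ i j, i ≠ j ∧ s i / s j ∈ Qbar) :
    ∃ N : ℕ, ∀ (y : GL ι ℂ) (ψ₁ : Matrix ι ι ℚ), y.1ᵀ * cx ψ₀ * y.1 = cx ψ₁ →
      (∀ n ≤ N, HasRel ℚ n y.1 (cx ψ₀)) →
      ∀ (K : IntermediateField ℚ ℂ), FiniteDimensional ℚ K → Module.finrank ℚ K ≤ δ →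
      ∀ R : GL ι ℂ, (∀ i j, R.1 i j ∈ K) → ∀ T, IsTorsor K T → ∀ c ∈ T, c = C₀ * y * R →
      (∀ f ∈ T, ∃ z : ℂ, f.1ᵀ * cx ψ * f.1 = z • (c.1ᵀ * cx ψ * c.1)) →
      (∃ X ∈ lie T, ∃ m : ℂ, m ≠ 0 ∧ Xᵀ * cx ψ + cx ψ * X = m • cx ψ) →
      ∀ (f : GL ι ℂ) (z : ℂˣ), f.1ᵀ * cx ψ * f.1 = (z : ℂ) • (c.1ᵀ * cx ψ * c.1) → f ∈ T := by
  obtain ⟨δ₀, hδ₀⟩ := hSt ι ψ₀ ψ C₀ P Q s ϖ h0 h1 h2 h3 hϖ hC₀ hPQ hP hQ hs
  obtain ⟨D, hD⟩ := hGt ι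
  refine ⟨(Fintype.card ι ^ D * D) * (δ * δ₀), ?_⟩
  intro y ψ₁ hy hrel K hK hKδ R hR T hT c hc hcR hsim hX f z hf
  refine hD ψ K T c h1 h3 (le_Qbar K) hT hc hsim hX ?_ f z hf
  intro m hm
  refine hδ₀ m K hK y ?_ R hR T hT (by rw [← hcR]; exact hc)
  intro n hn K' hK' hK'd
  refine hNorm ι ψ₀ ψ₁ y.1 h0 h2 (det_unit y) hy K' hK' n (hrel _ ?_)
  refine Nat.mul_le_mul ?_ ?_
  · refine hn.trans (Nat.mul_le_mul ?_ hm)
    exact Nat.pow_le_pow_right Fintype.card_pos hm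
  · exact hK'd.trans (Nat.mul_le_mul_right _ hKδ)

theorem main (hRel : SpecRel) (hNorm : SpecNorm) (hSt : SpecSt) (hGt : SpecGt) : Statement := by
  intro ι _ _ T B Y ψ₀ ψ C₀' P Q s w δ hG h1 h3 hw hC₀' h2 hPQ hP hQ hs
  classical
  have hne : Nonempty ι := by
    obtain ⟨i, -, -, -⟩ := hs
    exact ⟨i⟩
  have h2pi : (2 * Real.pi * Complex.I : ℂ) ≠ 0 := Complex.two_pi_I_ne_zero
  have hϖ : (2 * Real.pi * Complex.I : ℂ) ^ w ≠ 0 := zpow_ne_zero _ h2pi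
  -- the fibre at 0
  have hd₀ : (cx ψ₀).det ≠ 0 := by
    rw [MainM.cx_det]
    exact_mod_cast h2
  have hd : (cx ψ).det ≠ 0 := by
    rw [MainM.cx_det]
    exact_mod_cast h3
  have hCd : C₀'.det ≠ 0 := by
    intro h0
    have h4 := congrArg Matrix.det hC₀'
    rw [det_mul, det_mul, det_transpose, h0, mul_zero, det_smul] at h4
    exact mul_ne_zero (pow_ne_zero _ hϖ) hd₀ h4.symm
  obtain ⟨C₀, rfl⟩ : ∃ C₀ : GL ι ℂ, C₀.1 = C₀' :=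
    ⟨Matrix.GeneralLinearGroup.mkOfDetNeZero C₀' hCd, rfl⟩
  have h0 : ψ₀ᵀ = -ψ₀ := by
    refine neg_of_cx ?_
    have h4 := congrArg Matrix.transpose hC₀'
    rw [Matrix.transpose_mul, Matrix.transpose_mul, Matrix.transpose_transpose,
      cx_mulVec_neg h1, Matrix.transpose_smul, ← Matrix.mul_assoc, Matrix.mul_neg,
      Matrix.neg_mul, hC₀', ← smul_neg] at h4
    exact (smul_right_injective _ hϖ h4).symm
  obtain ⟨N, hN⟩ := main_sim hSt hGt hNorm ι ψ₀ ψ C₀ P Q s _ δ h0 h1 h2 h3 hϖ hC₀' hPQ hP hQ hs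
  obtain ⟨C₁, hC₁⟩ := exists_form specEval hG
  choose c hc using fun n => hRel ι T B Y ψ₀ h0 h2 hG n
  refine ⟨C₁ + ∑ n ∈ Finset.range (N + 1), c n, ?_⟩
  intro a b ha hb K hK hKδ R c' hcR
  obtain ⟨ψ₁, hψ₁⟩ := hC₁ a b ha (mono (by omega) ha hb)
  have hrel : ∀ n ≤ N, HasRel ℚ n (vm Y ((a : ℂ) / b)) (cx ψ₀) := by
    intro n hn
    refine hc n a b ha (mono ?_ ha hb)
    have : c n ≤ ∑ n ∈ Finset.range (N + 1), c n :=
      Finset.single_le_sum (f := c) (fun _ _ => Nat.zero_le _) (Finset.mem_range.2 (by omega))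
    omega
  -- invertible matrices
  have hdet : (C₀.1 * vm Y ((a : ℂ) / b) * R.map (fun x => (x : ℂ))).det ≠ 0 := by
    rw [← hcR]
    exact det_unit c'
  rw [det_mul, det_mul] at hdet
  have hyd : (vm Y ((a : ℂ) / b)).det ≠ 0 := right_ne_zero_of_mul (left_ne_zero_of_mul hdet)
  have hRd : (R.map (fun x => (x : ℂ))).det ≠ 0 := right_ne_zero_of_mul hdet
  obtain ⟨y, hy⟩ : ∃ y : GL ι ℂ, y.1 = vm Y ((a : ℂ) / b) :=
    ⟨Matrix.GeneralLinearGroup.mkOfDetNeZero _ hyd, rfl⟩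
  obtain ⟨R', hR'⟩ : ∃ R' : GL ι ℂ, R'.1 = R.map (fun x => (x : ℂ)) :=
    ⟨Matrix.GeneralLinearGroup.mkOfDetNeZero _ hRd, rfl⟩
  rw [← hy] at hψ₁ hrel hcR
  rw [← hR'] at hcR
  have hc' : c' = C₀ * y * R' := Units.ext hcR
  -- the form
  let ψdR : Matrix ι ι K := Rᵀ * ψ₁.map (algebraMap ℚ K) * R
  have hψdR : ψdR.map (fun x => (x : ℂ)) = R'.1ᵀ * cx ψ₁ * R'.1 := by
    have e : ∀ M : Matrix ι ι K, M.map (fun x => (x : ℂ)) = (algebraMap K ℂ).mapMatrix M :=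
      fun _ => rfl
    have e1 : (algebraMap K ℂ).mapMatrix (ψ₁.map (algebraMap ℚ K)) = cx ψ₁ := by
      refine Matrix.ext fun i j => ?_
      change ((algebraMap ℚ K (ψ₁ i j) : K) : ℂ) = ((ψ₁ i j : ℚ) : ℂ)
      exact (IsScalarTower.algebraMap_apply ℚ K ℂ (ψ₁ i j)).symm.trans rfl
    rw [hR', e, map_mul, map_mul, e1]
    rfl
  have hleg : c'.1ᵀ * cx ψ * c'.1 =
      (2 * Real.pi * Complex.I : ℂ) ^ w • ψdR.map (fun x => (x : ℂ)) := by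
    rw [hψdR, ← hψ₁, hcR]
    calc (C₀.1 * y.1 * R'.1)ᵀ * cx ψ * (C₀.1 * y.1 * R'.1)
        = R'.1ᵀ * (y.1ᵀ * (C₀.1ᵀ * cx ψ * C₀.1) * y.1) * R'.1 := by
          rw [Matrix.transpose_mul, Matrix.transpose_mul]
          simp only [Matrix.mul_assoc]
      _ = _ := by
          rw [hC₀']
          simp only [Matrix.mul_smul, Matrix.smul_mul]
  have hpol : Polarised w c' ψdR ψ := ⟨h3, hleg⟩
  refine ⟨ψdR, hpol, ?_⟩
  -- similitudes and the class of the form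
  have hψdRd : (ψdR.map (fun x => (x : ℂ))).det ≠ 0 := by
    intro h4
    have h5 := congrArg Matrix.det hleg
    rw [det_mul, det_mul, det_transpose, det_smul, h4, mul_zero] at h5
    exact mul_ne_zero (mul_ne_zero (det_unit c') hd) (det_unit c') h5
  have hfix : ∀ f : GL ι ℂ, (∃ z : ℂˣ, Mult f ψdR ψ z) ↔ Fixes f (polPair ψdR ψ) := by
    intro f
    constructor
    · rintro ⟨z, hz⟩
      exact GL2.fixes_of_sim hpol.1 (GL2T.mult_iff.1 hz) z.ne_zero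
    · intro hf
      obtain ⟨μ, hμ⟩ := GL2.sim_of_fixes hpol.1 hf
      have hμ0 : μ ≠ 0 := by
        rintro rfl
        rw [zero_smul] at hμ
        have h4 : (f.1ᵀ * ψ.map (algebraMap ℚ ℂ) * f.1).det = 0 := by
          rw [hμ, det_zero]
        rw [det_mul, det_mul, det_transpose] at h4
        exact mul_ne_zero (mul_ne_zero (det_unit f) hd) (det_unit f) h4
      exact ⟨Units.mk0 μ hμ0, GL2T.mult_iff.2 hμ⟩
  have hcfix : Fixes c' (polPair ψdR ψ) := (hfix c').1 ⟨Units.mk0 _ hϖ, hpol.2⟩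
  have hsub : OmegaDRB K c' ⊆ {f | ∃ z : ℂˣ, Mult f ψdR ψ z} := by
    intro f hf
    refine (hfix f).2 ?_
    have h4 := drb_subset (S := {polPair ψdR ψ}) (c := c') (by
      intro α hα
      rw [Set.mem_singleton_iff] at hα
      rw [hα]
      exact hcfix) hf
    exact h4 _ rfl
  have hMO := OmegaM_subset_OmegaDRB K c'
  have hmc : ∀ f' : GL ι ℂ, ∀ x : ℂ, Mult f' ψdR ψ x →
      f'.1ᵀ * cx ψ * f'.1 = (x * ((2 * Real.pi * Complex.I : ℂ) ^ w)⁻¹) •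
        (c'.1ᵀ * cx ψ * c'.1) := by
    intro f' x hx
    have hx' : f'.1ᵀ * cx ψ * f'.1 = x • ψdR.map (fun a => (a : ℂ)) := hx
    rw [hx', hleg, smul_smul, mul_assoc, inv_mul_cancel₀ hϖ, mul_one]
  have hsup : {f : GL ι ℂ | ∃ z : ℂˣ, Mult f ψdR ψ z} ⊆ OmegaM K c' := by
    rintro f ⟨z, hz⟩
    have hTor := isTorsor_OmegaM K c'
    have hQ' : K ≤ Qbar := le_Qbar K
    have hGeo : Geo (OmegaM K c') :=
      geo_of_torsor ⟨closedOver_mono hQ' hTor.closed, hTor.nonempty, hTor.heap⟩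
    refine hN y ψ₁ hψ₁ hrel K hK hKδ R' ?_ (OmegaM K c') hTor c' (mem_OmegaM_self K c') hc' ?_ ?_ f
      (z * (Units.mk0 _ hϖ)⁻¹) ?_
    · intro i j
      rw [hR']
      exact (R i j).2
    · intro f' hf'
      obtain ⟨x, hx⟩ := hsub (hMO hf')
      exact ⟨_, hmc f' x hx⟩
    · have hnot : (2 * Real.pi * Complex.I : ℂ) ^ w ∉ Qbar := by
        intro hmem
        exact hw (two_pi_I_zpow hmem)
      obtain ⟨δ', hδ'⟩ := GL2.exists_derivation hnot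
      refine ⟨c'.1.map δ' * c'⁻¹.1, hGeo.deriv_mem (mem_OmegaM_self K c') δ', _,
        div_ne_zero hδ' hϖ, log_deriv c' ψ _ ?_ _ hϖ hleg δ'⟩
      intro i j
      exact hQ' (ψdR i j).2
    · rw [hmc f z hz]
      rfl
  have e1 : OmegaM K c' = {f | ∃ z : ℂˣ, Mult f ψdR ψ z} :=
    Set.Subset.antisymm (hMO.trans hsub) hsup
  have e2 : OmegaDRB K c' = {f | ∃ z : ℂˣ, Mult f ψdR ψ z} :=
    Set.Subset.antisymm hsub (hsup.trans hMO)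
  refine ⟨e1, e2, ?_⟩
  intro S hS hPS
  refine Set.Subset.antisymm ?_ ?_
  · intro f hf
    exact (hfix f).2 (hf _ hPS)
  · rw [← e2]
    exact drb_subset hS

end Pool.Agent.Lib.MPf11a48.CF
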