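import Pool.Agent.Lib.MP_f11a48_ag.CF.Irr
import Pool.Agent.Lib.MP_f11a48_ag.helper17.AutC

/-!
# Objects near an object of CM type, NORM: relations over number fields
-/

set_option autoImplicit false

namespace Pool.Agent.Lib.MPf11a48.CF

open Matrix
open Pool.Agent.Lib.MPf11a48.GF
open Pool.Agent.Lib.MPf11a48.K3 (cx)

namespace NormM

/-- embeddings of number fields extend to automorphisms of `ℂ` -/
theorem exists_aut (K : IntermediateField ℚ ℂ) [FiniteDimensional ℚ K] (σ : K →ₐ[ℚ] ℂ) :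
    ∃ τ : ℂ ≃+* ℂ, ∀ x : K, τ (x : ℂ) = σ x := by
  let E : IntermediateField K ℂ := algebraicClosure K ℂ
  have : Algebra.IsAlgebraic ℚ E := Algebra.IsAlgebraic.trans ℚ K E
  obtain ⟨φ, hφ⟩ := IsAlgClosed.surjective_domRestrict_of_isAlgebraic (K := ℚ) (M := ℂ) (L := K)
    (E := E) σ
  have hmem : ∀ x : E, φ x ∈ E := by
    intro x
    rw [mem_algebraicClosure_iff]
    have h1 : IsAlgebraic ℚ x := Algebra.IsAlgebraic.isAlgebraic x
    exact (h1.algHom φ).tower_top K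
  let φ' : E →ₐ[ℚ] E := AlgHom.codRestrict φ (E.toSubalgebra.restrictScalars ℚ) hmem
  have hbij : Function.Bijective φ' := Algebra.IsAlgebraic.algHom_bijective φ'
  obtain ⟨τ, hτ⟩ := AutC.exists_extend (Ω := ℂ) (RingEquiv.ofBijective φ'.toRingHom hbij)
  refine ⟨τ, fun x => ?_⟩
  have h1 := hτ (algebraMap K E x)
  have h2 : φ (algebraMap K E x) = σ x := by
    rw [← hφ]; rfl
  rw [← h2]
  exact h1

variable {ι : Type} [Fintype ι] [DecidableEq ι]

/-- the conjugates of a polynomial -/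
noncomputable def cj {K : IntermediateField ℚ ℂ} (σ : K →ₐ[ℚ] ℂ)
    (F : MvPolynomial (ι × ι) K) : MvPolynomial (ι × ι) ℂ := F.map σ.toRingHom

omit [Fintype ι] [DecidableEq ι] in
/-- the norm of a polynomial is rational -/
theorem exists_norm (K : IntermediateField ℚ ℂ) [FiniteDimensional ℚ K] (n : ℕ)
    (F : MvPolynomial (ι × ι) K) (hF : F.IsHomogeneous n) :
    ∃ G : MvPolynomial (ι × ι) ℚ, G.IsHomogeneous (n * Module.finrank ℚ K) ∧
      G.map (algebraMap ℚ ℂ) = ∏ σ : K →ₐ[ℚ] ℂ, cj σ F := by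
  have hfix : ∀ τ : ℂ ≃+* ℂ, (∏ σ : K →ₐ[ℚ] ℂ, cj σ F).map τ.toRingHom =
      ∏ σ : K →ₐ[ℚ] ℂ, cj σ F := by
    intro τ
    let τ' : ℂ →ₐ[ℚ] ℂ := { τ.toRingHom with commutes' := fun q => by simp }
    rw [map_prod]
    have h1 : Function.Bijective fun σ : K →ₐ[ℚ] ℂ => τ'.comp σ := by
      rw [← Finite.injective_iff_bijective]
      intro σ σ' h
      ext x
      have := DFunLike.congr_fun h x
      exact τ.injective this
    rw [← Function.Bijective.prod_comp h1 (fun σ => cj σ F)]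
    refine Finset.prod_congr rfl fun σ _ => ?_
    unfold cj
    rw [MvPolynomial.map_map]
    rfl
  have hmem : (∏ σ : K →ₐ[ℚ] ℂ, cj σ F) ∈ Set.range (MvPolynomial.map (algebraMap ℚ ℂ)) := by
    rw [MvPolynomial.mem_range_map_iff_coeffs_subset]
    intro c hc
    rw [Finset.mem_coe, MvPolynomial.mem_coeffs_iff] at hc
    obtain ⟨d, _, rfl⟩ := hc
    have h1 : MvPolynomial.coeff d (∏ σ : K →ₐ[ℚ] ℂ, cj σ F) ∈ (⊥ : IntermediateField ℚ ℂ) := by
      refine AutC.mem_of_fixed ⊥ fun τ _ => ?_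
      have := congrArg (MvPolynomial.coeff d) (hfix τ)
      rw [MvPolynomial.coeff_map] at this
      exact this
    exact IntermediateField.mem_bot.1 h1
  obtain ⟨G, hG⟩ := hmem
  refine ⟨G, ?_, hG⟩
  have h1 : (∏ σ : K →ₐ[ℚ] ℂ, cj σ F).IsHomogeneous (n * Module.finrank ℚ K) := by
    have h2 := MvPolynomial.IsHomogeneous.prod (Finset.univ : Finset (K →ₐ[ℚ] ℂ))
      (fun σ => cj σ F) (fun _ => n) (fun σ _ => hF.map _)
    rw [Finset.sum_const, Finset.card_univ, AlgHom.card ℚ K ℂ, smul_eq_mul, mul_comm] at h2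
    exact h2
  intro d hd
  apply h1
  rw [← hG, MvPolynomial.coeff_map]
  simpa using hd

end NormM

open NormM IrrM in
theorem specNorm (hIrr : SpecIrr) : SpecNorm := by
  intro ι _ _ ψ₀ ψ₁ y hψ hd hy hyy K hK n hR F hF hFy g hg
  obtain ⟨G, hG, hG'⟩ := exists_norm K n F hF
  have hev : ∀ z : Matrix ι ι ℂ, MvPolynomial.aeval (fun p => z p.1 p.2) G =
      ∏ σ : K →ₐ[ℚ] ℂ, ev z (cj σ F) := by
    intro z
    unfold ev
    rw [← map_prod, ← hG', MvPolynomial.eval_map, MvPolynomial.aeval_def]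
  have hval : ∀ z : Matrix ι ι ℂ, ev z (cj K.val F) =
      MvPolynomial.aeval (fun p => z p.1 p.2) F := by
    intro z
    unfold ev cj
    rw [MvPolynomial.eval_map, MvPolynomial.aeval_def]
    rfl
  have h1 : MvPolynomial.aeval (fun p => y p.1 p.2) G = 0 := by
    rw [hev]
    exact Finset.prod_eq_zero (Finset.mem_univ K.val) (by rw [hval]; exact hFy)
  have h2 := hR G hG h1
  have hskew : (cx ψ₀)ᵀ = -cx ψ₀ := by
    ext i j
    have h3 := congrFun (congrFun hψ i) j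
    simp only [Matrix.transpose_apply, Matrix.neg_apply] at h3
    simp [cx, Matrix.transpose_apply, Matrix.map_apply, h3]
  have hdet : (cx ψ₀).det ≠ 0 := by
    have h3 : (cx ψ₀).det = (ψ₀.det : ℂ) := (RingHom.map_det (Rat.castHom ℂ) ψ₀).symm
    rw [h3]
    exact_mod_cast hd
  obtain ⟨σ, hσ⟩ := hIrr ι (cx ψ₀) hskew hdet (K →ₐ[ℚ] ℂ) (fun σ => tr 1 y (cj σ F)) (by
    intro g hg
    have h3 := h2 g hg
    rw [hev] at h3
    rw [← h3]
    refine Finset.prod_congr rfl fun σ _ => ?_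
    have := ev_tr 1 y g.1 (cj σ F)
    rw [one_mul] at this
    exact this)
  have hσ' : ∀ g ∈ spG (cx ψ₀), ev (g.1 * y) (cj σ F) = 0 := by
    intro g hg
    have h3 := hσ g hg
    have := ev_tr 1 y g.1 (cj σ F)
    rw [one_mul] at this
    rw [← this]
    exact h3
  obtain ⟨τ, hτ⟩ := exists_aut K σ
  have hg' : g.1ᵀ * cx ψ₀ * g.1 = cx ψ₀ := hg
  -- the conjugate of `g y`
  have hτcx : ∀ A : Matrix ι ι ℚ, (cx A).map τ = cx A := by
    intro A
    ext i j
    simp [cx, Matrix.map_apply]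
  let z : Matrix ι ι ℂ := g.1 * y
  have hz : zᵀ * cx ψ₀ * z = cx ψ₁ := by
    change (g.1 * y)ᵀ * cx ψ₀ * (g.1 * y) = _
    rw [Matrix.transpose_mul]
    calc yᵀ * g.1ᵀ * cx ψ₀ * (g.1 * y) = yᵀ * (g.1ᵀ * cx ψ₀ * g.1) * y := by
          simp only [Matrix.mul_assoc]
      _ = _ := by rw [hg', hyy]
  have hzτ : (z.map τ)ᵀ * cx ψ₀ * z.map τ = cx ψ₁ := by
    have h3 := congrArg (fun A : Matrix ι ι ℂ => A.map τ) hz
    simp only [Matrix.map_mul, hτcx, Matrix.transpose_map] at h3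
    exact h3
  have hdz : (z.map τ).det ≠ 0 := by
    have h3 : (z.map τ).det = τ z.det := (RingEquiv.map_det τ z).symm
    rw [h3]
    have h4 : z.det ≠ 0 := by
      change (g.1 * y).det ≠ 0
      rw [Matrix.det_mul]
      exact mul_ne_zero (Matrix.GeneralLinearGroup.det_ne_zero g) hy
    simpa using h4
  let yy : GL ι ℂ := Matrix.GeneralLinearGroup.mkOfDetNeZero y hy
  let zz : GL ι ℂ := Matrix.GeneralLinearGroup.mkOfDetNeZero (z.map τ) hdz
  have hyi : y * (yy⁻¹).1 = 1 := by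
    change yy.1 * (yy⁻¹).1 = 1
    rw [← Units.val_mul, mul_inv_cancel, Units.val_one]
  have hyi' : (yy⁻¹).1 * y = 1 := by
    change (yy⁻¹).1 * yy.1 = 1
    rw [← Units.val_mul, inv_mul_cancel, Units.val_one]
  have hmem : zz * yy⁻¹ ∈ spG (cx ψ₀) := by
    change (zz * yy⁻¹).1ᵀ * cx ψ₀ * (zz * yy⁻¹).1 = cx ψ₀
    rw [Units.val_mul, Matrix.transpose_mul]
    have hti : (yy⁻¹).1ᵀ * yᵀ = 1 := by rw [← Matrix.transpose_mul, hyi, Matrix.transpose_one]
    calc (yy⁻¹).1ᵀ * zz.1ᵀ * cx ψ₀ * (zz.1 * (yy⁻¹).1)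
        = (yy⁻¹).1ᵀ * (zz.1ᵀ * cx ψ₀ * zz.1) * (yy⁻¹).1 := by simp only [Matrix.mul_assoc]
      _ = (yy⁻¹).1ᵀ * (yᵀ * cx ψ₀ * y) * (yy⁻¹).1 := by
          rw [hyy]
          congr 2
      _ = ((yy⁻¹).1ᵀ * yᵀ) * cx ψ₀ * (y * (yy⁻¹).1) := by simp only [Matrix.mul_assoc]
      _ = cx ψ₀ := by rw [hti, hyi, Matrix.one_mul, Matrix.mul_one]
  have h3 := hσ' _ hmem
  have h4 : (zz * yy⁻¹).1 * y = z.map τ := by
    rw [Units.val_mul, Matrix.mul_assoc, hyi', Matrix.mul_one]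
    rfl
  rw [h4] at h3
  have h5 : ev (z.map τ) (cj σ F) = τ (MvPolynomial.aeval (fun p => z p.1 p.2) F) := by
    unfold ev cj
    rw [MvPolynomial.eval_map, MvPolynomial.aeval_def]
    have h6 := MvPolynomial.hom_eval₂ F (algebraMap K ℂ) τ.toRingHom (fun p => z p.1 p.2)
    rw [show (τ : ℂ ≃+* ℂ) (MvPolynomial.eval₂ (algebraMap K ℂ) (fun p => z p.1 p.2) F) =
      τ.toRingHom (MvPolynomial.eval₂ (algebraMap K ℂ) (fun p => z p.1 p.2) F) from rfl, h6]
    have h7 : τ.toRingHom.comp (algebraMap K ℂ) = σ.toRingHom := by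
      ext x
      exact hτ x
    rw [h7]
    rfl
  rw [h5] at h3
  have h6 : MvPolynomial.aeval (fun p => z p.1 p.2) F = 0 := by
    have := congrArg τ.symm h3
    rw [RingEquiv.symm_apply_apply, map_zero] at this
    exact this
  exact h6

end Pool.Agent.Lib.MPf11a48.CF
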