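import Pool.Agent.Lib.MP_f11a48_ag.CF.Nc
import Pool.Agent.Lib.MP_f11a48_ag.CF.Core

/-!
# ORD: a finite group of isometries has more invariant tensors than the symplectic group
-/

set_option autoImplicit false

namespace Pool.Agent.Lib.MPf11a48.CF

open Matrix

namespace OrdM

open Pool.Agent.Lib.MPf11a48.GF.TrvM Pool.Agent.Lib.MPf11a48.CF.NcM
  Pool.Agent.Lib.MPf11a48.CF.CorM

/-- numbers whose first power sums vanish are zero -/
theorem eq_zero_of_psum {G : Type} [Fintype G] (x : G → ℂ)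
    (h : ∀ m : ℕ, 1 ≤ m → m ≤ Fintype.card G → ∑ g, x g ^ m = 0) (g₀ : G) : x g₀ = 0 := by
  classical
  by_contra hne
  set S : Finset ℂ := (Finset.univ.image x).erase (x g₀) with hS
  set P : Polynomial ℂ := Polynomial.X * ∏ y ∈ S, (Polynomial.X - Polynomial.C y) with hP
  have hmem : x g₀ ∈ Finset.univ.image x := Finset.mem_image_of_mem x (Finset.mem_univ g₀)
  have hcard : S.card + 1 ≤ Fintype.card G := by
    have h1 : S.card + 1 = (Finset.univ.image x).card := by
      rw [hS, Finset.card_erase_of_mem hmem]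
      have := Finset.card_pos.mpr ⟨_, hmem⟩
      omega
    rw [h1]
    exact Finset.card_image_le.trans (le_of_eq (Finset.card_univ))
  have hdeg : P.natDegree < Fintype.card G + 1 := by
    have h1 : P.natDegree ≤ 1 + S.card := by
      rw [hP]
      refine Polynomial.natDegree_mul_le.trans ?_
      refine Nat.add_le_add (Polynomial.natDegree_X_le) ?_
      rw [Polynomial.natDegree_prod_of_monic _ _ fun y _ => Polynomial.monic_X_sub_C y]
      simp
    omega
  have hcoeff : P.coeff 0 = 0 := by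
    rw [hP, Polynomial.mul_coeff_zero, Polynomial.coeff_X_zero, zero_mul]
  have hsum : ∑ g, P.eval (x g) = 0 := by
    have h1 : ∀ g, P.eval (x g) = ∑ k ∈ Finset.range (Fintype.card G + 1), P.coeff k * x g ^ k :=
      fun g => Polynomial.eval_eq_sum_range' hdeg _
    simp only [h1]
    rw [Finset.sum_comm]
    refine Finset.sum_eq_zero fun k hk => ?_
    rw [← Finset.mul_sum]
    rcases Nat.eq_zero_or_pos k with h0 | h0
    · rw [h0, hcoeff, zero_mul]
    · rw [h k h0 (by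
        have := Finset.mem_range.mp hk
        omega), mul_zero]
  have heval : ∀ g, P.eval (x g) = if x g = x g₀ then P.eval (x g₀) else 0 := by
    intro g
    split_ifs with hg
    · rw [hg]
    · rw [hP, Polynomial.eval_mul, Polynomial.eval_prod]
      have h1 : ∏ y ∈ S, Polynomial.eval (x g) (Polynomial.X - Polynomial.C y) = 0 := by
        refine Finset.prod_eq_zero (i := x g) ?_ ?_
        · exact Finset.mem_erase.mpr ⟨hg, Finset.mem_image_of_mem x (Finset.mem_univ g)⟩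
        · simp
      rw [h1, mul_zero]
  have hne0 : P.eval (x g₀) ≠ 0 := by
    rw [hP, Polynomial.eval_mul, Polynomial.eval_prod, Polynomial.eval_X]
    refine mul_ne_zero hne (Finset.prod_ne_zero_iff.mpr fun y hy => ?_)
    rw [Polynomial.eval_sub, Polynomial.eval_X, Polynomial.eval_C]
    intro h1
    exact (Finset.mem_erase.mp hy).1 (sub_eq_zero.mp h1).symm
  rw [Finset.sum_congr rfl fun g _ => heval g, ← Finset.sum_filter, Finset.sum_const,
    nsmul_eq_mul] at hsum
  rcases mul_eq_zero.mp hsum with h1 | h1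
  · have h2 : (Finset.univ.filter fun g => x g = x g₀).card = 0 := by exact_mod_cast h1
    have h3 : g₀ ∈ Finset.univ.filter fun g => x g = x g₀ := by simp
    rw [Finset.card_eq_zero] at h2
    rw [h2] at h3
    exact absurd h3 (Finset.notMem_empty _)
  · exact hne0 h1

variable {ι : Type} [Fintype ι] [DecidableEq ι]

/-- an isometry which doubles a given vector -/
theorem exists_double {A : Matrix ι ι ℂ} (hA : Aᵀ = -A) (hd : A.det ≠ 0) {u : ι → ℂ}
    (hu : u ≠ 0) : ∃ l ∈ spG A, l.1 *ᵥ u = (2 : ℂ) • u := by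
  obtain ⟨w', hw'⟩ := exists_om hd hu
  set w : ι → ℂ := (om A u w')⁻¹ • w' with hw
  have huw : om A u w = 1 := by
    rw [hw, om_smul_right, inv_mul_cancel₀ hw']
  have hwu : om A w u = -1 := by rw [om_symm hA u w, huw]
  set g : Matrix ι ι ℂ := 1 - vecMulVec u (w ᵥ* A) - (1 / 2 : ℂ) • vecMulVec w (u ᵥ* A) with hg
  have hgv : ∀ x, g *ᵥ x = x - om A w x • u - ((1 / 2 : ℂ) * om A u x) • w := by
    intro x
    rw [hg, Matrix.sub_mulVec, Matrix.sub_mulVec, Matrix.one_mulVec, Matrix.vecMulVec_mulVec,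
      Matrix.smul_mulVec, Matrix.vecMulVec_mulVec]
    have h1 : (w ᵥ* A) ⬝ᵥ x = om A w x := by unfold om; rw [Matrix.dotProduct_mulVec]
    have h2 : (u ᵥ* A) ⬝ᵥ x = om A u x := by unfold om; rw [Matrix.dotProduct_mulVec]
    rw [h1, h2]
    funext i
    simp
    ring
  have hiso : ∀ x y, om A (g *ᵥ x) (g *ᵥ y) = om A x y := by
    intro x y
    rw [hgv, hgv]
    have hsub : ∀ a b c : ι → ℂ, om A a (b - c) = om A a b - om A a c := by
      intro a b c
      rw [sub_eq_add_neg, om_add_right]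
      have : om A a (-c) = -om A a c := by
        have := om_smul_right A (-1) a c
        rw [neg_one_smul] at this
        rw [this]
        ring
      rw [this]
      ring
    simp only [om_sub_left, hsub, om_smul_left, om_smul_right]
    rw [om_self hA u, om_self hA w, huw, hwu, om_symm hA u x, om_symm hA w x]
    ring
  obtain ⟨l, hl, hl'⟩ := exists_gl hd (isom_of_om hiso)
  refine ⟨l, hl, ?_⟩
  rw [hl', hgv, hwu, om_self hA u]
  funext i
  simp
  ring

/-- action on decomposable tensors -/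
theorem ta_pow {m : ℕ} (g : Matrix ι ι ℂ) (v : ι → ℂ) :
    ta g (fun J : Fin m → ι => ∏ k, v (J k)) = fun J => ∏ k, (g *ᵥ v) (J k) := by
  funext J
  rw [ta_apply]
  have h1 : ∀ k, (g *ᵥ v) (J k) = ∑ i, g (J k) i * v i := fun k => rfl
  simp only [h1]
  rw [Finset.prod_univ_sum, Fintype.piFinset_univ]
  refine Finset.sum_congr rfl fun J' _ => ?_
  rw [Finset.prod_mul_distrib]

/-- contraction with a power of a functional -/
theorem sum_pow {m : ℕ} (φ v : ι → ℂ) :
    ∑ J : Fin m → ι, (∏ k, φ (J k)) * ∏ k, v (J k) = (φ ⬝ᵥ v) ^ m := by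
  have h1 : (φ ⬝ᵥ v) ^ m = ∏ _k : Fin m, ∑ i, φ i * v i := by
    rw [Finset.prod_const, Finset.card_univ, Fintype.card_fin]
    rfl
  rw [h1, Finset.prod_univ_sum, Fintype.piFinset_univ]
  refine Finset.sum_congr rfl fun J' _ => ?_
  rw [Finset.prod_mul_distrib]

end OrdM

open Pool.Agent.Lib.MPf11a48.CF.OrdM Pool.Agent.Lib.MPf11a48.GF.TrvM
  Pool.Agent.Lib.MPf11a48.CF.CorM in
theorem specOrd : SpecOrd := by
  classical
  intro ι _ _ _ ψ hψ hd G hfin hG hinv
  have : Fintype G := hfin.fintype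
  have hcard : Nat.card G = Fintype.card G := Nat.card_eq_fintype_card
  -- a vector
  obtain ⟨i₀⟩ := ‹Nonempty ι›
  set v : ι → ℂ := Pi.single i₀ 1 with hv
  have hv0 : v ≠ 0 := by
    intro h
    have := congrFun h i₀
    simp [hv] at this
  obtain ⟨u', hu'⟩ := exists_om hd hv0
  -- `u` with `om u v ≠ 0`
  set u : ι → ℂ := u' with hu
  have huv : om ψ u v ≠ 0 := by
    rw [om_symm hψ v u]
    exact neg_ne_zero.mpr hu'
  have hu0 : u ≠ 0 := by
    intro h
    apply huv
    rw [h]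
    unfold om
    rw [zero_dotProduct]
  obtain ⟨l, hl, hlu⟩ := exists_double hψ hd hu0
  -- the invariant tensors
  have hw : ∀ m : ℕ, ∀ h ∈ G, ta h.1 (fun J : Fin m → ι => ∑ g : G, ∏ k, (g.1.1 *ᵥ v) (J k)) =
      fun J => ∑ g : G, ∏ k, (g.1.1 *ᵥ v) (J k) := by
    intro m h hh
    have h1 : (fun J : Fin m → ι => ∑ g : G, ∏ k, (g.1.1 *ᵥ v) (J k)) =
        ∑ g : G, fun J : Fin m → ι => ∏ k, (g.1.1 *ᵥ v) (J k) := by
      funext J
      rw [Finset.sum_apply]
    rw [h1, map_sum]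
    simp only [ta_pow, Matrix.mulVec_mulVec]
    refine Fintype.sum_equiv (Equiv.mulLeft (⟨h, hh⟩ : G)) _ _ fun g => ?_
    rfl
  have hp : ∀ m : ℕ, 1 ≤ m → m ≤ Fintype.card G → ∑ g : G, (om ψ u (g.1.1 *ᵥ v)) ^ m = 0 := by
    intro m hm1 hm2
    have h1 := hinv m (by rw [hcard]; exact hm2) _ (hw m) l hl
    -- contract with `φ`
    have h2 : ∀ (φ : ι → ℂ) (w : (Fin m → ι) → ℂ),
        ∑ J : Fin m → ι, (∏ k, φ (J k)) * ta l.1 w J =
          ∑ J : Fin m → ι, (∏ k, (φ ᵥ* l.1) (J k)) * w J := by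
      intro φ w
      simp only [ta_apply, Finset.mul_sum]
      rw [Finset.sum_comm]
      refine Finset.sum_congr rfl fun J' _ => ?_
      have h3 : ∀ k, (φ ᵥ* l.1) (J' k) = ∑ i, φ i * l.1 i (J' k) := fun k => rfl
      simp only [h3]
      rw [Finset.prod_univ_sum, Fintype.piFinset_univ, Finset.sum_mul]
      refine Finset.sum_congr rfl fun J _ => ?_
      rw [Finset.prod_mul_distrib]
      ring
    have h4 : ∀ φ : ι → ℂ, ∑ J : Fin m → ι, (∏ k, φ (J k)) *
        (∑ g : G, ∏ k, (g.1.1 *ᵥ v) (J k)) = ∑ g : G, (φ ⬝ᵥ (g.1.1 *ᵥ v)) ^ m := by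
      intro φ
      simp only [Finset.mul_sum]
      rw [Finset.sum_comm]
      exact Finset.sum_congr rfl fun g _ => sum_pow φ _
    -- `φ = ul ψ` with `ul = 2 u`, so that `φ l = u ψ`
    set φ : ι → ℂ := (l.1 *ᵥ u) ᵥ* ψ with hφ
    have h5 : φ ᵥ* l.1 = u ᵥ* ψ := by
      have h6 : l.1ᵀ * ψ * l.1 = ψ := hl
      rw [hφ, ← Matrix.vecMul_transpose, Matrix.vecMul_vecMul, Matrix.vecMul_vecMul,
        ← Matrix.mul_assoc, h6]
    have h7 := h2 φ (fun J => ∑ g : G, ∏ k, (g.1.1 *ᵥ v) (J k))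
    rw [h1, h4, h5, h4] at h7
    have h8 : φ = (2 : ℂ) • (u ᵥ* ψ) := by
      rw [hφ, hlu, Matrix.smul_vecMul]
    have h9 : ∀ g : G, (u ᵥ* ψ) ⬝ᵥ (g.1.1 *ᵥ v) = om ψ u (g.1.1 *ᵥ v) := by
      intro g
      unfold om
      exact (Matrix.dotProduct_mulVec _ _ _).symm
    have h10 : ∀ g : G, φ ⬝ᵥ (g.1.1 *ᵥ v) = 2 * om ψ u (g.1.1 *ᵥ v) := by
      intro g
      rw [h8, smul_dotProduct, smul_eq_mul, h9]
    simp only [h9, h10, mul_pow] at h7
    rw [← Finset.mul_sum] at h7
    have h11 : ((2 : ℂ) ^ m - 1) * ∑ g : G, (om ψ u (g.1.1 *ᵥ v)) ^ m = 0 := by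
      linear_combination h7
    rcases mul_eq_zero.mp h11 with h12 | h12
    · exfalso
      have h13 : (2 : ℂ) ^ m = 1 := by linear_combination h12
      have h14 : (2 : ℕ) ^ m = 1 := by exact_mod_cast h13
      have h15 : 2 ^ 1 ≤ 2 ^ m := Nat.pow_le_pow_right (by norm_num) hm1
      omega
    · exact h12
  have h1 := eq_zero_of_psum (fun g : G => om ψ u (g.1.1 *ᵥ v)) hp 1
  apply huv
  have h2 : ((1 : G) : GL ι ℂ).1 *ᵥ v = v := by
    change (1 : Matrix ι ι ℂ) *ᵥ v = v
    rw [Matrix.one_mulVec]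
  change om ψ u (((1 : G) : GL ι ℂ).1 *ᵥ v) = 0 at h1
  rw [h2] at h1
  exact h1

end Pool.Agent.Lib.MPf11a48.CF
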