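import Pool.Agent.Lib.MP_f11a48_ag.CF.Spec

/-!
# PL: Plücker coordinates of tensors
-/

set_option autoImplicit false

namespace Pool.Agent.Lib.MPf11a48.CF

open Matrix

namespace PlM

theorem exists_minor {S : Type} [Fintype S] {u : ℕ} (e : Fin u → S → ℂ)
    (he : LinearIndependent ℂ e) :
    ∃ f : Fin u → S, (Matrix.of fun a b => e a (f b)).det ≠ 0 := by
  classical
  set E : Matrix (Fin u) S ℂ := Matrix.of e with hE
  have hr : E.rank = u := by
    have h1 : LinearIndependent ℂ E.row := he
    have h2 := h1.rank_matrix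
    rwa [Fintype.card_fin] at h2
  rw [Matrix.rank_eq_finrank_span_cols] at hr
  obtain ⟨f', hf1, _, hf3⟩ := Submodule.exists_fun_fin_finrank_span_eq ℂ (Set.range E.col)
  choose g hg using hf1
  set c : Fin u ≃ Fin _ := finCongr hr.symm with hc
  refine ⟨fun b => g (c b), ?_⟩
  have h1 : LinearIndependent ℂ (fun b => f' (c b)) := hf3.comp c c.injective
  have h2 : (Matrix.of fun a b => e a (g (c b))).col = fun b => f' (c b) := by
    funext b
    rw [← hg (c b)]
    rfl
  rw [← h2, Matrix.linearIndependent_cols_iff_isUnit] at h1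
  exact ((Matrix.isUnit_iff_isUnit_det _).mp h1).ne_zero

theorem ta_pl {ι κ : Type} [Fintype ι] [DecidableEq ι] [Fintype κ] [DecidableEq κ] {u : ℕ}
    (g : Matrix ι ι ℂ) (e : Fin u → (κ → ι) → ℂ) : ta g (pl e) = pl fun a => ta g (e a) := by
  classical
  funext J
  change ∑ J' : Fin u × κ → ι, (∏ p, g (J p) (J' p)) *
      Matrix.det (Matrix.of fun a b => e a fun k => J' (b, k)) =
    Matrix.det (Matrix.of fun a b => ∑ I : κ → ι, (∏ k, g (J (b, k)) (I k)) * e a I)
  -- curry the index
  have h1 : ∑ J' : Fin u × κ → ι, (∏ p, g (J p) (J' p)) *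
      Matrix.det (Matrix.of fun a b => e a fun k => J' (b, k)) =
      ∑ f : Fin u → κ → ι, (∏ b, ∏ k, g (J (b, k)) (f b k)) *
        Matrix.det (Matrix.of fun a b => e a (f b)) := by
    refine Fintype.sum_equiv (Equiv.curry (Fin u) κ ι) _ _ fun J' => ?_
    congr 1
    rw [Fintype.prod_prod_type]
    rfl
  rw [h1, Matrix.det_apply']
  simp only [Matrix.det_apply', Finset.mul_sum]
  rw [Finset.sum_comm]
  refine Finset.sum_congr rfl fun σ _ => ?_
  simp only [Matrix.of_apply]
  rw [Finset.prod_univ_sum, Fintype.piFinset_univ, Finset.mul_sum]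
  refine Finset.sum_congr rfl fun f _ => ?_
  rw [Finset.prod_mul_distrib]
  ring

theorem pl_sum {ι κ : Type} {u : ℕ} (L : Matrix (Fin u) (Fin u) ℂ)
    (e : Fin u → (κ → ι) → ℂ) : pl (fun a => ∑ b, L a b • e b) = L.det • pl e := by
  funext J
  change Matrix.det (Matrix.of fun a b => (∑ c, L a c • e c) fun k => J (b, k)) =
    L.det * Matrix.det (Matrix.of fun a b => e a fun k => J (b, k))
  rw [← Matrix.det_mul]
  congr 1
  ext a b
  simp only [Matrix.of_apply, Matrix.mul_apply, Finset.sum_apply, Pi.smul_apply, smul_eq_mul]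

/-- the span is determined by the Plücker coordinates -/
theorem span_eq {S : Type} [DecidableEq S] {u : ℕ} (e : Fin u → S → ℂ) (f : Fin u → S)
    (hdet : (Matrix.of fun a b => e a (f b)).det ≠ 0) :
    Submodule.span ℂ (Set.range e) = Submodule.span ℂ (Set.range fun a : Fin u => fun I : S =>
      (Matrix.of fun a' b => e a' (Function.update f a I b)).det) := by
  classical
  set M : Matrix (Fin u) (Fin u) ℂ := Matrix.of fun a b => e a (f b) with hM
  have hcr : ∀ (a : Fin u) (I : S), (Matrix.of fun a' b => e a' (Function.update f a I b)).det =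
      ∑ b, M.adjugate a b * e b I := by
    intro a I
    have h1 : (Matrix.of fun a' b => e a' (Function.update f a I b)) =
        M.updateCol a fun b => e b I := by
      ext a' b
      rw [Matrix.updateCol_apply]
      by_cases hb : b = a
      · subst hb
        simp
      · simp [hb, hM]
    rw [h1, ← Matrix.cramer_apply, Matrix.cramer_eq_adjugate_mulVec]
    rfl
  have hfun : (fun a : Fin u => fun I : S =>
      (Matrix.of fun a' b => e a' (Function.update f a I b)).det) =
      fun a => ∑ b, M.adjugate a b • e b := by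
    funext a I
    rw [hcr a I]
    simp only [Finset.sum_apply, Pi.smul_apply, smul_eq_mul]
  rw [hfun]
  apply le_antisymm
  · rw [Submodule.span_le]
    rintro _ ⟨a, rfl⟩
    -- `det M • e a = ∑ c, M a c • ∑ b, adj c b • e b`
    have h2 : e a = (M.det)⁻¹ • ∑ c, M a c • ∑ b, M.adjugate c b • e b := by
      have h3 : ∑ c, M a c • ∑ b, M.adjugate c b • e b = M.det • e a := by
        simp only [Finset.smul_sum, smul_smul]
        rw [Finset.sum_comm]
        have h4 : ∀ b, ∑ c, (M a c * M.adjugate c b) • e b = (M * M.adjugate) a b • e b := by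
          intro b
          rw [← Finset.sum_smul, Matrix.mul_apply]
        simp only [h4, Matrix.mul_adjugate]
        rw [Finset.sum_eq_single a]
        · simp
        · intro b _ hb
          rw [Matrix.smul_apply, Matrix.one_apply_ne hb.symm]
          simp
        · intro h
          exact absurd (Finset.mem_univ a) h
      rw [h3, smul_smul, inv_mul_cancel₀ hdet, one_smul]
    rw [h2]
    refine Submodule.smul_mem _ _ (Submodule.sum_mem _ fun c _ => Submodule.smul_mem _ _ ?_)
    exact Submodule.subset_span ⟨c, rfl⟩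
  · rw [Submodule.span_le]
    rintro _ ⟨a, rfl⟩
    exact Submodule.sum_mem _ fun b _ => Submodule.smul_mem _ _ (Submodule.subset_span ⟨b, rfl⟩)

end PlM

open Pool.Agent.Lib.MPf11a48.CF.PlM in
theorem specPl : SpecPl := by
  intro ι κ _ _ _ _ u
  refine ⟨fun g e => ta_pl g e, fun L e => pl_sum L e, ?_⟩
  classical
  intro e e' he he' h
  have hpl : ∀ f : Fin u → κ → ι, (Matrix.of fun a b => e a (f b)).det =
      (Matrix.of fun a b => e' a (f b)).det := fun f =>
    congrFun h fun p : Fin u × κ => f p.1 p.2
  obtain ⟨f, hf⟩ := exists_minor e he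
  have hf' : (Matrix.of fun a b => e' a (f b)).det ≠ 0 := by
    rw [← hpl]
    exact hf
  rw [span_eq e f hf, span_eq e' f hf']
  congr 2
  funext a I
  exact hpl _

end Pool.Agent.Lib.MPf11a48.CF
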