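import Pool.Agent.Lib.MP_f11a48_ag.CF.Spec
import Pool.Agent.Lib.MP_f11a48_ag.GF.Trv

/-!
# NC: the block diagonal isometries do not commute
-/

set_option autoImplicit false

namespace Pool.Agent.Lib.MPf11a48.CF

open Matrix

namespace NcM

open Pool.Agent.Lib.MPf11a48.GF.TrvM

variable {ι : Type} [Fintype ι] [DecidableEq ι]

theorem isom_of_om {A : Matrix ι ι ℂ} {g : Matrix ι ι ℂ}
    (h : ∀ v w, om A (g *ᵥ v) (g *ᵥ w) = om A v w) : gᵀ * A * g = A := by
  ext i j
  have h1 := h (Pi.single i 1) (Pi.single j 1)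
  unfold om at h1
  have h2 : (gᵀ * A * g) i j = (g *ᵥ (Pi.single i 1)) ⬝ᵥ (A *ᵥ (g *ᵥ (Pi.single j 1))) := by
    rw [Matrix.mul_assoc, Matrix.mul_apply']
    rw [Matrix.mulVec_mulVec]
    congr 1
    · funext k
      simp
    · funext k
      simp
  rw [h2, h1]
  simp

/-- a matrix which preserves a nondegenerate form is invertible -/
theorem exists_gl {A : Matrix ι ι ℂ} (hd : A.det ≠ 0) {g : Matrix ι ι ℂ}
    (h : gᵀ * A * g = A) : ∃ l ∈ spG A, l.1 = g := by
  have h1 : g.det ≠ 0 := by
    intro h0
    apply hd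
    rw [← h, Matrix.det_mul, h0, mul_zero]
  exact ⟨Matrix.GeneralLinearGroup.mkOfDetNeZero g h1, h, rfl⟩

/-- the isometry `1 + a vᵀ A + v aᵀ A` for `om a v = 0` -/
theorem exists_E {A : Matrix ι ι ℂ} (hA : Aᵀ = -A) (hd : A.det ≠ 0) (a v : ι → ℂ)
    (h0 : om A a v = 0) : ∃ l ∈ spG A, l.1 = 1 + vecMulVec a (v ᵥ* A) + vecMulVec v (a ᵥ* A) := by
  apply exists_gl hd
  apply isom_of_om
  have hv : ∀ w, (1 + vecMulVec a (v ᵥ* A) + vecMulVec v (a ᵥ* A)) *ᵥ w =
      w + (om A v w • a + om A a w • v) := by
    intro w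
    rw [Matrix.add_mulVec, Matrix.add_mulVec, Matrix.one_mulVec, Matrix.vecMulVec_mulVec,
      Matrix.vecMulVec_mulVec]
    have h1 : (v ᵥ* A) ⬝ᵥ w = om A v w := by unfold om; rw [Matrix.dotProduct_mulVec]
    have h2 : (a ᵥ* A) ⬝ᵥ w = om A a w := by unfold om; rw [Matrix.dotProduct_mulVec]
    rw [h1, h2, add_assoc]
    congr 1
    congr 1
    · funext i
      simp [mul_comm]
    · funext i
      simp [mul_comm]
  intro x w
  rw [hv, hv]
  simp only [om_add_left, om_add_right, om_smul_left, om_smul_right]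
  have h1 : om A v a = 0 := by rw [om_symm hA a v, h0, neg_zero]
  rw [om_self hA a, om_self hA v, h0, h1, om_symm hA a x, om_symm hA v x]
  ring

theorem mulVec_E {A : Matrix ι ι ℂ} (a v w : ι → ℂ) :
    (1 + vecMulVec a (v ᵥ* A) + vecMulVec v (a ᵥ* A)) *ᵥ w =
      w + (om A v w • a + om A a w • v) := by
  rw [Matrix.add_mulVec, Matrix.add_mulVec, Matrix.one_mulVec, Matrix.vecMulVec_mulVec,
    Matrix.vecMulVec_mulVec]
  have h1 : (v ᵥ* A) ⬝ᵥ w = om A v w := by unfold om; rw [Matrix.dotProduct_mulVec]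
  have h2 : (a ᵥ* A) ⬝ᵥ w = om A a w := by unfold om; rw [Matrix.dotProduct_mulVec]
  rw [h1, h2, add_assoc]
  congr 1
  congr 1
  · funext i
    simp [mul_comm]
  · funext i
    simp [mul_comm]

/-- the entries of the inverse of a matrix over `K` are in `K` -/
theorem inv_mem {K : IntermediateField ℚ ℂ} {A : Matrix ι ι ℂ} (h : ∀ i j, A i j ∈ K)
    (i j : ι) : A⁻¹ i j ∈ K := by
  let AK : Matrix ι ι K := fun i j => ⟨A i j, h i j⟩
  have h1 : A = AK.map (algebraMap K ℂ) := by
    ext i j
    rfl
  have h2 : A.det ∈ K := by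
    rw [h1, ← RingHom.mapMatrix_apply, ← RingHom.map_det]
    exact (AK.det).2
  have h3 : A.adjugate i j ∈ K := by
    rw [h1, ← RingHom.mapMatrix_apply, ← RingHom.map_adjugate]
    exact (AK.adjugate i j).2
  rw [Matrix.inv_def, Matrix.smul_apply, smul_eq_mul, Ring.inverse_eq_inv']
  exact K.mul_mem (K.inv_mem h2) h3

end NcM

open Pool.Agent.Lib.MPf11a48.CF.NcM Pool.Agent.Lib.MPf11a48.GF.TrvM in
theorem specNc : SpecNc := by
  intro ι _ _ A A' s ϖ K hA hd hAK hA'K hϖ hs hrel ⟨i, j, hij, hijK⟩
  -- `A' ` is invertible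
  have hmat : diagonal s * A' * diagonal s = ϖ • A := by
    ext k m
    rw [Matrix.mul_diagonal, Matrix.diagonal_mul, hrel]
    rfl
  have hd' : A'.det ≠ 0 := by
    intro h0
    have h1 := congrArg Matrix.det hmat
    rw [Matrix.det_mul, Matrix.det_mul, h0, Matrix.det_smul] at h1
    simp only [mul_zero, zero_mul] at h1
    exact mul_ne_zero (pow_ne_zero _ hϖ) hd h1.symm
  -- entries of `A`
  have hK1 : ∀ k m, A k m ≠ 0 → s k * s m / ϖ ∈ K := by
    intro k m h
    have h1 : A' k m ≠ 0 := by
      intro h0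
      have h2 := hrel k m
      rw [h0, mul_zero, zero_mul] at h2
      exact mul_ne_zero hϖ h h2.symm
    have h2 : s k * s m / ϖ = A k m / A' k m := by
      rw [div_eq_div_iff hϖ h1]
      linear_combination hrel k m
    rw [h2]
    exact K.div_mem (hAK k m) (hA'K k m)
  -- entries of `A⁻¹`
  have hinv : A⁻¹ = ϖ • (diagonal s⁻¹ * A'⁻¹ * diagonal s⁻¹) := by
    apply Matrix.inv_eq_right_inv
    have hs1 : diagonal s * diagonal s⁻¹ = (1 : Matrix ι ι ℂ) := by
      rw [Matrix.diagonal_mul_diagonal]
      rw [← Matrix.diagonal_one]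
      congr 1
      funext k
      rw [Pi.inv_apply, mul_inv_cancel₀ (hs k)]
    have hA'1 : A' * A'⁻¹ = 1 := Matrix.mul_nonsing_inv _ (isUnit_iff_ne_zero.mpr hd')
    have h1 : ϖ • A * (diagonal s⁻¹ * A'⁻¹ * diagonal s⁻¹) = 1 := by
      rw [← hmat]
      have h2 : diagonal s * A' * diagonal s * (diagonal s⁻¹ * A'⁻¹ * diagonal s⁻¹) =
          diagonal s * (A' * (diagonal s * diagonal s⁻¹) * A'⁻¹) * diagonal s⁻¹ := by
        simp only [Matrix.mul_assoc]
      rw [h2, hs1, Matrix.mul_one, hA'1, Matrix.mul_one, hs1]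
    rw [Matrix.mul_smul, ← Matrix.smul_mul]
    exact h1
  have hK2 : ∀ k m, A⁻¹ k m ≠ 0 → s k * s m / ϖ ∈ K := by
    intro k m h
    have h1 : A⁻¹ k m = ϖ * ((s k)⁻¹ * A'⁻¹ k m * (s m)⁻¹) := by
      rw [hinv, Matrix.smul_apply, smul_eq_mul, Matrix.mul_diagonal, Matrix.diagonal_mul]
      rfl
    have h2 : A'⁻¹ k m ≠ 0 := by
      intro h0
      rw [h1, h0] at h
      simp at h
    have h3 : s k * s m / ϖ = A'⁻¹ k m / A⁻¹ k m := by
      rw [h1]
      have h4 := hs k
      have h5 := hs m
      field_simp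
    rw [h3]
    exact K.div_mem (inv_mem hA'K k m) (inv_mem hAK k m)
  -- the vectors
  let e : ι → ι → ℂ := fun k => Pi.single k 1
  let v : ι → ι → ℂ := fun k => A⁻¹ *ᵥ e k
  have hvapp : ∀ k m, v k m = A⁻¹ m k := by
    intro k m
    simp [v, e]
  have hAv : ∀ k, A *ᵥ v k = e k := by
    intro k
    simp only [v]
    rw [Matrix.mulVec_mulVec, Matrix.mul_nonsing_inv _ (isUnit_iff_ne_zero.mpr hd),
      Matrix.one_mulVec]
  have hom1 : ∀ (x : ι → ℂ) k, om A x (v k) = x k := by
    intro x k
    unfold om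
    rw [hAv]
    simp [e]
  have hom2 : ∀ k m, om A (e k) (e m) = A k m := by
    intro k m
    unfold om
    simp [e]
  have hrow1 : ∀ k m, (e k ᵥ* A) m = A k m := by
    intro k m
    simp [e]
  have hrow2 : ∀ k, v k ᵥ* A = -e k := by
    intro k
    rw [← Matrix.mulVec_transpose, hA, Matrix.neg_mulVec, hAv]
  have hKdiv : ∀ a b c : ℂ, a ∈ K → b ∈ K → a / b = c → c ∈ K := by
    intro a b c ha hb h
    rw [← h]
    exact K.div_mem ha hb
  have hi0 := hs i
  have hj0 := hs j
  have hA0 : ∀ k, A k k = 0 := by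
    intro k
    have h1 := congrFun (congrFun hA k) k
    rw [Matrix.transpose_apply, Matrix.neg_apply] at h1
    have h2 : (2 : ℂ) * A k k = 0 := by linear_combination h1
    simpa using h2
  by_cases hcase : s i * s i / ϖ ∈ K
  · -- case 1
    obtain ⟨l₁, hl₁, hl₁'⟩ := exists_E hA hd (e i) ((1 / 2 : ℂ) • e i) (by
      rw [om_smul_right, om_self hA, mul_zero])
    obtain ⟨l₂, hl₂, hl₂'⟩ := exists_E hA hd (v i) ((1 / 2 : ℂ) • v i) (by
      rw [om_smul_right, om_self hA, mul_zero])
    refine ⟨l₁, hl₁, l₂, hl₂, ?_, ?_, ?_⟩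
    · intro k m hkm
      rw [hl₁'] at hkm
      by_cases hkm' : k = m
      · rw [hkm', div_self (hs m)]
        exact K.one_mem
      · have h1 : k = i := by
          by_contra hki
          apply hkm
          simp [Matrix.vecMulVec_apply, e, hkm', hki]
        subst h1
        have h2 : A k m ≠ 0 := by
          intro h0
          apply hkm
          have h3 : (e k ᵥ* A) m = 0 := by rw [hrow1, h0]
          have h4 : (((1 / 2 : ℂ) • e k) ᵥ* A) m = 0 := by
            rw [Matrix.smul_vecMul, Pi.smul_apply, h3, smul_zero]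
          simp only [Matrix.add_apply, Matrix.vecMulVec_apply, h3, h4, mul_zero, add_zero,
            Matrix.one_apply_ne hkm']
        refine hKdiv _ _ _ hcase (hK1 k m h2) ?_
        have := hs m
        field_simp
    · intro k m hkm
      rw [hl₂'] at hkm
      by_cases hkm' : k = m
      · rw [hkm', div_self (hs m)]
        exact K.one_mem
      · have h1 : m = i := by
          by_contra hmi
          apply hkm
          have h3 : (v i ᵥ* A) m = 0 := by
            rw [hrow2]
            simp [e, hmi]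
          have h4 : (((1 / 2 : ℂ) • v i) ᵥ* A) m = 0 := by
            rw [Matrix.smul_vecMul, Pi.smul_apply, h3, smul_zero]
          simp only [Matrix.add_apply, Matrix.vecMulVec_apply, h3, h4, mul_zero, add_zero,
            Matrix.one_apply_ne hkm']
        subst h1
        have h2 : A⁻¹ k m ≠ 0 := by
          intro h0
          apply hkm
          have h3 : v m k = 0 := by rw [hvapp, h0]
          have h4 : ((1 / 2 : ℂ) • v m) k = 0 := by rw [Pi.smul_apply, h3, smul_zero]
          simp only [Matrix.add_apply, Matrix.vecMulVec_apply, h3, h4, zero_mul, add_zero,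
            Matrix.one_apply_ne hkm']
        refine hKdiv _ _ _ (hK2 k m h2) hcase ?_
        have := hs m
        field_simp
    · intro t ht
      have h1 : l₁ * l₂ * l₁⁻¹ * l₂⁻¹ * (l₂ * l₁) = l₁ * l₂ := by group
      have h2 : l₁.1 * l₂.1 = t • (l₂.1 * l₁.1) := by
        have h3 := congrArg Units.val h1
        rw [Units.val_mul (l₁ * l₂ * l₁⁻¹ * l₂⁻¹) (l₂ * l₁), ht, Matrix.smul_mul,
          Matrix.one_mul] at h3
        exact h3.symm
      have h3 := congrArg (fun X => X *ᵥ v i) h2
      simp only [Matrix.smul_mulVec, ← Matrix.mulVec_mulVec] at h3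
      have a1 : l₂.1 *ᵥ v i = v i := by
        rw [hl₂', mulVec_E, om_smul_left, om_self hA]
        simp
      have a2 : l₁.1 *ᵥ v i = v i + e i := by
        rw [hl₁', mulVec_E, om_smul_left, hom1]
        have : e i i = 1 := by simp [e]
        rw [this]
        funext k
        simp only [Pi.add_apply, Pi.smul_apply, smul_eq_mul]
        ring
      have a3 : l₂.1 *ᵥ e i = e i - v i := by
        have h5 : om A (v i) (e i) = -1 := by
          rw [om_symm hA (e i) (v i), hom1]
          simp [e]
        rw [hl₂', mulVec_E, om_smul_left, h5]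
        funext k
        simp only [Pi.add_apply, Pi.smul_apply, Pi.sub_apply, smul_eq_mul]
        ring
      rw [a1, a2, Matrix.mulVec_add, a1, a3] at h3
      have h6 : v i + e i = t • e i := by
        rw [h3]
        congr 1
        abel
      have h7 := congrArg (fun x => om A (e i) x) h6
      simp only [om_add_right, om_smul_right, om_self hA, hom1] at h7
      simp [e] at h7
  · -- case 2
    have hAij : A i j = 0 := by
      by_contra h0
      apply hcase
      have h1 := hK1 i j h0
      have h2 : s i * s i / ϖ = (s i * s j / ϖ) * (s i / s j) := by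
        field_simp
      rw [h2]
      exact K.mul_mem h1 hijK
    have hAji : A j i = 0 := by
      have h1 := congrFun (congrFun hA i) j
      rw [Matrix.transpose_apply, Matrix.neg_apply, hAij, neg_zero] at h1
      exact h1
    have hji : j ≠ i := fun h => hij h.symm
    obtain ⟨l₁, hl₁, hl₁'⟩ := exists_E hA hd (e i) (v j) (by rw [hom1]; simp [e, hji])
    obtain ⟨l₂, hl₂, hl₂'⟩ := exists_E hA hd (e j) (v i) (by rw [hom1]; simp [e, hij])
    have hjiK : s j / s i ∈ K := by
      rw [← inv_div]
      exact K.inv_mem hijK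
    have hsupp : ∀ a c : ι, s a / s c ∈ K → ∀ k m,
        (1 + vecMulVec (e a) (v c ᵥ* A) + vecMulVec (v c) (e a ᵥ* A) : Matrix ι ι ℂ) k m ≠ 0 →
        s k / s m ∈ K := by
      intro a c hac k m hkm
      by_cases hkm' : k = m
      · rw [hkm', div_self (hs m)]
        exact K.one_mem
      · by_cases h1 : k = a ∧ m = c
        · rw [h1.1, h1.2]
          exact hac
        · have h2 : (vecMulVec (e a) (v c ᵥ* A) : Matrix ι ι ℂ) k m = 0 := by
            rw [hrow2, Matrix.vecMulVec_apply]
            by_cases h3 : k = a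
            · have h4 : m ≠ c := fun h => h1 ⟨h3, h⟩
              simp [e, h4]
            · simp [e, h3]
          rw [Matrix.add_apply, Matrix.add_apply, Matrix.one_apply_ne hkm', h2, zero_add,
            zero_add, Matrix.vecMulVec_apply] at hkm
          have h3 : A⁻¹ k c ≠ 0 := by
            intro h0
            apply hkm
            rw [hvapp, h0, zero_mul]
          have h4 : A a m ≠ 0 := by
            intro h0
            apply hkm
            rw [hrow1, h0, mul_zero]
          have h5 := hK2 k c h3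
          have h6 := hK1 a m h4
          have h7 := K.div_mem (K.mul_mem h5 hac) h6
          have h8 : s k * s c / ϖ * (s a / s c) / (s a * s m / ϖ) = s k / s m := by
            have h9 := hs c
            have h10 := hs a
            have h11 := hs m
            field_simp
          rwa [h8] at h7
    refine ⟨l₁, hl₁, l₂, hl₂, ?_, ?_, ?_⟩
    · intro k m hkm
      rw [hl₁'] at hkm
      exact hsupp i j hijK k m hkm
    · intro k m hkm
      rw [hl₂'] at hkm
      exact hsupp j i hjiK k m hkm
    · intro t ht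
      have h1 : l₁ * l₂ * l₁⁻¹ * l₂⁻¹ * (l₂ * l₁) = l₁ * l₂ := by group
      have h2 : l₁.1 * l₂.1 = t • (l₂.1 * l₁.1) := by
        have h3 := congrArg Units.val h1
        rw [Units.val_mul (l₁ * l₂ * l₁⁻¹ * l₂⁻¹) (l₂ * l₁), ht, Matrix.smul_mul,
          Matrix.one_mul] at h3
        exact h3.symm
      have h3 := congrArg (fun X => X *ᵥ e j) h2
      simp only [Matrix.smul_mulVec, ← Matrix.mulVec_mulVec] at h3
      have hve : ∀ k m, om A (v k) (e m) = -(e m k) := by
        intro k m
        rw [om_symm hA (e m) (v k), hom1]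
      have b1 : l₂.1 *ᵥ e j = e j := by
        rw [hl₂', mulVec_E, hve, hom2, hA0]
        have : e j i = 0 := by simp [e, hij]
        rw [this]
        simp
      have b2 : l₁.1 *ᵥ e j = e j - e i := by
        rw [hl₁', mulVec_E, hve, hom2, hAij]
        have : e j j = 1 := by simp [e]
        rw [this]
        funext k
        simp only [Pi.add_apply, Pi.smul_apply, Pi.sub_apply, smul_eq_mul]
        ring
      have b3 : l₂.1 *ᵥ e i = e i - e j := by
        rw [hl₂', mulVec_E, hve, hom2, hAji]
        have : e i i = 1 := by simp [e]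
        rw [this]
        funext k
        simp only [Pi.add_apply, Pi.smul_apply, Pi.sub_apply, smul_eq_mul]
        ring
      rw [b1, b2, Matrix.mulVec_sub, b1, b3] at h3
      have c1 := congrFun h3 j
      have c2 := congrFun h3 i
      simp [e, hij, hji] at c1 c2
      rw [← c2] at c1
      norm_num at c1

end Pool.Agent.Lib.MPf11a48.CF
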