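import Pool.Agent.Lib.MP_f11a48_ag.CF.Core
import Pool.Agent.Lib.MP_f11a48_ag.CF.Nc

/-!
# ST: subspaces of tensor spaces which are stable under the group of the torsor
-/

set_option autoImplicit false

namespace Pool.Agent.Lib.MPf11a48.CF

open Matrix
open Pool.Agent.Lib.MPf11a48.Tors
open Pool.Agent.Lib.MPf11a48.CM hiding OmegaM
open Pool.Agent.Lib.MPf11a48.GL2T
open Pool.Agent.Lib.MPf11a48.K3 (cx)

namespace StM

open CorM (ta_mul ta_one ta_apply)

variable {ι κ : Type} [Fintype ι] [Fintype κ] [DecidableEq κ]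

theorem ta_map (τ : ℂ ≃+* ℂ) (g : Matrix ι ι ℂ) (w : (κ → ι) → ℂ) :
    (fun J => τ (ta g w J)) = ta (g.map τ) fun J => τ (w J) := by
  funext J
  simp only [ta_apply, map_sum, map_mul, map_prod, Matrix.map_apply]

theorem ta_mem {K : IntermediateField ℚ ℂ} {g : Matrix ι ι ℂ} (hg : ∀ i j, g i j ∈ K)
    {w : (κ → ι) → ℂ} (hw : ∀ J, w J ∈ K) (J : κ → ι) : ta g w J ∈ K := by
  rw [ta_apply]
  exact K.sum_mem fun J' _ => K.mul_mem (K.prod_mem fun k _ => hg _ _) (hw J')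

theorem det_mem {u : ℕ} {K : IntermediateField ℚ ℂ} {M : Matrix (Fin u) (Fin u) ℂ}
    (hM : ∀ i j, M i j ∈ K) : M.det ∈ K := by
  rw [Matrix.det_apply]
  refine K.sum_mem fun σ _ => ?_
  have h1 : ∏ i, M (σ i) i ∈ K := K.prod_mem fun i _ => hM _ _
  rcases Int.units_eq_one_or (Equiv.Perm.sign σ) with h | h
  · rw [h, one_smul]
    exact h1
  · rw [h, Units.neg_smul, one_smul]
    exact K.neg_mem h1

variable [DecidableEq ι]

theorem ta_diag (s : ι → ℂ) (w : (κ → ι) → ℂ) (J : κ → ι) :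
    ta (diagonal s) w J = (∏ k, s (J k)) * w J := by
  classical
  rw [ta_apply, Finset.sum_eq_single J]
  · simp
  · intro J' _ hJ
    have : ∃ k, J k ≠ J' k := by
      by_contra hcon
      push Not at hcon
      exact hJ (funext hcon).symm
    obtain ⟨k, hk⟩ := this
    have h1 : ∏ k, (diagonal s) (J k) (J' k) = 0 :=
      Finset.prod_eq_zero (Finset.mem_univ k) (diagonal_apply_ne _ hk)
    rw [h1, zero_mul]
  · intro h
    exact absurd (Finset.mem_univ J) h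

theorem ta_inv_ta (g : GL ι ℂ) (w : (κ → ι) → ℂ) : ta g⁻¹.1 (ta g.1 w) = w := by
  rw [← ta_mul, ← Units.val_mul, inv_mul_cancel, Units.val_one, ta_one]

theorem ta_ta_inv (g : GL ι ℂ) (w : (κ → ι) → ℂ) : ta g.1 (ta g⁻¹.1 w) = w := by
  rw [← ta_mul, ← Units.val_mul, mul_inv_cancel, Units.val_one, ta_one]

theorem ta_gl_mul (g h : GL ι ℂ) (w : (κ → ι) → ℂ) : ta (g * h).1 w = ta g.1 (ta h.1 w) := by
  rw [Units.val_mul, ta_mul]

/-- the action of an invertible matrix -/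
def taE (g : GL ι ℂ) : ((κ → ι) → ℂ) ≃ₗ[ℂ] ((κ → ι) → ℂ) :=
  { ta g.1 with
    invFun := ta g⁻¹.1
    left_inv := ta_inv_ta g
    right_inv := ta_ta_inv g }

theorem taE_apply (g : GL ι ℂ) (w : (κ → ι) → ℂ) : taE g w = ta g.1 w := rfl

/-- bases with coordinates in `K` -/
theorem basisK {J : Type} [Fintype J] (K : IntermediateField ℚ ℂ) (N : Submodule ℂ (J → ℂ))
    (hN : ∀ τ : ℂ ≃+* ℂ, FixesField K τ → ∀ v ∈ N, (fun j => τ (v j)) ∈ N) (u : ℕ)
    (hu : Module.finrank ℂ N = u) :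
    ∃ e : Fin u → J → ℂ, (∀ a j, e a j ∈ K) ∧ LinearIndependent ℂ e ∧
      Submodule.span ℂ (Set.range e) = N := by
  obtain ⟨κ, _, _, a, w, hwN, hwa, hv⟩ := exists_pivot N
  have hK : ∀ p j, w p j ∈ K := by
    intro p j
    refine mem_of_fixed fun τ hτ => ?_
    have h1 := hv _ (hN τ hτ _ (hwN p))
    have h2 : (∑ p', τ (w p (a p')) • w p') = w p := by
      simp only [hwa]
      rw [Finset.sum_eq_single p]
      · simp
      · intro b _ hb
        rw [if_neg (Ne.symm hb)]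
        simp
      · intro h
        exact absurd (Finset.mem_univ _) h
    rw [h2] at h1
    exact congrFun h1 j
  have hli : LinearIndependent ℂ w := by
    rw [Fintype.linearIndependent_iff]
    intro c hc p'
    have h1 := congrFun hc (a p')
    simp only [Finset.sum_apply, Pi.smul_apply, smul_eq_mul, hwa, Pi.zero_apply] at h1
    rw [Finset.sum_eq_single p'] at h1
    · simpa using h1
    · intro b _ hb
      rw [if_neg hb, mul_zero]
    · intro h
      exact absurd (Finset.mem_univ _) h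
  have hspan : Submodule.span ℂ (Set.range w) = N := by
    apply le_antisymm
    · rw [Submodule.span_le]
      rintro _ ⟨p, rfl⟩
      exact hwN p
    · intro v hv'
      rw [hv v hv']
      exact Submodule.sum_mem _ fun p _ => Submodule.smul_mem _ _ (Submodule.subset_span ⟨p, rfl⟩)
  have hcard : Fintype.card κ = u := by
    rw [← hu, ← hspan, finrank_span_eq_card hli]
  have hcard' : Fintype.card κ = Fintype.card (Fin u) := by rw [hcard, Fintype.card_fin]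
  let E : κ ≃ Fin u := Fintype.equivOfCardEq hcard'
  refine ⟨w ∘ E.symm, fun b j => hK _ _, hli.comp _ E.symm.injective, ?_⟩
  rw [Set.range_comp, E.symm.range_eq_univ, Set.image_univ, hspan]

omit [Fintype ι] [DecidableEq ι] in
theorem cx_skew {ψ : Matrix ι ι ℚ} (h : ψᵀ = -ψ) : (cx ψ)ᵀ = -cx ψ := by
  ext i j
  have := congrFun (congrFun h i) j
  simp only [Matrix.transpose_apply, Matrix.neg_apply] at this
  simp only [cx, Matrix.transpose_apply, Matrix.map_apply, Matrix.neg_apply, this]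
  push_cast
  ring

theorem cx_det (ψ : Matrix ι ι ℚ) : (cx ψ).det = ((ψ.det : ℚ) : ℂ) := by
  have := (RingHom.map_det (algebraMap ℚ ℂ) ψ)
  rw [eq_comm] at this
  exact this

theorem mem_K_rat {K : IntermediateField ℚ ℂ} (q : ℚ) : (q : ℂ) ∈ K := K.algebraMap_mem q

omit [DecidableEq ι] in
theorem mul_mem {K : IntermediateField ℚ ℂ} {A B : Matrix ι ι ℂ} (hA : ∀ i j, A i j ∈ K)
    (hB : ∀ i j, B i j ∈ K) (i j : ι) : (A * B) i j ∈ K := by
  rw [Matrix.mul_apply]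
  exact K.sum_mem fun k _ => K.mul_mem (hA _ _) (hB _ _)

end StM

open StM in
open CorM (ta_mul ta_one ta_apply) in
theorem specSt (hPl : SpecPl) (hCore : SpecCore) (hKer : SpecKer) (hNc : SpecNc) : SpecSt := by
  classical
  intro ι _ _ ψ₀ ψ C₀ P Q s ϖ hψ₀ hψ hd₀ hd hϖ hC hPQ hPalg hQalg hij
  -- invertibility
  have hdetC : C₀.1.det ≠ 0 := by
    have h1 : C₀.1 * C₀⁻¹.1 = 1 := C₀.mul_inv
    have h2 := congrArg Matrix.det h1
    rw [Matrix.det_mul, Matrix.det_one] at h2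
    intro h
    rw [h, zero_mul] at h2
    exact zero_ne_one h2
  have hdets : P.det ≠ 0 ∧ (∏ i, s i) ≠ 0 ∧ Q.det ≠ 0 := by
    rw [hPQ, Matrix.det_mul, Matrix.det_mul, Matrix.det_diagonal] at hdetC
    refine ⟨fun h => ?_, fun h => ?_, fun h => ?_⟩ <;> rw [h] at hdetC <;> simp at hdetC
  obtain ⟨hP, hsp, hQ⟩ := hdets
  have hs : ∀ i, s i ≠ 0 := fun i => Finset.prod_ne_zero_iff.1 hsp i (Finset.mem_univ i)
  let Pg : GL ι ℂ := Matrix.GeneralLinearGroup.mkOfDetNeZero P hP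
  let Qg : GL ι ℂ := Matrix.GeneralLinearGroup.mkOfDetNeZero Q hQ
  have hPg : Pg.1 = P := rfl
  have hQg : Qg.1 = Q := rfl
  -- the field `K₀`
  let S : Set ℂ := (Set.range fun p : ι × ι => P p.1 p.2) ∪ (Set.range fun p : ι × ι => Q p.1 p.2) ∪
    ((Set.range fun p : ι × ι => s p.1 / s p.2) ∩ Qbar)
  have hSfin : S.Finite := ((Set.finite_range _).union (Set.finite_range _)).union
    ((Set.finite_range _).inter_of_left _)
  have hSalg : ∀ x ∈ S, x ∈ Qbar := by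
    rintro x ((⟨p, rfl⟩ | ⟨p, rfl⟩) | ⟨_, h⟩)
    · exact hPalg _ _
    · exact hQalg _ _
    · exact h
  let K₀ : IntermediateField ℚ ℂ := IntermediateField.adjoin ℚ S
  have : Finite S := hSfin
  have hK₀ : FiniteDimensional ℚ K₀ := IntermediateField.finiteDimensional_adjoin fun x hx =>
    (mem_algebraicClosure_iff.1 (hSalg x hx)).isIntegral
  have hSK : ∀ x ∈ S, x ∈ K₀ := fun x hx => IntermediateField.subset_adjoin ℚ S hx
  refine ⟨Module.finrank ℚ K₀, ?_⟩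
  intro m K hK y hRel R hR T hT hcT U hU1 hU2 h hh w hw
  -- the field `K'`
  let K' : IntermediateField ℚ ℂ := K ⊔ K₀
  have hK'fin : FiniteDimensional ℚ K' := IntermediateField.finiteDimensional_sup K K₀
  have hK'le : Module.finrank ℚ K' ≤ Module.finrank ℚ K * Module.finrank ℚ K₀ :=
    IntermediateField.finrank_sup_le K K₀
  have hKK' : ∀ x ∈ K, x ∈ K' := fun x hx => (le_sup_left : K ≤ K ⊔ K₀) hx
  have hK₀K' : ∀ x ∈ K₀, x ∈ K' := fun x hx => (le_sup_right : K₀ ≤ K ⊔ K₀) hx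
  have hPK : ∀ i j, P i j ∈ K' := fun i j => hK₀K' _ (hSK _ (Or.inl (Or.inl ⟨(i, j), rfl⟩)))
  have hQK : ∀ i j, Q i j ∈ K' := fun i j => hK₀K' _ (hSK _ (Or.inl (Or.inr ⟨(i, j), rfl⟩)))
  have hPiK : ∀ i j, Pg⁻¹.1 i j ∈ K' := by
    intro i j
    have h1 : Pg⁻¹.1 = P⁻¹ := by
      rw [Matrix.coe_units_inv]
      rfl
    rw [h1]
    exact NcM.inv_mem hPK i j
  have hQiK : ∀ i j, Qg⁻¹.1 i j ∈ K' := by
    intro i j
    have h1 : Qg⁻¹.1 = Q⁻¹ := by
      rw [Matrix.coe_units_inv]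
      rfl
    rw [h1]
    exact NcM.inv_mem hQK i j
  -- the subspace `U'`
  set c : GL ι ℂ := C₀ * y * R with hc
  let U' : Submodule ℂ ((Fin m → ι) → ℂ) := U.comap (ta c.1)
  have hU' : ∀ τ : ℂ ≃+* ℂ, FixesField K τ → ∀ v ∈ U', (fun J => τ (v J)) ∈ U' := by
    intro τ hτ v hv
    change ta c.1 (fun J => τ (v J)) ∈ U
    have hv' : ta c.1 v ∈ U := hv
    have h1 := hU2 τ hτ _ hv'
    rw [ta_map] at h1
    have h2 : (tw τ c).1 = c.1.map τ := rfl
    rw [← h2] at h1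
    have h3 : c * (tw τ c)⁻¹ ∈ grp T := ⟨c, hcT, tw τ c, hT.closed.tw_mem hτ hcT, rfl⟩
    have h4 := hU1 _ h3 _ h1
    rw [← ta_gl_mul, inv_mul_cancel_right] at h4
    exact h4
  have hUmap : U'.map (taE (κ := Fin m) c).toLinearMap = U := by
    ext v
    constructor
    · rintro ⟨v', hv', rfl⟩
      exact hv'
    · intro hv
      refine ⟨ta c⁻¹.1 v, ?_, ta_ta_inv c v⟩
      change ta c.1 (ta c⁻¹.1 v) ∈ U
      rw [ta_ta_inv]
      exact hv
  set u := Module.finrank ℂ U with hu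
  have hu' : Module.finrank ℂ U' = u := by
    rw [hu, ← hUmap]
    exact (LinearEquiv.finrank_map_eq (taE c) U').symm
  obtain ⟨e, heK, heli, hespan⟩ := basisK K U' hU' u hu'
  obtain ⟨f, hfK, hfli, hfspan⟩ := basisK K U hU2 u rfl
  have hule : u ≤ Fintype.card ι ^ m := by
    have h1 := Submodule.finrank_le U
    rw [Module.finrank_fintype_fun_eq_card, Fintype.card_fun, Fintype.card_fin] at h1
    exact h1
  -- `e'` and its Plücker coordinates
  set e' : Fin u → (Fin m → ι) → ℂ := fun a => ta R.1 (e a) with he'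
  have he'K : ∀ a J, e' a J ∈ K := fun a J => ta_mem hR (heK a) J
  have hplK : ∀ J, pl e' J ∈ K' := fun J => hKK' _ (det_mem fun a b => he'K a _)
  set α : (Fin u × Fin m → ι) → K' := fun J => ⟨pl e' J, hplK J⟩ with hα
  have hαe : (fun I => (α I : ℂ)) = pl e' := rfl
  -- `L`
  have hL : ∀ a, ∃ L : Fin u → ℂ, ∑ b, L b • f b = ta (C₀ * y).1 (e' a) := by
    intro a
    apply (Submodule.mem_span_range_iff_exists_fun ℂ).1
    rw [hfspan]
    have h1 : e a ∈ U' := by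
      rw [← hespan]
      exact Submodule.subset_span ⟨a, rfl⟩
    have h2 : ta (C₀ * y).1 (e' a) = ta c.1 (e a) := by
      rw [he', hc, ta_gl_mul (C₀ * y) R]
    rw [h2]
    exact h1
  choose L hL using hL
  have hplL : ta (C₀ * y).1 (pl e') = (Matrix.of L).det • pl f := by
    rw [(hPl ι (Fin m) u).1, ← (hPl ι (Fin m) u).2.1]
    congr 1
    funext a
    exact (hL a).symm
  -- `b`
  set b : (Fin u × Fin m → ι) → ℂ := ta (Q * y.1) (pl e') with hb
  set a' : (Fin u × Fin m → ι) → ℂ := ta Pg⁻¹.1 (pl f) with ha'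
  have ha'K : ∀ J, a' J ∈ K' := fun J => ta_mem hPiK (fun J => hKK' _ (det_mem fun a b => hfK a _)) J
  have hsb : ∀ J, (∏ k, s (J k)) * b J = (Matrix.of L).det * a' J := by
    intro J
    rw [← ta_diag]
    have h1 : ta (diagonal s) b = (Matrix.of L).det • a' := by
      have h2 : ta P (ta (diagonal s) b) = ta (C₀ * y).1 (pl e') := by
        rw [hb, ← ta_mul, ← ta_mul, Units.val_mul, hPQ]
        congr 1
        simp only [Matrix.mul_assoc]
      rw [hplL] at h2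
      have h3 := congrArg (ta (κ := Fin u × Fin m) Pg⁻¹.1) h2
      rw [← hPg, ta_inv_ta, map_smul] at h3
      exact h3
    rw [h1]
    rfl
  have hratio : ∀ J J' : Fin u × Fin m → ι, (∀ k, s (J k) / s (J' k) ∈ K') → b J' ≠ 0 →
      b J / b J' ∈ K' := by
    intro J J' hJJ hbJ'
    have h1 := hsb J
    have h2 := hsb J'
    have hsJ : (∏ k, s (J k)) ≠ 0 := Finset.prod_ne_zero_iff.2 fun k _ => hs _
    have hsJ' : (∏ k, s (J' k)) ≠ 0 := Finset.prod_ne_zero_iff.2 fun k _ => hs _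
    have h3 : (Matrix.of L).det * a' J' ≠ 0 := by
      rw [← h2]
      exact mul_ne_zero hsJ' hbJ'
    have h4 := left_ne_zero_of_mul h3
    have h5 := right_ne_zero_of_mul h3
    have h6 : b J / b J' = a' J / a' J' * (∏ k, s (J k) / s (J' k))⁻¹ := by
      rw [Finset.prod_div_distrib]
      have e1 : b J = (Matrix.of L).det * a' J / ∏ k, s (J k) := by
        rw [eq_div_iff hsJ, mul_comm]
        exact h1
      have e2 : b J' = (Matrix.of L).det * a' J' / ∏ k, s (J' k) := by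
        rw [eq_div_iff hsJ', mul_comm]
        exact h2
      rw [e1, e2]
      field_simp
    rw [h6]
    exact K'.mul_mem (K'.div_mem (ha'K J) (ha'K J')) (K'.inv_mem (K'.prod_mem fun k _ => hJJ k))
  -- relations
  have hrel : HasRel K' (Fintype.card (Fin u × Fin m)) y.1 (cx ψ₀) := by
    apply hRel _ _ K' hK'fin hK'le
    rw [Fintype.card_prod, Fintype.card_fin, Fintype.card_fin]
    exact Nat.mul_le_mul_right _ hule
  -- block diagonal isometries
  have hψ₀' := cx_skew hψ₀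
  have hd₀' : (cx ψ₀).det ≠ 0 := by
    rw [cx_det]
    exact_mod_cast hd₀
  set A : Matrix ι ι ℂ := (Qg⁻¹.1)ᵀ * cx ψ₀ * Qg⁻¹.1 with hA
  set A' : Matrix ι ι ℂ := Pᵀ * cx ψ * P with hA'
  have hQQ : Qg.1 * Qg⁻¹.1 = 1 := Qg.mul_inv
  have hQQ' : Qg⁻¹.1 * Qg.1 = 1 := Qg.inv_mul
  have hQT : Qg.1ᵀ * Qg⁻¹.1ᵀ = 1 := by rw [← Matrix.transpose_mul, hQQ', Matrix.transpose_one]
  have hQT' : Qg⁻¹.1ᵀ * Qg.1ᵀ = 1 := by rw [← Matrix.transpose_mul, hQQ, Matrix.transpose_one]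
  have hψA : Qg.1ᵀ * A * Qg.1 = cx ψ₀ := by
    rw [hA]
    calc Qg.1ᵀ * (Qg⁻¹.1ᵀ * cx ψ₀ * Qg⁻¹.1) * Qg.1
        = (Qg.1ᵀ * Qg⁻¹.1ᵀ) * cx ψ₀ * (Qg⁻¹.1 * Qg.1) := by simp only [Matrix.mul_assoc]
      _ = cx ψ₀ := by rw [hQT, hQQ', Matrix.one_mul, Matrix.mul_one]
  have hdgA : diagonal s * A' * diagonal s = ϖ • A := by
    have h1 : Qg.1ᵀ * (diagonal s * A' * diagonal s) * Qg.1 = ϖ • cx ψ₀ := by
      rw [← hC, hPQ, hA', hQg, Matrix.transpose_mul, Matrix.transpose_mul,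
        Matrix.diagonal_transpose]
      simp only [Matrix.mul_assoc]
    calc diagonal s * A' * diagonal s
        = (Qg⁻¹.1ᵀ * Qg.1ᵀ) * (diagonal s * A' * diagonal s) * (Qg.1 * Qg⁻¹.1) := by
          rw [hQT', hQQ, Matrix.one_mul, Matrix.mul_one]
      _ = Qg⁻¹.1ᵀ * (Qg.1ᵀ * (diagonal s * A' * diagonal s) * Qg.1) * Qg⁻¹.1 := by
          simp only [Matrix.mul_assoc]
      _ = ϖ • A := by
          rw [h1, hA, Matrix.mul_smul, Matrix.smul_mul]
  have hAe : ∀ i j, s i * A' i j * s j = ϖ * A i j := by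
    intro i j
    have h1 := congrFun (congrFun hdgA i) j
    rw [Matrix.mul_diagonal, Matrix.diagonal_mul] at h1
    exact h1
  have hAskew : Aᵀ = -A := by
    rw [hA, Matrix.transpose_mul, Matrix.transpose_mul, hψ₀', Matrix.transpose_transpose]
    simp only [Matrix.neg_mul, Matrix.mul_neg, Matrix.mul_assoc]
  have hAdet : A.det ≠ 0 := by
    have h1 := congrArg Matrix.det hψA
    rw [Matrix.det_mul, Matrix.det_mul] at h1
    intro h2
    rw [h2, mul_zero, zero_mul] at h1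
    exact hd₀' h1.symm
  have hcxK : ∀ (φ : Matrix ι ι ℚ) i j, cx φ i j ∈ K' := fun φ i j => mem_K_rat _
  have hAK : ∀ i j, A i j ∈ K' :=
    mul_mem (mul_mem (fun i j => hQiK j i) (hcxK ψ₀)) hQiK
  have hA'K : ∀ i j, A' i j ∈ K' :=
    mul_mem (mul_mem (fun i j => hPK j i) (hcxK ψ)) hPK
  have hijK : ∃ i j, i ≠ j ∧ s i / s j ∈ K' := by
    obtain ⟨i, j, hne, h1⟩ := hij
    exact ⟨i, j, hne, hK₀K' _ (hSK _ (Or.inr ⟨⟨(i, j), rfl⟩, h1⟩))⟩
  obtain ⟨m₁, hm₁, m₂, hm₂, hs₁, hs₂, hnon⟩ := hNc ι A A' s ϖ K' hAskew hAdet hAK hA'K hϖ hs hAe hijK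
  have hconj : ∀ k ∈ spG A, Qg⁻¹ * k * Qg ∈ spG (cx ψ₀) := by
    intro k hk
    have hk' : k.1ᵀ * A * k.1 = A := hk
    change (Qg⁻¹ * k * Qg).1ᵀ * cx ψ₀ * (Qg⁻¹ * k * Qg).1 = cx ψ₀
    rw [Units.val_mul, Units.val_mul, Matrix.transpose_mul, Matrix.transpose_mul]
    calc Qg.1ᵀ * (k.1ᵀ * Qg⁻¹.1ᵀ) * cx ψ₀ * (Qg⁻¹.1 * k.1 * Qg.1)
        = Qg.1ᵀ * (k.1ᵀ * (Qg⁻¹.1ᵀ * cx ψ₀ * Qg⁻¹.1) * k.1) * Qg.1 := by
          simp only [Matrix.mul_assoc]
      _ = cx ψ₀ := by rw [← hA, hk', hψA]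
  set l₁ := Qg⁻¹ * m₁ * Qg with hl₁
  set l₂ := Qg⁻¹ * m₂ * Qg with hl₂
  have hb₁ : Qg * l₁ * Qg⁻¹ = m₁ := by rw [hl₁]; group
  have hb₂ : Qg * l₂ * Qg⁻¹ = m₂ := by rw [hl₂]; group
  have hcomm := hCore ι (Fin u × Fin m) K' y Qg (cx ψ₀) s α hrel hQK hs
    (fun J J' hJJ hJ' => hratio J J' hJJ hJ') l₁ (hconj m₁ hm₁) l₂ (hconj m₂ hm₂)
    (by rw [hb₁]; exact hs₁) (by rw [hb₂]; exact hs₂)
  set l := l₁ * l₂ * l₁⁻¹ * l₂⁻¹ with hl
  have hlsp : l ∈ spG (cx ψ₀) :=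
    (spG (cx ψ₀)).mul_mem ((spG (cx ψ₀)).mul_mem ((spG (cx ψ₀)).mul_mem (hconj m₁ hm₁)
      (hconj m₂ hm₂)) ((spG (cx ψ₀)).inv_mem (hconj m₁ hm₁))) ((spG (cx ψ₀)).inv_mem (hconj m₂ hm₂))
  have hlns : ∀ t : ℂ, l.1 ≠ t • 1 := by
    intro t ht
    apply hnon t
    have h1 : m₁ * m₂ * m₁⁻¹ * m₂⁻¹ = Qg * l * Qg⁻¹ := by
      rw [hl, hl₁, hl₂]
      group
    rw [h1, Units.val_mul, Units.val_mul, ht, Matrix.mul_smul, Matrix.mul_one, Matrix.smul_mul,
      hQQ]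
  -- KER
  let Uα : Submodule ℂ ((Fin u × Fin m → ι) → ℂ) :=
    Submodule.span ℂ {w | ∃ g ∈ spG (cx ψ₀), w = ta (g * y).1 (pl e')}
  have hUα1 : ∀ g ∈ spG (cx ψ₀), ∀ w ∈ Uα, ta g.1 w ∈ Uα := by
    intro g hg w hw
    induction hw using Submodule.span_induction with
    | mem x hx =>
      obtain ⟨g', hg', rfl⟩ := hx
      rw [← ta_gl_mul, ← mul_assoc]
      exact Submodule.subset_span ⟨g * g', (spG (cx ψ₀)).mul_mem hg hg', rfl⟩
    | zero => rw [map_zero]; exact Submodule.zero_mem _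
    | add x y _ _ hx hy => rw [map_add]; exact Submodule.add_mem _ hx hy
    | smul a x _ hx => rw [map_smul]; exact Submodule.smul_mem _ _ hx
  have hUα2 : ∀ w ∈ Uα, ta l.1 w = w := by
    intro w hw
    induction hw using Submodule.span_induction with
    | mem x hx =>
      obtain ⟨g', hg', rfl⟩ := hx
      rw [← ta_gl_mul, ← mul_assoc]
      exact hcomm g' hg'
    | zero => rw [map_zero]
    | add x y _ _ hx hy => rw [map_add, hx, hy]
    | smul a x _ hx => rw [map_smul, hx]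
  have hker := hKer ι (Fin u × Fin m) (cx ψ₀) hψ₀' hd₀' Uα hUα1 l hlsp hlns hUα2
  have hfix : ∀ g ∈ spG (cx ψ₀), ta (g * y).1 (pl e') = ta y.1 (pl e') := by
    intro g hg
    rw [ta_gl_mul]
    apply hker g hg
    apply Submodule.subset_span
    exact ⟨1, (spG (cx ψ₀)).one_mem, by rw [one_mul]⟩
  -- the final step
  have he'li : ∀ g : GL ι ℂ, LinearIndependent ℂ fun a => ta g.1 (e' a) := by
    intro g
    have h1 : (fun a => ta g.1 (e' a)) = fun a => (taE (κ := Fin m) (g * R)) (e a) := by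
      funext a
      rw [taE_apply, ta_gl_mul]
    rw [h1]
    exact heli.map' _ (LinearEquiv.ker (taE (κ := Fin m) (g * R)))
  have hspan : ∀ g ∈ spG (cx ψ₀), Submodule.span ℂ (Set.range fun a => ta (g * y).1 (e' a))
      = Submodule.span ℂ (Set.range fun a => ta y.1 (e' a)) := by
    intro g hg
    apply (hPl ι (Fin m) u).2.2 _ _ (he'li (g * y)) (he'li y)
    have e1 := (hPl ι (Fin m) u).1 (g * y).1 e'
    have e2 := (hPl ι (Fin m) u).1 y.1 e'
    rw [← e1, ← e2]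
    exact hfix g hg
  have hstab : ∀ g ∈ spG (cx ψ₀), ∀ v ∈ Submodule.span ℂ (Set.range fun a => ta y.1 (e' a)),
      ta g.1 v ∈ Submodule.span ℂ (Set.range fun a => ta y.1 (e' a)) := by
    intro g hg v hv
    rw [← hspan g hg]
    induction hv using Submodule.span_induction with
    | mem x hx =>
      obtain ⟨a, rfl⟩ := hx
      apply Submodule.subset_span
      exact ⟨a, ta_gl_mul g y (e' a)⟩
    | zero => rw [map_zero]; exact Submodule.zero_mem _
    | add x y _ _ hx hy => rw [map_add]; exact Submodule.add_mem _ hx hy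
    | smul a x _ hx => rw [map_smul]; exact Submodule.smul_mem _ _ hx
  have hUeq : ∀ v, v ∈ U ↔ ta C₀⁻¹.1 v ∈ Submodule.span ℂ (Set.range fun a => ta y.1 (e' a)) := by
    intro v
    have h1 : U = (Submodule.span ℂ (Set.range fun a => ta y.1 (e' a))).map (taE (κ := Fin m) C₀).toLinearMap := by
      rw [← hUmap, ← hespan, Submodule.map_span, Submodule.map_span]
      congr 1
      ext x
      simp only [Set.mem_image, Set.mem_range, exists_exists_eq_and]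
      refine exists_congr fun a => ?_
      change ta c.1 (e a) = x ↔ ta C₀.1 (ta y.1 (e' a)) = x
      rw [he', hc, ta_gl_mul, ta_gl_mul]
    constructor
    · intro hv
      rw [h1] at hv
      obtain ⟨v', hv', rfl⟩ := hv
      change ta C₀⁻¹.1 (ta C₀.1 v') ∈ _
      rw [ta_inv_ta]
      exact hv'
    · intro hv
      rw [h1]
      exact ⟨_, hv, ta_ta_inv C₀ v⟩
  have hg : C₀⁻¹ * h * C₀ ∈ spG (cx ψ₀) := by
    have hh' : h.1ᵀ * cx ψ * h.1 = cx ψ := hh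
    change (C₀⁻¹ * h * C₀).1ᵀ * cx ψ₀ * (C₀⁻¹ * h * C₀).1 = cx ψ₀
    have hCC : C₀.1 * C₀⁻¹.1 = 1 := C₀.mul_inv
    have hCT : C₀⁻¹.1ᵀ * C₀.1ᵀ = 1 := by rw [← Matrix.transpose_mul, hCC, Matrix.transpose_one]
    have h1 : C₀⁻¹.1ᵀ * (ϖ • cx ψ₀) * C₀⁻¹.1 = cx ψ := by
      rw [← hC]
      calc C₀⁻¹.1ᵀ * (C₀.1ᵀ * cx ψ * C₀.1) * C₀⁻¹.1
          = (C₀⁻¹.1ᵀ * C₀.1ᵀ) * cx ψ * (C₀.1 * C₀⁻¹.1) := by simp only [Matrix.mul_assoc]
        _ = cx ψ := by rw [hCT, hCC, Matrix.one_mul, Matrix.mul_one]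
    have h2 : (C₀⁻¹ * h * C₀).1ᵀ * (ϖ • cx ψ₀) * (C₀⁻¹ * h * C₀).1 = ϖ • cx ψ₀ := by
      rw [Units.val_mul, Units.val_mul, Matrix.transpose_mul, Matrix.transpose_mul]
      calc C₀.1ᵀ * (h.1ᵀ * C₀⁻¹.1ᵀ) * (ϖ • cx ψ₀) * (C₀⁻¹.1 * h.1 * C₀.1)
          = C₀.1ᵀ * (h.1ᵀ * (C₀⁻¹.1ᵀ * (ϖ • cx ψ₀) * C₀⁻¹.1) * h.1) * C₀.1 := by
            simp only [Matrix.mul_assoc]
        _ = ϖ • cx ψ₀ := by rw [h1, hh', hC]
    rw [Matrix.mul_smul, Matrix.smul_mul] at h2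
    exact smul_right_injective _ hϖ h2
  rw [hUeq] at hw ⊢
  have h1 := hstab _ hg _ hw
  have h2 : ta (C₀⁻¹ * h * C₀).1 (ta C₀⁻¹.1 w) = ta C₀⁻¹.1 (ta h.1 w) := by
    rw [← ta_gl_mul, ← ta_gl_mul]
    congr 2
    group
  rw [h2] at h1
  exact h1

end Pool.Agent.Lib.MPf11a48.CF
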