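import Pool.Agent.Lib.MP_f11a48_ag.CF.Spec
import Pool.Agent.Lib.MP_f11a48_ag.GF.Qua
import Pool.Agent.Lib.MP_f11a48_ag.GF.Eval

/-!
# The form on the fibres
-/

set_option autoImplicit false

namespace Pool.Agent.Lib.MPf11a48.CF.PolM

open Polynomial Matrix
open scoped PowerSeries
open Pool.Agent.Lib.MPf11a48.GF Pool.Agent.Lib.MPf11a48.GF.EstM
open Pool.Agent.Lib.MPf11a48.K3 (cx)

/-- monotonicity of the condition on `a / b` -/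
theorem mono {C C' : ℕ} (h : C' ≤ C) {a b : ℤ} (ha : a ≠ 0) (hb : (C : ℤ) * |a| ^ C ≤ b) :
    (C' : ℤ) * |a| ^ C' ≤ b := by
  have ha1 : (1 : ℤ) ≤ |a| := Int.one_le_abs ha
  refine le_trans ?_ hb
  have h1 : |a| ^ C' ≤ |a| ^ C := pow_le_pow_right₀ ha1 h
  have h2 : (C' : ℤ) ≤ C := by exact_mod_cast h
  exact mul_le_mul h2 h1 (by positivity) (by positivity)

theorem pos {C : ℕ} (hC : 1 ≤ C) {a b : ℤ} (ha : a ≠ 0) (hb : (C : ℤ) * |a| ^ C ≤ b) : 0 < b := by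
  refine lt_of_lt_of_le ?_ hb
  have : (0 : ℤ) < C := by exact_mod_cast hC
  have : (0 : ℤ) < |a| := abs_pos.mpr ha
  positivity

theorem small {C : ℕ} (hC : 1 ≤ C) {a b : ℤ} (ha : a ≠ 0) (hb : (C : ℤ) * |a| ^ C ≤ b) :
    (C : ℚ) * |(a : ℚ) / b| ≤ 1 := by
  have hb0 := pos hC ha hb
  have ha1 : (1 : ℤ) ≤ |a| := Int.one_le_abs ha
  have h1 : (C : ℤ) * |a| ≤ b := by
    refine le_trans ?_ hb
    have : |a| ≤ |a| ^ C := by
      calc |a| = |a| ^ 1 := (pow_one _).symm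
        _ ≤ |a| ^ C := pow_le_pow_right₀ ha1 hC
    exact mul_le_mul_of_nonneg_left this (by positivity)
  have hb' : (0 : ℚ) < (b : ℚ) := by exact_mod_cast hb0
  rw [abs_div, abs_of_pos hb', mul_div_assoc', div_le_one hb', ← Int.cast_abs]
  exact_mod_cast h1

theorem smallC {C : ℕ} (hC : 1 ≤ C) {a b : ℤ} (ha : a ≠ 0) (hb : (C : ℤ) * |a| ^ C ≤ b) :
    (C : ℝ) * ‖((a : ℂ) / b)‖ ≤ 1 := by
  have h1 := small hC ha hb
  have h2 : ‖((a : ℂ) / b)‖ = ((|(a : ℚ) / b| : ℚ) : ℝ) := by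
    rw [norm_div, Complex.norm_intCast, Complex.norm_intCast]
    push_cast
    rw [abs_div]
  rw [h2]
  exact_mod_cast h1

variable {ι : Type} [Fintype ι] [DecidableEq ι]

/-- absolute convergence of the entries -/
theorem exists_sm {Y : Matrix ι ι ℚ⟦X⟧} (hE : SpecEval) (hY : ∀ k, IsG (Y k)) :
    ∃ C : ℕ, 1 ≤ C ∧ ∀ a b : ℤ, a ≠ 0 → (C : ℤ) * |a| ^ C ≤ b →
      ∀ i j, Sm (Y i j) ((a : ℂ) / b) := by
  choose c hc using hY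
  refine ⟨2 * (∑ k, c k) + 1, by omega, fun a b ha hb i j => ?_⟩
  have hs := smallC (by omega) ha hb
  have hle : c i ≤ ∑ k, c k := Finset.single_le_sum (f := c) (fun _ _ => Nat.zero_le _)
    (Finset.mem_univ i)
  refine hE.1 _ (c i) _ (fun n => ?_) ?_
  · obtain ⟨q, -, -, -, hq⟩ := hc i n
    exact hq j
  · refine le_trans (mul_le_mul_of_nonneg_right ?_ (norm_nonneg _)) hs
    have : ((c i : ℕ) : ℝ) ≤ ((∑ k, c k : ℕ) : ℝ) := by exact_mod_cast hle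
    push_cast at this ⊢
    linarith

theorem sm_C (hE : SpecEval) (q : ℚ) (z : ℂ) : Sm (PowerSeries.C q) z ∧
    pval (PowerSeries.C q) z = (q : ℂ) := by
  have h := hE.2.2.1 (Polynomial.C q) z
  rw [Polynomial.coe_C] at h
  refine ⟨h.1, ?_⟩
  rw [h.2, Polynomial.aeval_C]
  rfl

theorem sm_mul (hE : SpecEval) {f g : ℚ⟦X⟧} {z : ℂ} (hf : Sm f z) (hg : Sm g z) :
    Sm (f * g) z ∧ pval (f * g) z = pval f z * pval g z :=
  ⟨(hE.2.1 f g z hf hg).2.2, (hE.2.1 f g z hf hg).2.1⟩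

/-- the value of `(Yᵀ ψ Y) i j` -/
theorem pval_form (hE : SpecEval) (Y : Matrix ι ι ℚ⟦X⟧) (ψ : Matrix ι ι ℚ) (z : ℂ)
    (h : ∀ i j, Sm (Y i j) z) (i j : ι) :
    Sm ((Yᵀ * ψ.map (PowerSeries.C : ℚ →+* ℚ⟦X⟧) * Y) i j) z ∧
    pval ((Yᵀ * ψ.map (PowerSeries.C : ℚ →+* ℚ⟦X⟧) * Y) i j) z =
      ((vm Y z)ᵀ * cx ψ * vm Y z) i j := by
  have e1 : (Yᵀ * ψ.map (PowerSeries.C : ℚ →+* ℚ⟦X⟧) * Y) i j =
      ∑ l, ∑ k, Y k i * PowerSeries.C (ψ k l) * Y l j := by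
    simp only [Matrix.mul_apply, Matrix.transpose_apply, Matrix.map_apply, Finset.sum_mul]
  have e2 : ((vm Y z)ᵀ * cx ψ * vm Y z) i j =
      ∑ l, ∑ k, pval (Y k i) z * ((ψ k l : ℚ) : ℂ) * pval (Y l j) z := by
    simp only [Matrix.mul_apply, Matrix.transpose_apply, Finset.sum_mul]
    rfl
  have h3 : ∀ k l, Sm (Y k i * PowerSeries.C (ψ k l) * Y l j) z ∧
      pval (Y k i * PowerSeries.C (ψ k l) * Y l j) z =
        pval (Y k i) z * ((ψ k l : ℚ) : ℂ) * pval (Y l j) z := by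
    intro k l
    obtain ⟨h4, h5⟩ := sm_C hE (ψ k l) z
    obtain ⟨h6, h7⟩ := sm_mul hE (h k i) h4
    obtain ⟨h8, h9⟩ := sm_mul hE h6 (h l j)
    exact ⟨h8, by rw [h9, h7, h5]⟩
  rw [e1, e2]
  have h4 : ∀ l, Sm (∑ k, Y k i * PowerSeries.C (ψ k l) * Y l j) z :=
    fun l => Sm.sum _ fun k _ => (h3 k l).1
  refine ⟨Sm.sum _ fun l _ => h4 l, ?_⟩
  rw [pval_sum hE _ fun l _ => h4 l]
  refine Finset.sum_congr rfl fun l _ => ?_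
  rw [pval_sum hE _ fun k _ => (h3 k l).1]
  exact Finset.sum_congr rfl fun k _ => (h3 k l).2

/-- the form on the fibre at `a / b` is rational -/
theorem exists_form (hE : SpecEval) {T : ℤ[X]} {B : Matrix ι ι ℤ[X]} {Y : Matrix ι ι ℚ⟦X⟧}
    {ψ : Matrix ι ι ℚ} (h : GMat T B Y ψ) :
    ∃ C : ℕ, ∀ a b : ℤ, a ≠ 0 → (C : ℤ) * |a| ^ C ≤ b →
      ∃ ψ₁ : Matrix ι ι ℚ, (vm Y ((a : ℂ) / b))ᵀ * cx ψ * vm Y ((a : ℂ) / b) = cx ψ₁ := by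
  obtain ⟨D, hD, hN⟩ := h.pol
  obtain ⟨C₁, hC₁, hsm⟩ := exists_sm hE h.g
  obtain ⟨N, hN0⟩ := eval_ne_zero D hD
  choose P hP using hN
  refine ⟨C₁ + N, fun a b ha hb => ?_⟩
  have hs := hsm a b ha (mono (by omega) ha hb)
  have hb0 : 0 < b := pos (C := C₁ + N) (by omega) ha hb
  have hξ0 : (a : ℚ) / b ≠ 0 := div_ne_zero (by exact_mod_cast ha) (by exact_mod_cast hb0.ne')
  have hξ : (N : ℚ) * |(a : ℚ) / b| ≤ 1 := by
    refine le_trans (mul_le_mul_of_nonneg_right ?_ (abs_nonneg _))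
      (small (C := C₁ + N) (by omega) ha hb)
    exact_mod_cast (by omega : N ≤ C₁ + N)
  have hD0 := hN0 _ hξ0 hξ
  refine ⟨Matrix.of fun i j => (D.eval ((a : ℚ) / b))⁻¹ * (P i j).eval ((a : ℚ) / b), ?_⟩
  refine Matrix.ext fun i j => ?_
  have hz : ((((a : ℚ) / b : ℚ)) : ℂ) = (a : ℂ) / b := by push_cast; rfl
  obtain ⟨h1, h2⟩ := pval_form hE Y ψ ((a : ℂ) / b) hs i j
  have h3 : pval ((D : ℚ⟦X⟧) * (Yᵀ * ψ.map (PowerSeries.C : ℚ →+* ℚ⟦X⟧) * Y) i j) ((a : ℂ) / b) =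
      pval (P i j : ℚ⟦X⟧) ((a : ℂ) / b) := by rw [hP i j]
  have h4 := hE.2.2.1 D ((a : ℂ) / b)
  have h5 := hE.2.2.1 (P i j) ((a : ℂ) / b)
  rw [(sm_mul hE h4.1 h1).2, h2, h4.2, h5.2, ← hz, aeval_rat, aeval_rat, hz] at h3
  have hDC : ((D.eval ((a : ℚ) / b) : ℚ) : ℂ) ≠ 0 := by exact_mod_cast hD0
  change _ = (((D.eval ((a : ℚ) / b))⁻¹ * (P i j).eval ((a : ℚ) / b) : ℚ) : ℂ)
  rw [Rat.cast_mul, Rat.cast_inv, ← h3, ← mul_assoc, inv_mul_cancel₀ hDC, one_mul]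

end Pool.Agent.Lib.MPf11a48.CF.PolM
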