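import Pool.Agent.Lib.MP_f11a48_ag.CF.Spec

/-!
# Objects near an object of CM type, UNI: finite groups of isometries of bounded order
-/

set_option autoImplicit false

namespace Pool.Agent.Lib.MPf11a48.CF

open Matrix
open Pool.Agent.Lib.MPf11a48.GF
open scoped Matrix.Norms.L2Operator MatrixOrder ComplexOrder

namespace UniM

variable {ι : Type} [Fintype ι] [DecidableEq ι]

/-- unitarisation of a finite group -/
theorem exists_unit (G : Subgroup (GL ι ℂ)) (hG : (G : Set (GL ι ℂ)).Finite) :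
    ∃ S : GL ι ℂ, ∀ g ∈ G, (S * g * S⁻¹).1 ∈ unitary (Matrix ι ι ℂ) := by
  classical
  let H : Matrix ι ι ℂ := ∑ g ∈ hG.toFinset, g.1ᴴ * g.1
  have hH : H.PosDef := by
    have h1 : (1 : GL ι ℂ) ∈ hG.toFinset := by
      rw [Set.Finite.mem_toFinset]; exact G.one_mem
    have h2 : H = 1 + ∑ g ∈ hG.toFinset.erase 1, g.1ᴴ * g.1 := by
      change ∑ g ∈ hG.toFinset, g.1ᴴ * g.1 = _
      rw [← Finset.add_sum_erase _ _ h1]
      congr 1
      rw [Units.val_one, Matrix.conjTranspose_one, mul_one]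
    rw [h2]
    refine Matrix.PosDef.add_posSemidef Matrix.PosDef.one ?_
    exact Matrix.posSemidef_sum _ fun g _ => Matrix.posSemidef_conjTranspose_mul_self _
  have hinv : ∀ h ∈ G, h.1ᴴ * H * h.1 = H := by
    intro h hh
    change h.1ᴴ * (∑ g ∈ hG.toFinset, g.1ᴴ * g.1) * h.1 = ∑ g ∈ hG.toFinset, g.1ᴴ * g.1
    rw [Finset.mul_sum, Finset.sum_mul]
    refine Finset.sum_bij' (fun g _ => g * h) (fun g _ => g * h⁻¹) ?_ ?_ ?_ ?_ ?_
    · intro g hg
      rw [Set.Finite.mem_toFinset] at hg ⊢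
      exact G.mul_mem hg hh
    · intro g hg
      rw [Set.Finite.mem_toFinset] at hg ⊢
      exact G.mul_mem hg (G.inv_mem hh)
    · intro g _; rw [mul_inv_cancel_right]
    · intro g _; rw [inv_mul_cancel_right]
    · intro g _
      rw [Units.val_mul, Matrix.conjTranspose_mul]
      simp only [mul_assoc]
  obtain ⟨b, hb, hb'⟩ := CStarAlgebra.isStrictlyPositive_iff_eq_star_mul_self.mp
    hH.isStrictlyPositive
  obtain ⟨S, rfl⟩ := hb
  refine ⟨S, fun g hg => ?_⟩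
  have h1 : star g.1 * (star S.1 * S.1) * g.1 = star S.1 * S.1 := by
    have := hinv g hg
    rw [hb'] at this
    exact this
  have h2 : star (S⁻¹).1 * star S.1 = 1 := by
    rw [← star_mul, ← Units.val_mul, mul_inv_cancel, Units.val_one, star_one]
  have h3 : S.1 * (S⁻¹).1 = 1 := by
    rw [← Units.val_mul, mul_inv_cancel, Units.val_one]
  have h4 : star (S * g * S⁻¹).1 * (S * g * S⁻¹).1 = 1 := by
    rw [Units.val_mul, Units.val_mul, star_mul, star_mul]
    calc star (S⁻¹).1 * (star g.1 * star S.1) * (S.1 * g.1 * (S⁻¹).1)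
        = star (S⁻¹).1 * (star g.1 * (star S.1 * S.1) * g.1) * (S⁻¹).1 := by
          simp only [mul_assoc]
      _ = (star (S⁻¹).1 * star S.1) * (S.1 * (S⁻¹).1) := by rw [h1]; simp only [mul_assoc]
      _ = 1 := by rw [h2, h3, one_mul]
  rw [Unitary.mem_iff]
  exact ⟨h4, mul_eq_one_comm.1 h4⟩

/-- the unitary matrices are covered by finitely many balls of radius `1 / 4` -/
theorem exists_cover : ∃ t : Finset (Matrix ι ι ℂ), ∀ u ∈ unitary (Matrix ι ι ℂ),
    ∃ c ∈ t, ‖u - c‖ < 1 / 4 := by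
  have hp : ProperSpace (Matrix ι ι ℂ) := FiniteDimensional.proper ℂ _
  have h1 : TotallyBounded (Metric.closedBall (0 : Matrix ι ι ℂ) 1) :=
    (isCompact_closedBall 0 1).totallyBounded
  obtain ⟨t, ht, hc⟩ := Metric.totallyBounded_iff.1 h1 (1 / 4) (by norm_num)
  refine ⟨ht.toFinset, fun u hu => ?_⟩
  have h2 : ‖u‖ ≤ 1 := by
    rcases subsingleton_or_nontrivial (Matrix ι ι ℂ) with h | h
    · rw [Subsingleton.elim u 0, norm_zero]; exact zero_le_one
    · exact (CStarRing.norm_of_mem_unitary hu).le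
  have h3 := hc (mem_closedBall_zero_iff.2 h2)
  simp only [Set.mem_iUnion, Metric.mem_ball, exists_prop] at h3
  obtain ⟨c, hc1, hc2⟩ := h3
  exact ⟨c, by rwa [Set.Finite.mem_toFinset], by rwa [dist_eq_norm] at hc2⟩

end UniM

open UniM in
theorem specUni (hCom : SpecCom) : SpecUni := by
  intro ι _ _ _
  obtain ⟨t, ht⟩ := exists_cover (ι := ι)
  refine ⟨t.card, fun ψ hψ hd G hG hGs hA => ?_⟩
  classical
  obtain ⟨S, hS⟩ := exists_unit G hG
  by_contra hcard
  push Not at hcard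
  -- the invariant norm
  let ν : Matrix ι ι ℂ → ℝ := fun X => ‖S.1 * X * (S⁻¹).1‖
  have hSS : S.1 * (S⁻¹).1 = 1 := by rw [← Units.val_mul, mul_inv_cancel, Units.val_one]
  have hSS' : (S⁻¹).1 * S.1 = 1 := by rw [← Units.val_mul, inv_mul_cancel, Units.val_one]
  have hν1 : ∀ X Y : Matrix ι ι ℂ, ν (X * Y) ≤ ν X * ν Y := by
    intro X Y
    have : S.1 * (X * Y) * (S⁻¹).1 = (S.1 * X * (S⁻¹).1) * (S.1 * Y * (S⁻¹).1) := by
      calc S.1 * (X * Y) * (S⁻¹).1 = S.1 * X * 1 * Y * (S⁻¹).1 := by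
            rw [mul_one]; simp only [mul_assoc]
        _ = _ := by rw [← hSS']; simp only [mul_assoc]
    change ‖_‖ ≤ _
    rw [this]
    exact norm_mul_le _ _
  have hνs : ∀ X Y : Matrix ι ι ℂ, ν (X - Y) ≤ ν X + ν Y := by
    intro X Y
    change ‖_‖ ≤ ‖_‖ + ‖_‖
    rw [mul_sub, sub_mul]
    exact norm_sub_le _ _
  have hνl : ∀ g ∈ G, ∀ X : Matrix ι ι ℂ, ν (g.1 * X) = ν X := by
    intro g hg X
    have : S.1 * (g.1 * X) * (S⁻¹).1 = (S * g * S⁻¹).1 * (S.1 * X * (S⁻¹).1) := by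
      rw [Units.val_mul, Units.val_mul]
      calc S.1 * (g.1 * X) * (S⁻¹).1 = S.1 * g.1 * 1 * X * (S⁻¹).1 := by
            rw [mul_one]; simp only [mul_assoc]
        _ = _ := by rw [← hSS']; simp only [mul_assoc]
    change ‖_‖ = ‖_‖
    rw [this, CStarRing.norm_mem_unitary_mul _ (hS g hg)]
  have hνr : ∀ g ∈ G, ∀ X : Matrix ι ι ℂ, ν (X * g.1) = ν X := by
    intro g hg X
    have : S.1 * (X * g.1) * (S⁻¹).1 = (S.1 * X * (S⁻¹).1) * (S * g * S⁻¹).1 := by
      rw [Units.val_mul, Units.val_mul]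
      calc S.1 * (X * g.1) * (S⁻¹).1 = S.1 * X * 1 * g.1 * (S⁻¹).1 := by
            rw [mul_one]; simp only [mul_assoc]
        _ = _ := by rw [← hSS']; simp only [mul_assoc]
    change ‖_‖ = ‖_‖
    rw [this, CStarRing.norm_mul_mem_unitary _ (hS g hg)]
  have hν0 : ∀ X : Matrix ι ι ℂ, ν X = 0 → X = 0 := by
    intro X hX
    have h1 : S.1 * X * (S⁻¹).1 = 0 := norm_eq_zero.1 hX
    calc X = 1 * X * 1 := by rw [one_mul, mul_one]
      _ = (S⁻¹).1 * (S.1 * X * (S⁻¹).1) * S.1 := by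
          rw [← hSS']; simp only [mul_assoc]
      _ = 0 := by rw [h1, mul_zero, zero_mul]
  have hνn : ∀ X, 0 ≤ ν X := fun X => norm_nonneg _
  -- pigeonhole
  obtain ⟨z0, hz0, hz01, hz02⟩ : ∃ z ∈ G, z ≠ 1 ∧ ν (z.1 - 1) < 1 / 2 := by
    choose! f hf1 hf2 using ht
    have hfin : Fintype G := hG.fintype
    have h1 : t.card < (Finset.univ : Finset G).card := by
      rw [Finset.card_univ, ← Nat.card_eq_fintype_card]
      exact hcard
    obtain ⟨g, _, h, _, hgh, he⟩ := Finset.exists_ne_map_eq_of_card_lt_of_maps_to h1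
      (f := fun g : G => f (S * g.1 * S⁻¹).1) (fun g _ => hf1 _ (hS g.1 g.2))
    refine ⟨g.1⁻¹ * h.1, G.mul_mem (G.inv_mem g.2) h.2, ?_, ?_⟩
    · intro h1
      apply hgh
      apply Subtype.ext
      rw [inv_mul_eq_one] at h1
      exact h1
    · have h2 : g.1.1 * ((g.1⁻¹ * h.1).1 - 1) = h.1.1 - g.1.1 := by
        rw [mul_sub, mul_one, ← Units.val_mul, mul_inv_cancel_left]
      rw [← hνl g.1 g.2, h2]
      have h3 : S.1 * (h.1.1 - g.1.1) * (S⁻¹).1 =
          ((S * h.1 * S⁻¹).1 - f (S * h.1 * S⁻¹).1) - ((S * g.1 * S⁻¹).1 - f (S * g.1 * S⁻¹).1) := by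
        have he' : f (S * g.1 * S⁻¹).1 = f (S * h.1 * S⁻¹).1 := he
        rw [he', sub_sub_sub_cancel_right, mul_sub, sub_mul]
        rfl
      change ‖_‖ < _
      rw [h3]
      calc _ ≤ _ := norm_sub_le _ _
        _ < 1 / 4 + 1 / 4 := add_lt_add (hf2 _ (hS h.1 h.2)) (hf2 _ (hS g.1 g.2))
        _ = 1 / 2 := by norm_num
  -- the minimum
  obtain ⟨z, hz, hzmin⟩ := Set.exists_min_image {z : GL ι ℂ | z ∈ G ∧ z ≠ 1} (fun z => ν (z.1 - 1))
    (hG.subset fun z hz => hz.1) ⟨z0, hz0, hz01⟩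
  have hz2 : ν (z.1 - 1) < 1 / 2 := (hzmin z0 ⟨hz0, hz01⟩).trans_lt hz02
  have hzpos : 0 < ν (z.1 - 1) := by
    refine lt_of_le_of_ne (hνn _) fun h => hz.2 ?_
    have := hν0 _ h.symm
    rw [sub_eq_zero] at this
    exact Units.ext this
  have hcomm : ∀ h ∈ G, ν (h.1 - 1) < 1 / 2 → h * z = z * h := by
    intro h hh hh2
    by_contra hne
    have h1 : h * z * h⁻¹ * z⁻¹ ∈ {z : GL ι ℂ | z ∈ G ∧ z ≠ 1} := by
      refine ⟨G.mul_mem (G.mul_mem (G.mul_mem hh hz.1) (G.inv_mem hh)) (G.inv_mem hz.1), ?_⟩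
      intro h1
      rw [mul_inv_eq_one, mul_inv_eq_iff_eq_mul] at h1
      exact hne h1
    have h2 := hzmin _ h1
    have h3 : ν ((h * z * h⁻¹ * z⁻¹).1 - 1) = ν ((h.1 - 1) * (z.1 - 1) - (z.1 - 1) * (h.1 - 1)) := by
      rw [← hνr (z * h) (G.mul_mem hz.1 hh)]
      congr 1
      rw [sub_mul, ← Units.val_mul, one_mul]
      have : h * z * h⁻¹ * z⁻¹ * (z * h) = h * z := by group
      rw [this, Units.val_mul, Units.val_mul]
      noncomm_ring
    have h4 : ν ((h.1 - 1) * (z.1 - 1) - (z.1 - 1) * (h.1 - 1)) ≤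
        2 * (ν (h.1 - 1) * ν (z.1 - 1)) := by
      refine (hνs _ _).trans ?_
      have h5 := hν1 (h.1 - 1) (z.1 - 1)
      have h6 := hν1 (z.1 - 1) (h.1 - 1)
      rw [mul_comm (ν (z.1 - 1))] at h6
      linarith
    have h7 : ν (h.1 - 1) * ν (z.1 - 1) < 1 / 2 * ν (z.1 - 1) :=
      mul_lt_mul_of_pos_right hh2 hzpos
    rw [h3] at h2
    linarith
  -- the subspace
  let A : Submodule ℂ (Matrix ι ι ℂ) :=
    Submodule.span ℂ {X | ∃ h ∈ G, ν (h.1 - 1) < 1 / 2 ∧ h.1 = X}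
  have hAG : ∀ g ∈ G, ∀ X ∈ A, g.1 * X * g⁻¹.1 ∈ A := by
    intro g hg X hX
    induction hX using Submodule.span_induction with
    | mem X hX =>
      obtain ⟨h, hh, hh2, rfl⟩ := hX
      refine Submodule.subset_span ⟨g * h * g⁻¹, G.mul_mem (G.mul_mem hg hh) (G.inv_mem hg), ?_, rfl⟩
      have h1 : (g * h * g⁻¹).1 - 1 = g.1 * (h.1 - 1) * g⁻¹.1 := by
        rw [mul_sub, sub_mul, mul_one, ← Units.val_mul, ← Units.val_mul, ← Units.val_mul,
          mul_inv_cancel, Units.val_one]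
      rw [h1, hνr _ (G.inv_mem hg), hνl _ hg]
      exact hh2
    | zero => rw [mul_zero, zero_mul]; exact zero_mem _
    | add X Y _ _ hX hY => rw [mul_add, add_mul]; exact add_mem hX hY
    | smul a X _ hX => rw [mul_smul_comm, smul_mul_assoc]; exact Submodule.smul_mem _ _ hX
  have hAz : ∀ X ∈ A, z.1 * X = X * z.1 := by
    intro X hX
    induction hX using Submodule.span_induction with
    | mem X hX =>
      obtain ⟨h, hh, hh2, rfl⟩ := hX
      rw [← Units.val_mul, ← Units.val_mul, hcomm h hh hh2]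
    | zero => rw [mul_zero, zero_mul]
    | add X Y _ _ hX hY => rw [mul_add, add_mul, hX, hY]
    | smul a X _ hX => rw [mul_smul_comm, smul_mul_assoc, hX]
  obtain ⟨s, hs⟩ := hCom ι ψ hψ hd z (hGs hz.1) (by
    intro g hg
    apply Units.ext
    rw [Units.val_mul, Units.val_mul]
    exact hAz _ (hA A hAG g hg z.1 (Submodule.subset_span ⟨z, hz.1, hz2, rfl⟩)))
  have hψ0 : ψ ≠ 0 := by
    rintro rfl
    exact hd Matrix.det_zero
  have hs2 : (s * s) • ψ = (1 : ℂ) • ψ := by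
    have h1 : z.1ᵀ * ψ * z.1 = ψ := hGs hz.1
    rw [hs] at h1
    rw [Matrix.transpose_smul, Matrix.transpose_one, smul_mul_assoc, one_mul, smul_mul_assoc,
      mul_smul_comm, mul_one, smul_smul] at h1
    rw [h1, one_smul]
  have hs3 : s * s = 1 := by
    by_contra h
    have : (s * s - 1) • ψ = 0 := by rw [sub_smul, hs2, sub_self]
    rcases smul_eq_zero.1 this with h1 | h1
    · exact h (sub_eq_zero.1 h1)
    · exact hψ0 h1
  have hs4 : s = -1 := by
    rcases mul_self_eq_one_iff.1 hs3 with h | h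
    · exfalso
      apply hz.2
      apply Units.ext
      rw [hs, h, one_smul, Units.val_one]
    · exact h
  have h1 : ν (z.1 - 1) = 2 := by
    have h2 : S.1 * (z.1 - 1) * (S⁻¹).1 = (-2 : ℂ) • 1 := by
      rw [hs, hs4]
      have : ((-1 : ℂ) • (1 : Matrix ι ι ℂ) - 1) = (-2 : ℂ) • 1 := by
        rw [show (-2 : ℂ) = -1 + -1 by norm_num, add_smul, neg_one_smul]
        abel
      rw [this, mul_smul_comm, smul_mul_assoc, mul_one, hSS]
    change ‖_‖ = _
    rw [h2, norm_smul, CStarRing.norm_one]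
    simp
  rw [h1] at hz2
  norm_num at hz2

end Pool.Agent.Lib.MPf11a48.CF
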