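import Pool.Agent.Lib.MP_f11a48_ag.GF.Stmt

/-!
# Objects near an object of CM type: definitions
-/

set_option autoImplicit false

namespace Pool.Agent.Lib.MPf11a48.CF

open Polynomial Matrix
open scoped PowerSeries
open Pool.Agent.Lib.MPf11a48.CM Pool.Agent.Lib.MPf11a48.GL2T Pool.Agent.Lib.MPf11a48.GF
open Pool.Agent.Lib.MPf11a48.K3 (cx)

variable {ι : Type} [Fintype ι] [DecidableEq ι]

/-- `Y` is a matrix of G-functions with rational coefficients, whose rows are solutions of the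
system `T y' = B y`, the system satisfies Galochkin's condition, the entries of `Yᵀ ψ Y` are
rational functions (the form `ψ` is horizontal), and the polynomial relations over `ℚ(X)` between
the entries of `Y` hold for the entries of `g Y`, for every rational isometry `g` of the form `ψ`
(that is, the differential Galois group is the group of isometries of `ψ`). -/
structure GMat (T : ℤ[X]) (B : Matrix ι ι ℤ[X]) (Y : Matrix ι ι ℚ⟦X⟧) (ψ : Matrix ι ι ℚ) :
    Prop where
  ne : T ≠ 0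
  gal : IsGal T B
  sol : ∀ k, IsSol (zq T) (B.map zq) (Y k)
  g : ∀ k, IsG (Y k)
  pol : ∃ D : ℚ[X], D ≠ 0 ∧ ∀ i j, ∃ N : ℚ[X],
    (D : ℚ⟦X⟧) * (Yᵀ * ψ.map (PowerSeries.C : ℚ →+* ℚ⟦X⟧) * Y) i j = (N : ℚ⟦X⟧)
  mon : ∀ F : MvPolynomial (ι × ι) ℚ[X], peval (fun p => Y p.1 p.2) F = 0 →
    ∀ g : Matrix ι ι ℚ, gᵀ * ψ * g = ψ →
      peval (fun p => (g.map (PowerSeries.C : ℚ →+* ℚ⟦X⟧) * Y) p.1 p.2) F = 0

/-- The matrix of the values at `z`. -/
noncomputable def vm (Y : Matrix ι ι ℚ⟦X⟧) (z : ℂ) : Matrix ι ι ℂ := Y.map fun f => pval f z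

end Pool.Agent.Lib.MPf11a48.CF
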