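import Pool.Agent.Lib.MP_f11a48_ag.CF.Spec
import Pool.Agent.Lib.MP_f11a48_ag.GF.Trv

/-!
# Objects near an object of CM type, IRR: the group of isometries is irreducible
-/

set_option autoImplicit false

namespace Pool.Agent.Lib.MPf11a48.CF

open Matrix
open Pool.Agent.Lib.MPf11a48.GF

namespace IrrM

variable {ι : Type} [Fintype ι] [DecidableEq ι]

/-- the value of a polynomial at a matrix -/
noncomputable def ev (g : Matrix ι ι ℂ) (p : MvPolynomial (ι × ι) ℂ) : ℂ :=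
  MvPolynomial.eval (fun v => g v.1 v.2) p

/-- the polynomial `x ↦ p (k x l)` -/
noncomputable def tr (k l : Matrix ι ι ℂ) (p : MvPolynomial (ι × ι) ℂ) : MvPolynomial (ι × ι) ℂ :=
  MvPolynomial.bind₁ (fun v : ι × ι => ∑ i, ∑ j,
    MvPolynomial.C (k v.1 i) * MvPolynomial.X (i, j) * MvPolynomial.C (l j v.2)) p

omit [DecidableEq ι] in
theorem ev_tr (k l g : Matrix ι ι ℂ) (p : MvPolynomial (ι × ι) ℂ) :
    ev g (tr k l p) = ev (k * g * l) p := by
  unfold ev tr
  rw [MvPolynomial.eval, MvPolynomial.eval₂Hom_bind₁]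
  rw [MvPolynomial.eval]
  congr 2
  funext v
  simp only [map_sum, map_mul, MvPolynomial.eval₂Hom_C, MvPolynomial.eval₂Hom_X', RingHom.id_apply,
    Matrix.mul_apply, Finset.sum_mul]
  rw [Finset.sum_comm]

omit [Fintype ι] [DecidableEq ι] in
/-- a polynomial path -/
theorem exists_path (t0 t1 : Matrix ι ι ℂ) (p : MvPolynomial (ι × ι) ℂ) :
    ∃ P : Polynomial ℂ, ∀ s : ℂ, P.eval s = ev (t0 + s • t1) p := by
  refine ⟨MvPolynomial.aeval (fun v : ι × ι => Polynomial.C (t0 v.1 v.2) +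
    Polynomial.X * Polynomial.C (t1 v.1 v.2)) p, fun s => ?_⟩
  unfold ev
  have h := MvPolynomial.map_aeval (fun v : ι × ι => Polynomial.C (t0 v.1 v.2) +
    Polynomial.X * Polynomial.C (t1 v.1 v.2)) (Polynomial.evalRingHom s) p
  rw [Polynomial.coe_evalRingHom] at h
  rw [h]
  rw [MvPolynomial.eval]
  congr 2
  · ext x
    simp
  · funext v
    simp
    exact mul_comm _ _

variable (ψ : Matrix ι ι ℂ)

/-- the elements for which the argument works -/
def S : Subgroup (GL ι ℂ) where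
  carrier := {k | k ∈ spG ψ ∧ ∀ p q : MvPolynomial (ι × ι) ℂ,
    (∀ g ∈ spG ψ, ev g.1 p * ev g.1 q = 0) → ∀ g ∈ spG ψ, ev g.1 p ≠ 0 → ev (k * g).1 q = 0}
  mul_mem' := by
    rintro a b ⟨ha, ha'⟩ ⟨hb, hb'⟩
    refine ⟨mul_mem ha hb, fun p q hpq g hg hp => ?_⟩
    have h1 : ∀ g ∈ spG ψ, ev g.1 p * ev g.1 (tr a.1 1 q) = 0 := by
      intro g hg
      by_cases h : ev g.1 p = 0
      · rw [h, zero_mul]
      · rw [ev_tr, mul_one]
        have := ha' p q hpq g hg h
        rw [Units.val_mul] at this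
        rw [this, mul_zero]
    have h2 := hb' p _ h1 g hg hp
    rw [ev_tr, mul_one, Units.val_mul, ← mul_assoc] at h2
    exact h2
  one_mem' := by
    refine ⟨one_mem _, fun p q hpq g hg hp => ?_⟩
    rw [one_mul]
    exact (mul_eq_zero.1 (hpq g hg)).resolve_left hp
  inv_mem' := by
    rintro a ⟨ha, ha'⟩
    refine ⟨inv_mem ha, fun p q hpq g hg hp => ?_⟩
    by_contra hq
    have h1 := ha' q p (fun g hg => by rw [mul_comm]; exact hpq g hg) (a⁻¹ * g)
      (mul_mem (inv_mem ha) hg) hq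
    rw [mul_inv_cancel_left] at h1
    exact hp h1

variable {ψ}

omit [DecidableEq ι] in
theorem skew_vec (hψ : ψᵀ = -ψ) (u : ι → ℂ) : ψ *ᵥ u = -(u ᵥ* ψ) := by
  rw [← Matrix.mulVec_transpose, hψ, Matrix.neg_mulVec, neg_neg]

omit [DecidableEq ι] in
theorem trv_sq (hψ : ψᵀ = -ψ) (u : ι → ℂ) :
    vecMulVec u (u ᵥ* ψ) * vecMulVec u (u ᵥ* ψ) = 0 := by
  have h0 : (u ᵥ* ψ) ⬝ᵥ u = 0 := by
    have := TrvM.om_self hψ u
    unfold TrvM.om at this
    rw [Matrix.dotProduct_mulVec] at this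
    exact this
  rw [Matrix.vecMulVec_mul_vecMulVec, h0, zero_smul, Matrix.vecMulVec_zero]

omit [DecidableEq ι] in
theorem trv_skew (hψ : ψᵀ = -ψ) (u : ι → ℂ) :
    (vecMulVec u (u ᵥ* ψ))ᵀ * ψ + ψ * vecMulVec u (u ᵥ* ψ) = 0 := by
  rw [Matrix.transpose_vecMulVec, Matrix.vecMulVec_mul, Matrix.mul_vecMulVec, skew_vec hψ,
    Matrix.neg_vecMulVec, add_neg_cancel]

/-- the transvections -/
def trv (hψ : ψᵀ = -ψ) (u : ι → ℂ) (s : ℂ) : GL ι ℂ where
  val := 1 + s • vecMulVec u (u ᵥ* ψ)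
  inv := 1 - s • vecMulVec u (u ᵥ* ψ)
  val_inv := by
    have h := trv_sq hψ u
    simp only [add_mul, mul_sub, one_mul, mul_one, smul_mul_smul_comm, h, smul_zero]
    abel
  inv_val := by
    have h := trv_sq hψ u
    simp only [sub_mul, mul_add, one_mul, mul_one, smul_mul_smul_comm, h, smul_zero]
    abel

theorem trv_mem (hψ : ψᵀ = -ψ) (u : ι → ℂ) (s : ℂ) : trv hψ u s ∈ spG ψ := by
  change (1 + s • vecMulVec u (u ᵥ* ψ))ᵀ * ψ * (1 + s • vecMulVec u (u ᵥ* ψ)) = ψ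
  have h1 := trv_sq hψ u
  have h2 := trv_skew hψ u
  generalize vecMulVec u (u ᵥ* ψ) = N at h1 h2
  have h3 : Nᵀ * ψ = -(ψ * N) := eq_neg_of_add_eq_zero_left h2
  have h4 : (1 + s • N)ᵀ * ψ = ψ * (1 - s • N) := by
    rw [Matrix.transpose_add, Matrix.transpose_smul, Matrix.transpose_one, add_mul, one_mul,
      smul_mul_assoc, h3, mul_sub, mul_one, mul_smul_comm, smul_neg, sub_eq_add_neg]
  rw [h4, mul_assoc]
  have h5 : (1 - s • N) * (1 + s • N) = 1 := by
    simp only [sub_mul, mul_add, one_mul, mul_one, smul_mul_smul_comm, h1, smul_zero]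
    abel
  rw [h5, mul_one]

theorem trv_mem_S (hψ : ψᵀ = -ψ) (u : ι → ℂ) (s : ℂ) : trv hψ u s ∈ S ψ := by
  refine ⟨trv_mem hψ u s, fun p q hpq g hg hp => ?_⟩
  obtain ⟨P, hP⟩ := exists_path g.1 (vecMulVec u (u ᵥ* ψ) * g.1) p
  obtain ⟨Q, hQ⟩ := exists_path g.1 (vecMulVec u (u ᵥ* ψ) * g.1) q
  have h1 : ∀ t : ℂ, g.1 + t • (vecMulVec u (u ᵥ* ψ) * g.1) = (trv hψ u t * g).1 := by
    intro t
    rw [Units.val_mul]
    change _ = (1 + t • vecMulVec u (u ᵥ* ψ)) * g.1
    rw [add_mul, one_mul, smul_mul_assoc]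
  have h2 : P * Q = 0 := by
    apply Polynomial.funext
    intro t
    rw [Polynomial.eval_mul, hP, hQ, h1, hpq _ (mul_mem (trv_mem hψ u t) hg),
      Polynomial.eval_zero]
  rcases mul_eq_zero.1 h2 with h | h
  · exfalso
    have := hP 0
    rw [h, Polynomial.eval_zero, zero_smul, add_zero] at this
    exact hp this.symm
  · have := hQ s
    rw [h, Polynomial.eval_zero, h1] at this
    exact this.symm

end IrrM

open IrrM in
theorem specIrr (hTrv : SpecTrv) : SpecIrr := by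
  intro ι _ _ ψ hψ hd σ _ F hF
  by_contra hcon
  push Not at hcon
  choose g hg hgF using hcon
  classical
  have key : ∀ A : Finset σ, ∃ h ∈ spG ψ, ev h.1 (∏ x ∈ A, F x) ≠ 0 := by
    intro A
    induction A using Finset.induction_on with
    | empty => exact ⟨1, one_mem _, by simp [ev]⟩
    | insert a A ha ih =>
      obtain ⟨h, hh, hA⟩ := ih
      by_contra hcon
      push Not at hcon
      have h1 : ∀ k ∈ spG ψ, ev k.1 (F a) * ev k.1 (∏ x ∈ A, F x) = 0 := by
        intro k hk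
        have := hcon k hk
        rw [Finset.prod_insert ha] at this
        unfold ev at this ⊢
        rw [map_mul] at this
        exact this
      have h2 : h * (g a)⁻¹ ∈ S ψ := by
        refine hTrv ι ψ (S ψ) hψ hd (fun u s => ⟨_, trv_mem_S hψ u s, rfl⟩) _ ?_
        exact mul_mem hh (inv_mem (hg a))
      have h3 := h2.2 _ _ h1 (g a) (hg a) (hgF a)
      rw [inv_mul_cancel_right] at h3
      exact hA h3
  obtain ⟨h, hh, h1⟩ := key Finset.univ
  apply h1
  have := hF h hh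
  unfold ev
  rw [map_prod]
  exact this

end Pool.Agent.Lib.MPf11a48.CF
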