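import Pool.Agent.Lib.MP_f11a48_ag.CF.Stmt
import Pool.Agent.Lib.MP_f11a48_ag.GF.SpecL

/-!
# Objects near an object of CM type: specifications
-/

set_option autoImplicit false

namespace Pool.Agent.Lib.MPf11a48.CF

open Polynomial Matrix
open scoped PowerSeries
open Pool.Agent.Lib.MPf11a48.Tors
open Pool.Agent.Lib.MPf11a48.CM hiding OmegaM
open Pool.Agent.Lib.MPf11a48.GL2T Pool.Agent.Lib.MPf11a48.GF
open Pool.Agent.Lib.MPf11a48.GL2 (lie van en Geo)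
open Pool.Agent.Lib.MPf11a48.K3 (cx)

/-! ## Part A: relations between values -/

/-- LIFT: linear relations over `ℚ` between the values at `a / b` come from linear relations over
`ℚ(X)` between the functions -/
def SpecLift : Prop :=
  ∀ (μ : Type) [Fintype μ] [DecidableEq μ] (T : ℤ[X]) (B : Matrix μ μ ℤ[X]) (u : μ → ℚ⟦X⟧),
    T ≠ 0 → IsGal T B → IsSol (zq T) (B.map zq) u → IsG u →
    ∃ C : ℕ, ∀ a b : ℤ, a ≠ 0 → (C : ℤ) * |a| ^ C ≤ b → ∀ h : μ → ℚ,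
      ∑ c, (h c : ℂ) * pval (u c) ((a : ℂ) / b) = 0 →
      ∃ P : μ → ℚ[X], ∑ c, (P c : ℚ⟦X⟧) * u c = 0 ∧ ∀ c, (P c).eval ((a : ℚ) / b) = h c

/-- MONO: the same for homogeneous polynomial relations between the entries of a solution matrix -/
def SpecMono : Prop :=
  ∀ (ι : Type) [Fintype ι] [DecidableEq ι] (T : ℤ[X]) (B : Matrix ι ι ℤ[X])
    (Y : Matrix ι ι ℚ⟦X⟧), T ≠ 0 → IsGal T B → (∀ k, IsSol (zq T) (B.map zq) (Y k)) →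
    (∀ k, IsG (Y k)) → ∀ n : ℕ,
    ∃ C : ℕ, ∀ a b : ℤ, a ≠ 0 → (C : ℤ) * |a| ^ C ≤ b →
      ∀ F : MvPolynomial (ι × ι) ℚ, F.IsHomogeneous n →
        MvPolynomial.aeval (fun p => vm Y ((a : ℂ) / b) p.1 p.2) F = 0 →
        ∃ G : MvPolynomial (ι × ι) ℚ[X], peval (fun p => Y p.1 p.2) G = 0 ∧
          G.map (Polynomial.evalRingHom ((a : ℚ) / b)) = F

/-- the group of isometries of `ψ` -/
def spG {ι : Type} [Fintype ι] [DecidableEq ι] (ψ : Matrix ι ι ℂ) : Subgroup (GL ι ℂ) where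
  carrier := {g | g.1ᵀ * ψ * g.1 = ψ}
  mul_mem' := by
    intro a b ha hb
    change (a.1 * b.1)ᵀ * ψ * (a.1 * b.1) = ψ
    rw [Matrix.transpose_mul]
    calc b.1ᵀ * a.1ᵀ * ψ * (a.1 * b.1) = b.1ᵀ * (a.1ᵀ * ψ * a.1) * b.1 := by
          simp only [Matrix.mul_assoc]
      _ = ψ := by rw [show a.1ᵀ * ψ * a.1 = ψ from ha]; exact hb
  one_mem' := by
    change (1 : Matrix ι ι ℂ)ᵀ * ψ * 1 = ψ
    rw [Matrix.transpose_one, Matrix.one_mul, Matrix.mul_one]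
  inv_mem' := by
    intro a ha
    change a⁻¹.1ᵀ * ψ * a⁻¹.1 = ψ
    have h : a.1ᵀ * ψ * a.1 = ψ := ha
    have h1 : a.1 * a⁻¹.1 = 1 := a.mul_inv
    have h2 : a⁻¹.1ᵀ * a.1ᵀ = 1 := by rw [← Matrix.transpose_mul, h1, Matrix.transpose_one]
    calc a⁻¹.1ᵀ * ψ * a⁻¹.1 = a⁻¹.1ᵀ * (a.1ᵀ * ψ * a.1) * a⁻¹.1 := by rw [h]
      _ = (a⁻¹.1ᵀ * a.1ᵀ) * ψ * (a.1 * a⁻¹.1) := by simp only [Matrix.mul_assoc]
      _ = ψ := by rw [h1, h2, Matrix.one_mul, Matrix.mul_one]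

/-- the homogeneous polynomial relations of degree `n` over `k` between the entries of `y` hold for
the entries of `g y`, for all isometries `g` of `ψ` -/
def HasRel (k : Type) [Field k] [Algebra k ℂ] {ι : Type} [Fintype ι] [DecidableEq ι] (n : ℕ)
    (y ψ : Matrix ι ι ℂ) : Prop :=
  ∀ F : MvPolynomial (ι × ι) k, F.IsHomogeneous n →
    MvPolynomial.aeval (fun p => y p.1 p.2) F = 0 →
    ∀ g ∈ spG ψ, MvPolynomial.aeval (fun p => (g.1 * y) p.1 p.2) F = 0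

/-- DENS: the rational isometries are dense -/
def SpecDens : Prop :=
  ∀ (ι : Type) [Fintype ι] [DecidableEq ι] (ψ : Matrix ι ι ℚ), ψᵀ = -ψ → ψ.det ≠ 0 →
    ∀ F : MvPolynomial (ι × ι) ℂ,
      (∀ g : Matrix ι ι ℚ, gᵀ * ψ * g = ψ → MvPolynomial.eval (fun p => (g p.1 p.2 : ℂ)) F = 0) →
      ∀ g ∈ spG (cx ψ), MvPolynomial.eval (fun p => g.1 p.1 p.2) F = 0

/-- REL: relations over `ℚ` between the values -/
def SpecRel : Prop :=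
  ∀ (ι : Type) [Fintype ι] [DecidableEq ι] (T : ℤ[X]) (B : Matrix ι ι ℤ[X])
    (Y : Matrix ι ι ℚ⟦X⟧) (ψ : Matrix ι ι ℚ), ψᵀ = -ψ → ψ.det ≠ 0 → GMat T B Y ψ → ∀ n : ℕ,
    ∃ C : ℕ, ∀ a b : ℤ, a ≠ 0 → (C : ℤ) * |a| ^ C ≤ b →
      HasRel ℚ n (vm Y ((a : ℂ) / b)) (cx ψ)

/-- IRR: the group of isometries is irreducible -/
def SpecIrr : Prop :=
  ∀ (ι : Type) [Fintype ι] [DecidableEq ι] (ψ : Matrix ι ι ℂ), ψᵀ = -ψ → ψ.det ≠ 0 →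
    ∀ (σ : Type) [Fintype σ] (F : σ → MvPolynomial (ι × ι) ℂ),
      (∀ g ∈ spG ψ, ∏ x, MvPolynomial.eval (fun p => g.1 p.1 p.2) (F x) = 0) →
      ∃ x, ∀ g ∈ spG ψ, MvPolynomial.eval (fun p => g.1 p.1 p.2) (F x) = 0

/-- NORM: relations over number fields -/
def SpecNorm : Prop :=
  ∀ (ι : Type) [Fintype ι] [DecidableEq ι] (ψ₀ ψ₁ : Matrix ι ι ℚ) (y : Matrix ι ι ℂ),
    ψ₀ᵀ = -ψ₀ → ψ₀.det ≠ 0 → y.det ≠ 0 → yᵀ * cx ψ₀ * y = cx ψ₁ →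
    ∀ (K : IntermediateField ℚ ℂ), FiniteDimensional ℚ K → ∀ n : ℕ,
      HasRel ℚ (n * Module.finrank ℚ K) y (cx ψ₀) → HasRel K n y (cx ψ₀)

/-! ## Part B: stable subspaces of tensor spaces -/

/-- the action of a matrix on tensors (with coordinates indexed by `κ → ι`) -/
def ta {ι κ R : Type} [Fintype ι] [Fintype κ] [DecidableEq κ] [CommRing R] (g : Matrix ι ι R) :
    ((κ → ι) → R) →ₗ[R] ((κ → ι) → R) where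
  toFun w J := ∑ J', (∏ k, g (J k) (J' k)) * w J'
  map_add' u v := by
    funext J
    simp only [Pi.add_apply, mul_add, Finset.sum_add_distrib]
  map_smul' a v := by
    funext J
    simp only [Pi.smul_apply, smul_eq_mul, RingHom.id_apply, Finset.mul_sum]
    exact Finset.sum_congr rfl fun _ _ => by ring

/-- the Plücker coordinates of a family of tensors -/
def pl {ι κ R : Type} [CommRing R] {u : ℕ} (e : Fin u → (κ → ι) → R) : (Fin u × κ → ι) → R :=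
  fun J => Matrix.det (Matrix.of fun a b => e a fun k => J (b, k))

/-- PL: properties of Plücker coordinates -/
def SpecPl : Prop :=
  ∀ (ι κ : Type) [Fintype ι] [DecidableEq ι] [Fintype κ] [DecidableEq κ] (u : ℕ),
    (∀ (g : Matrix ι ι ℂ) (e : Fin u → (κ → ι) → ℂ), ta g (pl e) = pl fun a => ta g (e a)) ∧
    (∀ (L : Matrix (Fin u) (Fin u) ℂ) (e : Fin u → (κ → ι) → ℂ),
      pl (fun a => ∑ b, L a b • e b) = L.det • pl e) ∧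
    ∀ e e' : Fin u → (κ → ι) → ℂ, LinearIndependent ℂ e → LinearIndependent ℂ e' →
      pl e = pl e' → Submodule.span ℂ (Set.range e) = Submodule.span ℂ (Set.range e')

/-- CORE: commutators of block diagonal isometries act trivially. `J ~ J'` if all
`s (J k) / s (J' k)` are in `K`. -/
def SpecCore : Prop :=
  ∀ (ι κ : Type) [Fintype ι] [DecidableEq ι] [Fintype κ] [DecidableEq κ]
    (K : IntermediateField ℚ ℂ) (y Q : GL ι ℂ) (ψ : Matrix ι ι ℂ) (s : ι → ℂ)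
    (α : (κ → ι) → K), HasRel K (Fintype.card κ) y.1 ψ → (∀ i j, Q.1 i j ∈ K) →
    (∀ i, s i ≠ 0) →
    (∀ J J' : κ → ι, (∀ k, s (J k) / s (J' k) ∈ K) →
      ta (Q.1 * y.1) (fun I => (α I : ℂ)) J' ≠ 0 →
      ta (Q.1 * y.1) (fun I => (α I : ℂ)) J / ta (Q.1 * y.1) (fun I => (α I : ℂ)) J' ∈ K) →
    ∀ l₁ ∈ spG ψ, ∀ l₂ ∈ spG ψ, (∀ i j, (Q * l₁ * Q⁻¹).1 i j ≠ 0 → s i / s j ∈ K) →
    (∀ i j, (Q * l₂ * Q⁻¹).1 i j ≠ 0 → s i / s j ∈ K) → ∀ g ∈ spG ψ,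
    ta (l₁ * l₂ * l₁⁻¹ * l₂⁻¹ * g * y).1 (fun I => (α I : ℂ)) = ta (g * y).1 fun I => (α I : ℂ)

/-- KER: an isometry which is not a scalar and acts trivially on a stable subspace of a tensor
space -/
def SpecKer : Prop :=
  ∀ (ι κ : Type) [Fintype ι] [DecidableEq ι] [Fintype κ] [DecidableEq κ] (ψ : Matrix ι ι ℂ),
    ψᵀ = -ψ → ψ.det ≠ 0 → ∀ U : Submodule ℂ ((κ → ι) → ℂ),
    (∀ g ∈ spG ψ, ∀ w ∈ U, ta g.1 w ∈ U) → ∀ l ∈ spG ψ, (∀ t : ℂ, l.1 ≠ t • 1) →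
    (∀ w ∈ U, ta l.1 w = w) → ∀ g ∈ spG ψ, ∀ w ∈ U, ta g.1 w = w

/-- NC: the block diagonal isometries do not commute -/
def SpecNc : Prop :=
  ∀ (ι : Type) [Fintype ι] [DecidableEq ι] (A A' : Matrix ι ι ℂ) (s : ι → ℂ) (ϖ : ℂ)
    (K : IntermediateField ℚ ℂ), Aᵀ = -A → A.det ≠ 0 → (∀ i j, A i j ∈ K) →
    (∀ i j, A' i j ∈ K) → ϖ ≠ 0 → (∀ i, s i ≠ 0) → (∀ i j, s i * A' i j * s j = ϖ * A i j) →
    (∃ i j, i ≠ j ∧ s i / s j ∈ K) →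
    ∃ l₁ ∈ spG A, ∃ l₂ ∈ spG A, (∀ i j, l₁.1 i j ≠ 0 → s i / s j ∈ K) ∧
      (∀ i j, l₂.1 i j ≠ 0 → s i / s j ∈ K) ∧ ∀ t : ℂ, (l₁ * l₂ * l₁⁻¹ * l₂⁻¹).1 ≠ t • 1

/-- the subspaces of the `m`-th tensor power which are defined over `K` and stable under the group
of `T` are stable under the isometries of `ψ` -/
def Stab {ι : Type} [Fintype ι] [DecidableEq ι] (K : IntermediateField ℚ ℂ) (T : Set (GL ι ℂ))
    (ψ : Matrix ι ι ℂ) (m : ℕ) : Prop :=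
  ∀ U : Submodule ℂ ((Fin m → ι) → ℂ), (∀ g ∈ grp T, ∀ w ∈ U, ta g.1 w ∈ U) →
    (∀ τ : ℂ ≃+* ℂ, FixesField K τ → ∀ w ∈ U, (fun J => τ (w J)) ∈ U) →
    ∀ g ∈ spG ψ, ∀ w ∈ U, ta g.1 w ∈ U

/-- ST: the result of Part B (from PL, CORE, KER, NC) -/
def SpecSt : Prop :=
  ∀ (ι : Type) [Fintype ι] [DecidableEq ι] (ψ₀ ψ : Matrix ι ι ℚ) (C₀ : GL ι ℂ)
    (P Q : Matrix ι ι ℂ) (s : ι → ℂ) (ϖ : ℂ), ψ₀ᵀ = -ψ₀ → ψᵀ = -ψ → ψ₀.det ≠ 0 →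
    ψ.det ≠ 0 → ϖ ≠ 0 →
    C₀.1ᵀ * cx ψ * C₀.1 = ϖ • cx ψ₀ → C₀.1 = P * diagonal s * Q → IsAlg P → IsAlg Q →
    (∃ i j, i ≠ j ∧ s i / s j ∈ Qbar) →
    ∃ δ₀ : ℕ, ∀ (m : ℕ) (K : IntermediateField ℚ ℂ), FiniteDimensional ℚ K → ∀ y : GL ι ℂ,
      (∀ n ≤ Fintype.card ι ^ m * m, ∀ K' : IntermediateField ℚ ℂ, FiniteDimensional ℚ K' →
        Module.finrank ℚ K' ≤ Module.finrank ℚ K * δ₀ → HasRel K' n y.1 (cx ψ₀)) →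
      ∀ R : GL ι ℂ, (∀ i j, R.1 i j ∈ K) → ∀ T, IsTorsor K T → C₀ * y * R ∈ T →
        Stab K T (cx ψ) m

/-! ## Part C: the group -/

/-- AD: the adjoint representation is irreducible -/
def SpecAd : Prop :=
  ∀ (ι : Type) [Fintype ι] [DecidableEq ι] (ψ : Matrix ι ι ℂ), ψᵀ = -ψ → ψ.det ≠ 0 →
    ∀ h : Submodule ℂ (Matrix ι ι ℂ), (∀ X ∈ h, Xᵀ * ψ + ψ * X = 0) →
    (∀ g ∈ spG ψ, ∀ X ∈ h, g.1 * X * g⁻¹.1 ∈ h) →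
    h = ⊥ ∨ ∀ X : Matrix ι ι ℂ, Xᵀ * ψ + ψ * X = 0 → X ∈ h

/-- COM: an isometry which commutes with its conjugates is a scalar -/
def SpecCom : Prop :=
  ∀ (ι : Type) [Fintype ι] [DecidableEq ι] (ψ : Matrix ι ι ℂ), ψᵀ = -ψ → ψ.det ≠ 0 →
    ∀ z ∈ spG ψ, (∀ g ∈ spG ψ, z * (g * z * g⁻¹) = g * z * g⁻¹ * z) → ∃ t : ℂ, z.1 = t • 1

/-- FGR: a closed group with trivial Lie algebra is finite -/
def SpecFgr : Prop :=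
  ∀ (ι : Type) [Fintype ι] [DecidableEq ι] (G : Subgroup (GL ι ℂ)),
    (∀ f : GL ι ℂ, (∀ p ∈ van (G : Set (GL ι ℂ)), MvPolynomial.eval (en f.1) p = 0) → f ∈ G) →
    (∀ X : Matrix ι ι ℂ, (∀ p ∈ van (G : Set (GL ι ℂ)),
      ∑ v : ι × ι, X v.1 v.2 * MvPolynomial.eval (en (1 : Matrix ι ι ℂ))
        (MvPolynomial.pderiv v p) = 0) → X = 0) →
    (G : Set (GL ι ℂ)).Finite

/-- UNI: a finite group of isometries such that all subspaces of `End V` which are stable under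
it are stable under all isometries has bounded order -/
def SpecUni : Prop :=
  ∀ (ι : Type) [Fintype ι] [DecidableEq ι] [Nonempty ι], ∃ M : ℕ, ∀ (ψ : Matrix ι ι ℂ),
    ψᵀ = -ψ → ψ.det ≠ 0 → ∀ G : Subgroup (GL ι ℂ), (G : Set (GL ι ℂ)).Finite → G ≤ spG ψ →
    (∀ A : Submodule ℂ (Matrix ι ι ℂ), (∀ g ∈ G, ∀ X ∈ A, g.1 * X * g⁻¹.1 ∈ A) →
      ∀ g ∈ spG ψ, ∀ X ∈ A, g.1 * X * g⁻¹.1 ∈ A) → Nat.card G ≤ M

/-- END: a condition for the hypothesis of UNI -/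
def SpecEnd : Prop :=
  ∀ (ι : Type) [Fintype ι] [DecidableEq ι] (ψ : Matrix ι ι ℂ), ψᵀ = -ψ → ψ.det ≠ 0 →
    ∀ G : Subgroup (GL ι ℂ), (G : Set (GL ι ℂ)).Finite → G ≤ spG ψ →
    (∀ w : (Fin 4 → ι) → ℂ, (∀ g ∈ G, ta g.1 w = w) → ∀ g ∈ spG ψ, ta g.1 w = w) →
    ∀ A : Submodule ℂ (Matrix ι ι ℂ), (∀ g ∈ G, ∀ X ∈ A, g.1 * X * g⁻¹.1 ∈ A) →
      ∀ g ∈ spG ψ, ∀ X ∈ A, g.1 * X * g⁻¹.1 ∈ A

/-- ORD: a finite group of isometries has more invariant tensors than the group of all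
isometries -/
def SpecOrd : Prop :=
  ∀ (ι : Type) [Fintype ι] [DecidableEq ι] [Nonempty ι] (ψ : Matrix ι ι ℂ), ψᵀ = -ψ →
    ψ.det ≠ 0 → ∀ G : Subgroup (GL ι ℂ), (G : Set (GL ι ℂ)).Finite → G ≤ spG ψ →
    ¬ ∀ m ≤ Nat.card G, ∀ w : (Fin m → ι) → ℂ, (∀ g ∈ G, ta g.1 w = w) →
      ∀ g ∈ spG ψ, ta g.1 w = w

/-- LIE: the Lie algebra consists of scalars or contains all infinitesimal isometries (from AD) -/
def SpecLie : Prop :=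
  ∀ (ι : Type) [Fintype ι] [DecidableEq ι] (ψ : Matrix ι ι ℚ) (K : IntermediateField ℚ ℂ)
    (T : Set (GL ι ℂ)) (c : GL ι ℂ), ψᵀ = -ψ → ψ.det ≠ 0 → K ≤ Qbar → IsTorsor K T → c ∈ T →
    (∀ f ∈ T, ∃ z : ℂ, f.1ᵀ * cx ψ * f.1 = z • (c.1ᵀ * cx ψ * c.1)) → Stab K T (cx ψ) 2 →
    (∀ Y : Matrix ι ι ℂ, Yᵀ * cx ψ + cx ψ * Y = 0 → Y ∈ spl T ψ) ∨
      ∀ X ∈ lie T, ∃ t : ℂ, X = t • 1

/-- GRPK: from the Lie algebra to the torsor (as GF/Grp, for all `K`) -/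
def SpecGrpK : Prop :=
  ∀ (ι : Type) [Fintype ι] [DecidableEq ι] [Nonempty ι] (T : Set (GL ι ℂ)) (c : GL ι ℂ)
    (ψ : Matrix ι ι ℚ), Geo T → c ∈ T → ψᵀ = -ψ → ψ.det ≠ 0 →
    (∀ Y : Matrix ι ι ℂ, Yᵀ * cx ψ + cx ψ * Y = 0 → Y ∈ spl T ψ) →
    (∃ X ∈ lie T, ∃ m : ℂ, m ≠ 0 ∧ Xᵀ * cx ψ + cx ψ * X = m • cx ψ) →
    ∀ (f : GL ι ℂ) (z : ℂˣ), f.1ᵀ * cx ψ * f.1 = (z : ℂ) • (c.1ᵀ * cx ψ * c.1) → f ∈ T

/-- SCA: if the Lie algebra contains the scalars, the group contains the scalars -/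
def SpecSca : Prop :=
  ∀ (ι : Type) [Fintype ι] [DecidableEq ι] (T : Set (GL ι ℂ)) (c : GL ι ℂ), Geo T → c ∈ T →
    (1 : Matrix ι ι ℂ) ∈ lie T → ∀ (t : ℂˣ) (g : GL ι ℂ), g.1 = (t : ℂ) • c.1 → g ∈ T

/-- GT: the result of Part C (from LIE, GRPK, SCA, FGR, UNI, END, ORD, KER) -/
def SpecGt : Prop :=
  ∀ (ι : Type) [Fintype ι] [DecidableEq ι] [Nonempty ι], ∃ D : ℕ, ∀ (ψ : Matrix ι ι ℚ)
    (K : IntermediateField ℚ ℂ) (T : Set (GL ι ℂ)) (c : GL ι ℂ), ψᵀ = -ψ → ψ.det ≠ 0 →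
    K ≤ Qbar → IsTorsor K T → c ∈ T →
    (∀ f ∈ T, ∃ z : ℂ, f.1ᵀ * cx ψ * f.1 = z • (c.1ᵀ * cx ψ * c.1)) →
    (∃ X ∈ lie T, ∃ m : ℂ, m ≠ 0 ∧ Xᵀ * cx ψ + cx ψ * X = m • cx ψ) →
    (∀ m ≤ D, Stab K T (cx ψ) m) →
    ∀ (f : GL ι ℂ) (z : ℂˣ), f.1ᵀ * cx ψ * f.1 = (z : ℂ) • (c.1ᵀ * cx ψ * c.1) → f ∈ T

end Pool.Agent.Lib.MPf11a48.CF
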