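import Pool.Agent.Lib.MP_f11a48_ag.CF.Defs

/-!
# Objects near an object of CM type: the theorem
-/

set_option autoImplicit false

namespace Pool.Agent.Lib.MPf11a48.CF

open Polynomial Matrix
open scoped PowerSeries
open Pool.Agent.Lib.MPf11a48.CM Pool.Agent.Lib.MPf11a48.GL2T Pool.Agent.Lib.MPf11a48.GF
open Pool.Agent.Lib.MPf11a48.K3 (cx)

/-- The theorem. `C₀ = P diag(s) Q` is the period matrix of the fibre at `0` (an object over `ℚ`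
which is a sum of objects of rank one over `Qbar`, two of which have proportional periods), and
`C₀ * Y(a/b) * R` is the period matrix of the fibre at `a / b`. -/
def Statement : Prop :=
  ∀ (ι : Type) [Fintype ι] [DecidableEq ι] (T : ℤ[X]) (B : Matrix ι ι ℤ[X])
    (Y : Matrix ι ι ℚ⟦X⟧) (ψ₀ ψ : Matrix ι ι ℚ) (C₀ P Q : Matrix ι ι ℂ) (s : ι → ℂ) (w : ℤ)
    (δ : ℕ), GMat T B Y ψ₀ → ψᵀ = -ψ → ψ.det ≠ 0 → w ≠ 0 →
    C₀ᵀ * cx ψ * C₀ = (2 * Real.pi * Complex.I) ^ w • cx ψ₀ → ψ₀.det ≠ 0 →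
    C₀ = P * diagonal s * Q → IsAlg P → IsAlg Q → (∃ i j, i ≠ j ∧ s i / s j ∈ Qbar) →
    ∃ C : ℕ, ∀ a b : ℤ, a ≠ 0 → (C : ℤ) * |a| ^ C ≤ b →
      ∀ (K : IntermediateField ℚ ℂ), FiniteDimensional ℚ K → Module.finrank ℚ K ≤ δ →
      ∀ (R : Matrix ι ι K) (c : GL ι ℂ),
        c.1 = C₀ * vm Y ((a : ℂ) / b) * R.map (fun x => (x : ℂ)) →
        ∃ ψdR : Matrix ι ι K, Polarised w c ψdR ψ ∧
          Tors.OmegaM K c = {f | ∃ z : ℂˣ, Mult f ψdR ψ z} ∧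
          OmegaDRB K c = {f | ∃ z : ℂˣ, Mult f ψdR ψ z} ∧
          ∀ S : Set (TPair K ι), (∀ α ∈ S, Fixes c α) → polPair ψdR ψ ∈ S →
            OmegaS S = {f | ∃ z : ℂˣ, Mult f ψdR ψ z}

end Pool.Agent.Lib.MPf11a48.CF
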